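import Pool.Agent.Lib.MP_119be6_an.SumScales

/-!
Bounds for the parts with small coordinates and for the exceptional indices.
-/

namespace Pool.Agent.MP_119be6_an

open Finset

section

variable {N : ℕ} {I J : Type*} [Fintype I] [Fintype J]

/-- the (normalised) contraction property of a weighted family of vectors -/
def Contr (q : ℝ) (μ : I → ℝ) (x : I → Fin N → ℝ) : Prop :=
  ∀ c : Fin N → ℝ, ∑ i, μ i * |∑ m, c m * x i m| ^ q ≤ 1 / N * ∑ m, |c m| ^ q

lemma Contr.mass {q : ℝ} (hq : 0 < q) {μ : I → ℝ} {x : I → Fin N → ℝ} (h : Contr q μ x)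
    (m : Fin N) : ∑ i, μ i * |x i m| ^ q ≤ 1 / N := by
  classical
  have h1 := h (Pi.single m 1)
  have h2 : ∀ i, ∑ m', (Pi.single m (1 : ℝ) : Fin N → ℝ) m' * x i m' = x i m := by
    intro i
    rw [Finset.sum_eq_single m]
    · simp
    · intro b _ hb
      simp [Pi.single_eq_of_ne hb]
    · intro h; exact absurd (Finset.mem_univ m) h
  have h3 : ∑ m', |(Pi.single m (1 : ℝ) : Fin N → ℝ) m'| ^ q = 1 := by
    rw [Finset.sum_eq_single m]
    · simp
    · intro b _ hb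
      simp [Pi.single_eq_of_ne hb, Real.zero_rpow hq.ne']
    · intro h; exact absurd (Finset.mem_univ m) h
  simp only [h2, h3, mul_one] at h1
  exact h1

lemma Contr.mass_total {q : ℝ} (hq : 0 < q) (hN : 1 ≤ N) {μ : I → ℝ} {x : I → Fin N → ℝ}
    (h : Contr q μ x) : ∑ i, μ i * ∑ m, |x i m| ^ q ≤ 1 := by
  have hN0 : (0 : ℝ) < N := by exact_mod_cast hN
  calc ∑ i, μ i * ∑ m, |x i m| ^ q = ∑ m, ∑ i, μ i * |x i m| ^ q := by
        rw [Finset.sum_comm]
        exact Finset.sum_congr rfl fun i _ => by rw [Finset.mul_sum]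
    _ ≤ ∑ _m : Fin N, 1 / (N : ℝ) := Finset.sum_le_sum fun m _ => h.mass hq m
    _ = 1 := by
        rw [Finset.sum_const, Finset.card_univ, Fintype.card_fin, nsmul_eq_mul]
        field_simp

lemma Contr.moment {q : ℝ} {μ : I → ℝ} {ν : J → ℝ} {x : I → Fin N → ℝ}
    {y : J → Fin N → ℝ} (hx : Contr q μ x) (hy : Contr q ν y) (hν : ∀ j, 0 ≤ ν j)
    (θ : Fin N × Fin N → ℝ) :
    ∑ i, ∑ j, μ i * ν j * |bil θ (x i) (y j)| ^ q ≤ 1 / N * (1 / N * ∑ e, |θ e| ^ q) := by
  calc ∑ i, ∑ j, μ i * ν j * |bil θ (x i) (y j)| ^ q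
      = ∑ j, ν j * ∑ i, μ i * |∑ m, (∑ l, θ (m, l) * y j l) * x i m| ^ q := by
        rw [Finset.sum_comm]
        refine Finset.sum_congr rfl fun j _ => ?_
        rw [Finset.mul_sum]
        refine Finset.sum_congr rfl fun i _ => ?_
        have : bil θ (x i) (y j) = ∑ m, (∑ l, θ (m, l) * y j l) * x i m := by
          unfold bil
          rw [← Finset.univ_product_univ, Finset.sum_product]
          refine Finset.sum_congr rfl fun m _ => ?_
          rw [Finset.sum_mul]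
          exact Finset.sum_congr rfl fun l _ => by ring
        rw [this]; ring
    _ ≤ ∑ j, ν j * (1 / N * ∑ m, |∑ l, θ (m, l) * y j l| ^ q) :=
        Finset.sum_le_sum fun j _ => mul_le_mul_of_nonneg_left (hx _) (hν j)
    _ = 1 / N * ∑ m, ∑ j, ν j * |∑ l, θ (m, l) * y j l| ^ q := by
        rw [Finset.sum_comm, Finset.mul_sum]
        refine Finset.sum_congr rfl fun j _ => ?_
        rw [← Finset.mul_sum]; ring
    _ ≤ 1 / N * ∑ m, (1 / N * ∑ l, |θ (m, l)| ^ q) :=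
        mul_le_mul_of_nonneg_left (Finset.sum_le_sum fun m _ => hy _) (by positivity)
    _ = 1 / N * (1 / N * ∑ e, |θ e| ^ q) := by
        rw [← Finset.mul_sum, ← Finset.univ_product_univ, Finset.sum_product]

lemma abs_le_trunc {q s z : ℝ} (hq : 1 ≤ q) (hs : 0 < s) :
    |z| ≤ s ^ (1 - q) * |z| ^ q + s := by
  by_cases h : |z| ≤ s
  · have : 0 ≤ s ^ (1 - q) * |z| ^ q := by positivity
    linarith
  · push Not at h
    have hz : 0 < |z| := hs.trans h
    have h1 : |z| ^ (1 - q) ≤ s ^ (1 - q) :=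
      Real.rpow_le_rpow_of_nonpos hs h.le (by linarith)
    have h2 : |z| = |z| ^ (1 - q) * |z| ^ q := by
      rw [← Real.rpow_add hz]; simp
    calc |z| = |z| ^ (1 - q) * |z| ^ q := h2
      _ ≤ s ^ (1 - q) * |z| ^ q := mul_le_mul_of_nonneg_right h1 (by positivity)
      _ ≤ s ^ (1 - q) * |z| ^ q + s := by linarith

lemma rpow_le_one_add_sq {q z : ℝ} (hq0 : 0 < q) (hq : q ≤ 2) : |z| ^ q ≤ 1 + z ^ 2 := by
  by_cases h : |z| ≤ 1
  · have h1 : |z| ^ q ≤ 1 := Real.rpow_le_one (abs_nonneg _) h hq0.le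
    have := sq_nonneg z
    linarith
  · push Not at h
    have h1 : |z| ^ q ≤ |z| ^ (2 : ℝ) := Real.rpow_le_rpow_of_exponent_le h.le hq
    rw [Real.rpow_two, sq_abs] at h1
    linarith

/-- the linear forms are bounded in mean by the Hilbert norm -/
lemma Contr.linear {q : ℝ} (hq1 : 1 ≤ q) (hq2 : q ≤ 2) (hN : 1 ≤ N) {μ : I → ℝ}
    (hμ : ∀ i, 0 ≤ μ i) (hμ1 : ∑ i, μ i ≤ 1) {x : I → Fin N → ℝ}
    (h : Contr q μ x) (w : Fin N → ℝ) :
    ∑ i, μ i * |∑ m, w m * x i m| ≤ 3 * Real.sqrt ((∑ m, w m ^ 2) / N) := by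
  have hN0 : (0 : ℝ) < N := by exact_mod_cast hN
  set W := Real.sqrt ((∑ m, w m ^ 2) / N) with hW
  have hs0 : 0 ≤ (∑ m, w m ^ 2) / N :=
    div_nonneg (Finset.sum_nonneg fun _ _ => sq_nonneg _) hN0.le
  have hW2 : W ^ 2 = (∑ m, w m ^ 2) / N := Real.sq_sqrt hs0
  rcases (Real.sqrt_nonneg ((∑ m, w m ^ 2) / N)).eq_or_lt with h0 | h0
  · have h1 : (∑ m, w m ^ 2) / N = 0 := by
      rw [← hW2, hW, ← h0]; norm_num
    have h2 : ∑ m, w m ^ 2 = 0 := by
      rcases div_eq_zero_iff.1 h1 with h | h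
      · exact h
      · exact absurd h hN0.ne'
    have h3 : ∀ m, w m = 0 := by
      intro m
      have := (Finset.sum_eq_zero_iff_of_nonneg (fun i _ => sq_nonneg (w i))).1 h2 m
        (Finset.mem_univ m)
      exact pow_eq_zero_iff (by norm_num) |>.1 this
    have h4 : ∑ i, μ i * |∑ m, w m * x i m| = 0 := by
      refine Finset.sum_eq_zero fun i _ => ?_
      simp [h3]
    rw [h4]
    positivity
  · rw [← hW] at h0
    have h1 : ∀ i, |∑ m, w m * x i m| = W * |∑ m, (w m / W) * x i m| := by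
      intro i
      have : ∑ m, w m * x i m = W * ∑ m, (w m / W) * x i m := by
        rw [Finset.mul_sum]
        refine Finset.sum_congr rfl fun m _ => ?_
        field_simp
      rw [this, abs_mul, abs_of_pos h0]
    have h2 : ∑ i, μ i * |∑ m, (w m / W) * x i m| ≤ 3 := by
      have e1 : ∀ z : ℝ, |z| ≤ |z| ^ q + 1 := by
        intro z
        have := abs_le_trunc (z := z) hq1 (one_pos)
        simpa using this
      calc ∑ i, μ i * |∑ m, (w m / W) * x i m|
          ≤ ∑ i, μ i * (|∑ m, (w m / W) * x i m| ^ q + 1) :=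
            Finset.sum_le_sum fun i _ => mul_le_mul_of_nonneg_left (e1 _) (hμ i)
        _ = ∑ i, μ i * |∑ m, (w m / W) * x i m| ^ q + ∑ i, μ i := by
            rw [← Finset.sum_add_distrib]
            exact Finset.sum_congr rfl fun i _ => by ring
        _ ≤ 1 / N * ∑ m, |w m / W| ^ q + 1 := add_le_add (h _) hμ1
        _ ≤ 1 / N * ∑ m, (1 + (w m / W) ^ 2) + 1 := by
            refine add_le_add (mul_le_mul_of_nonneg_left ?_ (by positivity)) (le_refl _)
            exact Finset.sum_le_sum fun m _ => rpow_le_one_add_sq (by linarith) hq2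
        _ = 3 := by
            rw [Finset.sum_add_distrib, Finset.sum_const, Finset.card_univ, Fintype.card_fin,
              nsmul_eq_mul]
            have e2 : ∑ m, (w m / W) ^ 2 = (∑ m, w m ^ 2) / W ^ 2 := by
              rw [Finset.sum_div]
              exact Finset.sum_congr rfl fun m _ => by rw [div_pow]
            have e3 : ∑ m, w m ^ 2 = N * W ^ 2 := by
              rw [hW2]; field_simp
            rw [e2, e3]
            field_simp
            norm_num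
    simp only [h1]
    calc ∑ i, μ i * (W * |∑ m, (w m / W) * x i m|)
        = W * ∑ i, μ i * |∑ m, (w m / W) * x i m| := by
          rw [Finset.mul_sum]; exact Finset.sum_congr rfl fun i _ => by ring
      _ ≤ W * 3 := mul_le_mul_of_nonneg_left h2 h0.le
      _ = 3 * W := by ring

lemma sq_sum_small {q κ R : ℝ} (hq : q ≤ 2) (v : Fin N → ℝ) (hκ : 0 ≤ κ)
    (hv : ∀ l, |v l| ≤ κ) (hR : ∑ l, |v l| ^ q ≤ R) :
    ∑ l, v l ^ 2 ≤ κ ^ (2 - q) * R := by
  calc ∑ l, v l ^ 2 ≤ ∑ l, κ ^ (2 - q) * |v l| ^ q := by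
        refine Finset.sum_le_sum fun l _ => ?_
        rcases (abs_nonneg (v l)).eq_or_lt with h | h
        · have : v l = 0 := abs_eq_zero.1 h.symm
          rw [this]
          have : (0 : ℝ) ^ 2 = 0 := by norm_num
          rw [this]; positivity
        · have h1 : |v l| ^ (2 - q) ≤ κ ^ (2 - q) := Real.rpow_le_rpow h.le (hv l) (by linarith)
          calc v l ^ 2 = |v l| ^ (2 - q) * |v l| ^ q := by
                rw [← Real.rpow_add h, ← sq_abs]
                simp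
            _ ≤ _ := mul_le_mul_of_nonneg_right h1 (by positivity)
    _ = κ ^ (2 - q) * ∑ l, |v l| ^ q := by rw [Finset.mul_sum]
    _ ≤ κ ^ (2 - q) * R := mul_le_mul_of_nonneg_left hR (by positivity)

/-- small coordinates of the second vector -/
theorem part_a {q : ℝ} (hq1 : 1 ≤ q) (hq2 : q ≤ 2) (hN : 1 ≤ N) {μ : I → ℝ} {ν : J → ℝ}
    (hμ : ∀ i, 0 ≤ μ i) (hμ1 : ∑ i, μ i ≤ 1) (hν : ∀ j, 0 ≤ ν j) (hν1 : ∑ j, ν j ≤ 1)
    {x : I → Fin N → ℝ} (h : Contr q μ x) (v : J → Fin N → ℝ) {κ R : ℝ} (hκ : 0 ≤ κ)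
    (hv : ∀ j l, |v j l| ≤ κ) (hR : ∀ j, ∑ l, |v j l| ^ q ≤ R)
    (E : Fin N × Fin N → ℝ)
    (hE : ∀ κ ∈ intBall N, ∀ κ' ∈ intBall N,
      ∑ e : Fin N × Fin N, (κ e.1 : ℝ) * (κ' e.2 : ℝ) * E e ≤ 160 * N * Real.sqrt N) :
    ∑ i, ∑ j, μ i * ν j * |bil E (x i) (v j)| ≤ 60 * Real.sqrt (κ ^ (2 - q) * R) := by
  have hN0 : (0 : ℝ) < N := by exact_mod_cast hN
  have h1 : ∀ j, ∑ i, μ i * |bil E (x i) (v j)| ≤ 60 * Real.sqrt (κ ^ (2 - q) * R) := by
    intro j
    have e1 : ∀ i, bil E (x i) (v j) = ∑ m, (∑ l, E (m, l) * v j l) * x i m := by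
      intro i
      unfold bil
      rw [← Finset.univ_product_univ, Finset.sum_product]
      refine Finset.sum_congr rfl fun m _ => ?_
      rw [Finset.sum_mul]
      exact Finset.sum_congr rfl fun l _ => by ring
    simp only [e1]
    refine (h.linear hq1 hq2 hN hμ hμ1 _).trans ?_
    have h2 : (∑ m, (∑ l, E (m, l) * v j l) ^ 2) / N ≤ 400 * (κ ^ (2 - q) * R) := by
      rw [div_le_iff₀ hN0]
      calc ∑ m, (∑ l, E (m, l) * v j l) ^ 2 ≤ 400 * N * ∑ l, v j l ^ 2 := op_bound_sq hN E hE _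
        _ ≤ 400 * N * (κ ^ (2 - q) * R) :=
            mul_le_mul_of_nonneg_left (sq_sum_small hq2 _ hκ (hv j) (hR j)) (by positivity)
        _ = 400 * (κ ^ (2 - q) * R) * N := by ring
    calc 3 * Real.sqrt ((∑ m, (∑ l, E (m, l) * v j l) ^ 2) / N)
        ≤ 3 * Real.sqrt (400 * (κ ^ (2 - q) * R)) :=
          mul_le_mul_of_nonneg_left (Real.sqrt_le_sqrt h2) (by norm_num)
      _ = 3 * (20 * Real.sqrt (κ ^ (2 - q) * R)) := by
          rw [Real.sqrt_mul (by norm_num)]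
          congr 2
          rw [show (400 : ℝ) = 20 ^ 2 by norm_num]
          exact Real.sqrt_sq (by norm_num)
      _ = 60 * Real.sqrt (κ ^ (2 - q) * R) := by ring
  calc ∑ i, ∑ j, μ i * ν j * |bil E (x i) (v j)|
      = ∑ j, ν j * ∑ i, μ i * |bil E (x i) (v j)| := by
        rw [Finset.sum_comm]
        refine Finset.sum_congr rfl fun j _ => ?_
        rw [Finset.mul_sum]
        exact Finset.sum_congr rfl fun i _ => by ring
    _ ≤ ∑ j, ν j * (60 * Real.sqrt (κ ^ (2 - q) * R)) :=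
        Finset.sum_le_sum fun j _ => mul_le_mul_of_nonneg_left (h1 j) (hν j)
    _ = (∑ j, ν j) * (60 * Real.sqrt (κ ^ (2 - q) * R)) := by rw [Finset.sum_mul]
    _ ≤ 1 * (60 * Real.sqrt (κ ^ (2 - q) * R)) :=
        mul_le_mul_of_nonneg_right hν1 (by positivity)
    _ = _ := one_mul _

/-- small coordinates of the first vector, large coordinates of the second -/
theorem part_b {q : ℝ} (hq2 : q ≤ 2) (hN : 1 ≤ N) {μ : I → ℝ} {ν : J → ℝ}
    (hμ : ∀ i, 0 ≤ μ i) (hμ1 : ∑ i, μ i ≤ 1) (hν : ∀ j, 0 ≤ ν j)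
    (y : J → Fin N → ℝ) (hy : ∀ l, ∑ j, ν j * |y j l| ^ q ≤ 1 / N)
    (v : J → Fin N → ℝ) {D : ℝ} (hD : 0 ≤ D) (hv : ∀ j l, |v j l| ≤ D * |y j l| ^ q)
    (u : I → Fin N → ℝ) {κ R : ℝ} (hκ : 0 ≤ κ)
    (hu : ∀ i m, |u i m| ≤ κ) (hR : ∀ i, ∑ m, |u i m| ^ q ≤ R)
    (E : Fin N × Fin N → ℝ)
    (hE : ∀ κ ∈ intBall N, ∀ κ' ∈ intBall N,
      ∑ e : Fin N × Fin N, (κ e.1 : ℝ) * (κ' e.2 : ℝ) * E e ≤ 160 * N * Real.sqrt N) :
    ∑ i, ∑ j, μ i * ν j * |bil E (u i) (v j)| ≤ 20 * D * Real.sqrt (κ ^ (2 - q) * R) := by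
  have hN0 : (0 : ℝ) < N := by exact_mod_cast hN
  have h1 : ∀ i, ∑ j, ν j * |bil E (u i) (v j)| ≤ 20 * D * Real.sqrt (κ ^ (2 - q) * R) := by
    intro i
    set g : Fin N → ℝ := fun l => ∑ m, E (m, l) * u i m with hg
    have e1 : ∀ j, bil E (u i) (v j) = ∑ l, g l * v j l := by
      intro j
      unfold bil
      rw [← Finset.univ_product_univ, Finset.sum_product, Finset.sum_comm]
      refine Finset.sum_congr rfl fun m _ => ?_
      rw [hg, Finset.sum_mul]
      exact Finset.sum_congr rfl fun l _ => by ring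
    have hg2 : ∑ l, g l ^ 2 ≤ 400 * N * (κ ^ (2 - q) * R) :=
      (op_bound_sq' hN E hE (u i)).trans
        (mul_le_mul_of_nonneg_left (sq_sum_small hq2 _ hκ (hu i) (hR i)) (by positivity))
    have hg1 : ∑ l, |g l| ≤ N * (20 * Real.sqrt (κ ^ (2 - q) * R)) := by
      have h2 := sq_sum_le_card_mul_sum_sq (s := (univ : Finset (Fin N))) (f := fun l => |g l|)
      simp only [sq_abs, Finset.card_univ, Fintype.card_fin] at h2
      have h3 : (∑ l, |g l|) ^ 2 ≤ (N : ℝ) ^ 2 * (400 * (κ ^ (2 - q) * R)) := by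
        calc (∑ l, |g l|) ^ 2 ≤ N * ∑ l, g l ^ 2 := h2
          _ ≤ N * (400 * N * (κ ^ (2 - q) * R)) := mul_le_mul_of_nonneg_left hg2 hN0.le
          _ = _ := by ring
      have h4 := Real.le_sqrt_of_sq_le h3
      rw [Real.sqrt_mul (sq_nonneg _), Real.sqrt_sq hN0.le, Real.sqrt_mul (by norm_num)] at h4
      have h5 : Real.sqrt 400 = 20 := by
        rw [show (400 : ℝ) = 20 ^ 2 by norm_num]
        exact Real.sqrt_sq (by norm_num)
      rw [h5] at h4
      exact h4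
    calc ∑ j, ν j * |bil E (u i) (v j)| ≤ ∑ j, ν j * ∑ l, |g l| * (D * |y j l| ^ q) := by
          refine Finset.sum_le_sum fun j _ => mul_le_mul_of_nonneg_left ?_ (hν j)
          rw [e1]
          refine (Finset.abs_sum_le_sum_abs _ _).trans (Finset.sum_le_sum fun l _ => ?_)
          rw [abs_mul]
          exact mul_le_mul_of_nonneg_left (hv j l) (abs_nonneg _)
      _ = ∑ l, D * |g l| * ∑ j, ν j * |y j l| ^ q := by
          simp only [Finset.mul_sum]
          rw [Finset.sum_comm]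
          exact Finset.sum_congr rfl fun l _ => Finset.sum_congr rfl fun j _ => by ring
      _ ≤ ∑ l, D * |g l| * (1 / N) :=
          Finset.sum_le_sum fun l _ => mul_le_mul_of_nonneg_left (hy l) (by positivity)
      _ = D * (1 / N) * ∑ l, |g l| := by
          rw [Finset.mul_sum]; exact Finset.sum_congr rfl fun l _ => by ring
      _ ≤ D * (1 / N) * (N * (20 * Real.sqrt (κ ^ (2 - q) * R))) :=
          mul_le_mul_of_nonneg_left hg1 (by positivity)
      _ = 20 * D * Real.sqrt (κ ^ (2 - q) * R) := by field_simp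
  calc ∑ i, ∑ j, μ i * ν j * |bil E (u i) (v j)|
      = ∑ i, μ i * ∑ j, ν j * |bil E (u i) (v j)| := by
        refine Finset.sum_congr rfl fun i _ => ?_
        rw [Finset.mul_sum]
        exact Finset.sum_congr rfl fun j _ => by ring
    _ ≤ ∑ i, μ i * (20 * D * Real.sqrt (κ ^ (2 - q) * R)) :=
        Finset.sum_le_sum fun i _ => mul_le_mul_of_nonneg_left (h1 i) (hμ i)
    _ = (∑ i, μ i) * (20 * D * Real.sqrt (κ ^ (2 - q) * R)) := by rw [Finset.sum_mul]
    _ ≤ 1 * (20 * D * Real.sqrt (κ ^ (2 - q) * R)) :=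
        mul_le_mul_of_nonneg_right hμ1 (by positivity)
    _ = _ := one_mul _

/-- the exceptional indices -/
theorem part_bad {q : ℝ} (hq1 : 1 ≤ q) (hN : 1 ≤ N) {μ : I → ℝ} {ν : J → ℝ}
    (hμ : ∀ i, 0 ≤ μ i) (hμ1 : ∑ i, μ i ≤ 1) (hν : ∀ j, 0 ≤ ν j) (hν1 : ∑ j, ν j ≤ 1)
    {x : I → Fin N → ℝ} {y : J → Fin N → ℝ} (hx : Contr q μ x) (hy : Contr q ν y)
    (θ : Fin N × Fin N → ℝ) {R s M : ℝ} (hR : 0 < R) (hs : 0 < s)
    (hM : ∑ e, |θ e| ^ q ≤ M * N ^ 2)
    (x' : I → Fin N → ℝ) (y' : J → Fin N → ℝ)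
    (hx' : ∀ i, (∑ m, |x i m| ^ q ≤ R) → x' i = x i)
    (hy' : ∀ j, (∑ l, |y j l| ^ q ≤ R) → y' j = y j) :
    ∑ i, ∑ j, μ i * ν j * |bil θ (x i) (y j)|
      ≤ ∑ i, ∑ j, μ i * ν j * |bil θ (x' i) (y' j)| + (s ^ (1 - q) * M + 2 * s / R) := by
  classical
  have hN0 : (0 : ℝ) < N := by exact_mod_cast hN
  have hq0 : 0 < q := by linarith
  have h1 : ∀ i j, μ i * ν j * |bil θ (x i) (y j)| ≤ μ i * ν j * |bil θ (x' i) (y' j)|
      + (s ^ (1 - q) * (μ i * ν j * |bil θ (x i) (y j)| ^ q)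
        + s * (((μ i * ∑ m, |x i m| ^ q) / R) * ν j + μ i * ((ν j * ∑ l, |y j l| ^ q) / R))) := by
    intro i j
    have hμν : 0 ≤ μ i * ν j := mul_nonneg (hμ i) (hν j)
    have hXi : 0 ≤ ∑ m, |x i m| ^ q := Finset.sum_nonneg fun _ _ => by positivity
    have hYj : 0 ≤ ∑ l, |y j l| ^ q := Finset.sum_nonneg fun _ _ => by positivity
    have p1 : 0 ≤ s ^ (1 - q) * (μ i * ν j * |bil θ (x i) (y j)| ^ q) := by positivity
    have p2 : 0 ≤ ((μ i * ∑ m, |x i m| ^ q) / R) * ν j := by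
      have := hμ i; have := hν j; positivity
    have p3 : 0 ≤ μ i * ((ν j * ∑ l, |y j l| ^ q) / R) := by
      have := hμ i; have := hν j; positivity
    have p4 : 0 ≤ μ i * ν j * |bil θ (x' i) (y' j)| := by positivity
    by_cases hgi : ∑ m, |x i m| ^ q ≤ R
    · by_cases hgj : ∑ l, |y j l| ^ q ≤ R
      · rw [hx' i hgi, hy' j hgj]
        nlinarith
      · push Not at hgj
        have h2 := abs_le_trunc (z := bil θ (x i) (y j)) hq1 hs
        have h3 : (1 : ℝ) ≤ (∑ l, |y j l| ^ q) / R := (one_le_div hR).2 hgj.le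
        have h4 : μ i * ν j ≤ μ i * ((ν j * ∑ l, |y j l| ^ q) / R) := by
          rw [mul_div_assoc]
          have : ν j * 1 ≤ ν j * ((∑ l, |y j l| ^ q) / R) :=
            mul_le_mul_of_nonneg_left h3 (hν j)
          rw [mul_one] at this
          exact mul_le_mul_of_nonneg_left this (hμ i)
        have h5 := mul_le_mul_of_nonneg_left h2 hμν
        nlinarith
    · push Not at hgi
      have h2 := abs_le_trunc (z := bil θ (x i) (y j)) hq1 hs
      have h3 : (1 : ℝ) ≤ (∑ l, |x i l| ^ q) / R := (one_le_div hR).2 hgi.le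
      have h4 : μ i * ν j ≤ ((μ i * ∑ m, |x i m| ^ q) / R) * ν j := by
        rw [mul_div_assoc]
        have : μ i * 1 ≤ μ i * ((∑ l, |x i l| ^ q) / R) :=
          mul_le_mul_of_nonneg_left h3 (hμ i)
        rw [mul_one] at this
        exact mul_le_mul_of_nonneg_right this (hν j)
      have h5 := mul_le_mul_of_nonneg_left h2 hμν
      nlinarith
  refine (Finset.sum_le_sum fun i _ => Finset.sum_le_sum fun j _ => h1 i j).trans ?_
  simp only [Finset.sum_add_distrib]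
  refine add_le_add (le_refl _) (add_le_add ?_ ?_)
  · simp only [← Finset.mul_sum]
    refine mul_le_mul_of_nonneg_left ?_ (by positivity)
    refine (hx.moment hy hν θ).trans ?_
    calc 1 / (N : ℝ) * (1 / N * ∑ e, |θ e| ^ q) ≤ 1 / N * (1 / N * (M * N ^ 2)) := by
          refine mul_le_mul_of_nonneg_left (mul_le_mul_of_nonneg_left hM ?_) ?_ <;> positivity
      _ = M := by field_simp
  · have e1 : ∑ i, ∑ j, s * (((μ i * ∑ m, |x i m| ^ q) / R) * ν j
        + μ i * ((ν j * ∑ l, |y j l| ^ q) / R))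
        = s * ((∑ i, μ i * ∑ m, |x i m| ^ q) / R * ∑ j, ν j
          + (∑ i, μ i) * ((∑ j, ν j * ∑ l, |y j l| ^ q) / R)) := by
      simp only [← Finset.mul_sum, Finset.sum_add_distrib]
      congr 1
      rw [Finset.sum_div, Finset.sum_div, Finset.sum_mul, Finset.sum_mul]
    rw [e1]
    have m1 := hx.mass_total hq0 hN
    have m2 := hy.mass_total hq0 hN
    have n1 : 0 ≤ ∑ i, μ i * ∑ m, |x i m| ^ q :=
      Finset.sum_nonneg fun i _ => mul_nonneg (hμ i) (Finset.sum_nonneg fun _ _ => by positivity)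
    have n2 : 0 ≤ ∑ j, ν j * ∑ m, |y j m| ^ q :=
      Finset.sum_nonneg fun i _ => mul_nonneg (hν i) (Finset.sum_nonneg fun _ _ => by positivity)
    have n3 : 0 ≤ ∑ i, μ i := Finset.sum_nonneg fun i _ => hμ i
    have n4 : 0 ≤ ∑ j, ν j := Finset.sum_nonneg fun i _ => hν i
    have t1 : (∑ i, μ i * ∑ m, |x i m| ^ q) / R * ∑ j, ν j ≤ 1 / R * 1 :=
      mul_le_mul (div_le_div_of_nonneg_right m1 hR.le) hν1 n4 (by positivity)
    have t2 : (∑ i, μ i) * ((∑ j, ν j * ∑ l, |y j l| ^ q) / R) ≤ 1 * (1 / R) :=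
      mul_le_mul hμ1 (div_le_div_of_nonneg_right m2 hR.le) (by positivity) (by norm_num)
    calc s * ((∑ i, μ i * ∑ m, |x i m| ^ q) / R * ∑ j, ν j
          + (∑ i, μ i) * ((∑ j, ν j * ∑ l, |y j l| ^ q) / R))
        ≤ s * (1 / R * 1 + 1 * (1 / R)) := mul_le_mul_of_nonneg_left (add_le_add t1 t2) hs.le
      _ = 2 * s / R := by ring

end

end Pool.Agent.MP_119be6_an
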