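import Pool.Agent.Lib.MP_119be6_an.Numeric
import Pool.Agent.Lib.MP_119be6_an.Parts

/-!
The concrete alphabet and the random matrix.
-/

namespace Pool.Agent.MP_119be6_an

open Finset

section

variable (q : ℝ) (L : ℕ)

/-- weight of scale `k` -/
noncomputable def wk (k : ℕ) : ℝ := 2 ^ (-((k : ℝ) + 1) * q)

/-- weights of the letters -/
noncomputable def wt : Option (Fin L × Bool) → ℝ
  | none => 1 - ∑ k : Fin L, wk q k
  | some p => wk q p.1 / 2

/-- the sign letter of scale `k` -/
noncomputable def ph (k : Fin L) : Option (Fin L × Bool) → ℝ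
  | none => 0
  | some p => if p.1 = k then sg p.2 else 0

/-- centred absolute value of the letter -/
noncomputable def ps (k : Fin L) (a : Option (Fin L × Bool)) : ℝ := |ph L k a| - wk q k

lemma wk_pos (k : ℕ) : 0 < wk q k := by unfold wk; positivity

variable {q}

lemma wk_le (hq : 1 ≤ q) (k : ℕ) : wk q k ≤ (1 / 2) ^ (k + 1) := by
  unfold wk
  have h1 : (2 : ℝ) ^ (-((k : ℝ) + 1) * q) ≤ 2 ^ (-((k : ℝ) + 1)) := by
    refine Real.rpow_le_rpow_of_exponent_le (by norm_num) ?_
    have : (0 : ℝ) ≤ k := Nat.cast_nonneg k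
    nlinarith
  refine h1.trans (le_of_eq ?_)
  rw [Real.rpow_neg (by norm_num), one_div, inv_pow, ← Real.rpow_natCast]
  push_cast
  rfl

lemma wk_le_one (hq : 1 ≤ q) (k : ℕ) : wk q k ≤ 1 :=
  (wk_le hq k).trans (pow_le_one₀ (by norm_num) (by norm_num))

lemma sum_half (L : ℕ) : ∑ k ∈ range L, (1 / 2 : ℝ) ^ (k + 1) = 1 - (1 / 2) ^ L := by
  induction L with
  | zero => simp
  | succ n ih => rw [Finset.sum_range_succ, ih, pow_succ]; ring

lemma sum_wk_le (hq : 1 ≤ q) : ∑ k : Fin L, wk q k ≤ 1 := by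
  rw [Fin.sum_univ_eq_sum_range (fun k => wk q k) L]
  calc ∑ k ∈ range L, wk q k ≤ ∑ k ∈ range L, (1 / 2 : ℝ) ^ (k + 1) :=
        Finset.sum_le_sum fun k _ => wk_le hq k
    _ = 1 - (1 / 2) ^ L := sum_half L
    _ ≤ 1 := by
        have : (0 : ℝ) ≤ (1 / 2) ^ L := by positivity
        linarith

lemma wt_nonneg (hq : 1 ≤ q) (a : Option (Fin L × Bool)) : 0 ≤ wt q L a := by
  cases a with
  | none => have := sum_wk_le L hq; simp only [wt]; linarith
  | some p => have := wk_pos q p.1; simp only [wt]; linarith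

lemma sum_wt : ∑ a, wt q L a = 1 := by
  rw [Fintype.sum_option, Fintype.sum_prod_type]
  have h1 : ∀ j : Fin L, ∑ b : Bool, wt q L (some (j, b)) = wk q j := by
    intro j
    rw [Fintype.sum_bool]
    simp only [wt]
    ring
  rw [Finset.sum_congr rfl (fun j _ => h1 j)]
  simp only [wt]
  ring

lemma abs_ph_le (k : Fin L) (a : Option (Fin L × Bool)) : |ph L k a| ≤ 1 := by
  cases a with
  | none => simp [ph]
  | some p => simp only [ph]; split_ifs <;> simp [abs_sg]

lemma sum_ph (k : Fin L) : ∑ a, wt q L a * ph L k a = 0 := by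
  rw [Fintype.sum_option, Fintype.sum_prod_type]
  simp [wt, ph, Fintype.sum_bool, sg]

lemma sum_abs_ph (k : Fin L) : ∑ a, wt q L a * |ph L k a| = wk q k := by
  rw [Fintype.sum_option, Fintype.sum_prod_type]
  have h1 : ∀ j : Fin L, ∑ b : Bool, wt q L (some (j, b)) * |ph L k (some (j, b))|
      = if j = k then wk q j else 0 := by
    intro j
    by_cases h : j = k
    · subst h
      simp [wt, ph, Fintype.sum_bool, sg]
    · simp [wt, ph, Fintype.sum_bool, h]
  simp only [h1]
  simp [ph]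

lemma sum_ps (k : Fin L) : ∑ a, wt q L a * ps q L k a = 0 := by
  unfold ps
  simp only [mul_sub]
  rw [Finset.sum_sub_distrib, sum_abs_ph, ← Finset.sum_mul, sum_wt]
  ring

lemma abs_ps_le (hq : 1 ≤ q) (k : Fin L) (a : Option (Fin L × Bool)) : |ps q L k a| ≤ 1 := by
  unfold ps
  have h1 := abs_ph_le L k a
  have h2 := abs_nonneg (ph L k a)
  have h3 := wk_le_one hq (k : ℕ)
  have h4 := wk_pos q k
  rw [abs_le]
  constructor <;> linarith

/-- the signs at scale `k` -/
noncomputable def Ek {N : ℕ} (X : Fin N × Fin N → Option (Fin L × Bool)) (k : ℕ)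
    (e : Fin N × Fin N) : ℝ := if h : k < L then ph L ⟨k, h⟩ (X e) else 0

lemma Ek_sq {N : ℕ} (X : Fin N × Fin N → Option (Fin L × Bool)) (k : ℕ) (e : Fin N × Fin N) :
    Ek L X k e ^ 2 = |Ek L X k e| := by
  unfold Ek
  split_ifs with h
  · cases hX : X e with
    | none => simp [ph]
    | some p =>
      simp only [ph]
      split_ifs
      · rw [sg_sq, abs_sg]
      · simp
  · simp

/-- the full matrix -/
noncomputable def th {N : ℕ} (X : Fin N × Fin N → Option (Fin L × Bool)) (e : Fin N × Fin N) : ℝ :=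
  ∑ k ∈ range L, 2 ^ ((k : ℝ) + 1) * Ek L X k e

lemma abs_th_pow (hq : 0 < q) {N : ℕ} (X : Fin N × Fin N → Option (Fin L × Bool))
    (e : Fin N × Fin N) :
    |th L X e| ^ q = ∑ k ∈ range L, 2 ^ (((k : ℝ) + 1) * q) * |Ek L X k e| := by
  unfold th
  cases hX : X e with
  | none =>
    have h0 : ∀ k, Ek L X k e = 0 := by
      intro k; unfold Ek; rw [hX]; simp [ph]
    simp [h0, Real.zero_rpow hq.ne']
  | some p =>
    have h0 : ∀ k, Ek L X k e = if k = p.1 then sg p.2 else 0 := by
      intro k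
      unfold Ek
      rw [hX]
      by_cases h : k < L
      · simp only [h, dif_pos, ph]
        by_cases h2 : p.1 = ⟨k, h⟩
        · rw [if_pos h2, if_pos (by rw [h2])]
        · rw [if_neg h2, if_neg (fun h3 => h2 (Fin.ext h3.symm))]
      · have h3 : k ≠ p.1 := fun h3 => h (h3 ▸ p.1.2)
        simp [h, h3]
    have h1 : ∀ k ∈ range L, (2 : ℝ) ^ ((k : ℝ) + 1) * Ek L X k e
        = if k = p.1 then 2 ^ (((p.1 : ℕ) : ℝ) + 1) * sg p.2 else 0 := by
      intro k _
      rw [h0]
      by_cases h : k = p.1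
      · rw [if_pos h, if_pos h, h]
      · rw [if_neg h, if_neg h, mul_zero]
    have h2 : ∀ k ∈ range L, (2 : ℝ) ^ (((k : ℝ) + 1) * q) * |Ek L X k e|
        = if k = p.1 then 2 ^ ((((p.1 : ℕ) : ℝ) + 1) * q) else 0 := by
      intro k _
      rw [h0]
      by_cases h : k = p.1
      · rw [if_pos h, if_pos h, h, abs_sg, mul_one]
      · rw [if_neg h, if_neg h, abs_zero, mul_zero]
    rw [Finset.sum_congr rfl h1, Finset.sum_congr rfl h2, Finset.sum_ite_eq', Finset.sum_ite_eq',
      if_pos (Finset.mem_range.2 p.1.2), if_pos (Finset.mem_range.2 p.1.2), abs_mul, abs_sg,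
      mul_one, abs_of_pos (by positivity), ← Real.rpow_mul (by norm_num)]

lemma abs_bil_th_le {N : ℕ} (X : Fin N × Fin N → Option (Fin L × Bool)) (u v : Fin N → ℝ) :
    |bil (th L X) u v| ≤ ∑ k ∈ range L, 2 ^ ((k : ℝ) + 1) * |bil (Ek L X k) u v| := by
  have h1 : bil (th L X) u v = ∑ k ∈ range L, 2 ^ ((k : ℝ) + 1) * bil (Ek L X k) u v := by
    unfold bil th
    simp only [Finset.mul_sum]
    rw [Finset.sum_comm]
    exact Finset.sum_congr rfl fun k _ => Finset.sum_congr rfl fun e _ => by ring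
  rw [h1]
  refine (Finset.abs_sum_le_sum_abs _ _).trans (le_of_eq ?_)
  refine Finset.sum_congr rfl fun k _ => ?_
  rw [abs_mul, abs_of_pos (by positivity)]

end

end Pool.Agent.MP_119be6_an
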