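import Pool.Agent.Lib.MP_119be6_an.Union

/-!
Existence of a good configuration for all large `N`.
-/

namespace Pool.Agent.MP_119be6_an

open Finset

/-- sign of a Boolean -/
def sg (b : Bool) : ℝ := if b then 1 else -1

lemma abs_sg (b : Bool) : |sg b| = 1 := by cases b <;> simp [sg]

lemma sg_not (b : Bool) : sg (!b) = -sg b := by cases b <;> simp [sg]

lemma sg_sq (b : Bool) : sg b ^ 2 = 1 := by cases b <;> simp [sg]

/-- the three properties of a good configuration -/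
structure GoodConfig {K A : Type*} (φ ψ : K → A → ℝ) (t : ℝ) (N : ℕ)
    (X : Fin N × Fin N → A) : Prop where
  op : ∀ k, ∀ κ ∈ intBall N, ∀ κ' ∈ intBall N,
    ∑ e : Fin N × Fin N, (κ e.1 : ℝ) * (κ' e.2 : ℝ) * φ k (X e) ≤ 160 * N * Real.sqrt N
  cut : ∀ k, ∀ S' S : Finset (Fin N), |∑ e ∈ S' ×ˢ S, ψ k (X e)| ≤ t * (N : ℝ) ^ 2
  chaos : ∀ k, ∀ σ σ' : Fin N → Fin N, ∀ ς ς' : Fin N → Bool,
    |∑ e : Fin N × Fin N, if (σ e.1, σ' e.2) = e then 0 else
      sg (ς e.1) * sg (ς' e.2) * φ k (X e) * φ k (X (σ e.1, σ' e.2))| ≤ t * (N : ℝ) ^ 2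

lemma config_of_numeric {K A : Type*} [Fintype K] [Fintype A] {w : A → ℝ} (hw : ∀ a, 0 ≤ w a)
    (hw1 : ∑ a, w a = 1) (φ ψ : K → A → ℝ) (hφ : ∀ k a, |φ k a| ≤ 1)
    (hφ0 : ∀ k, ∑ a, w a * φ k a = 0) (hψ : ∀ k a, |ψ k a| ≤ 1)
    (hψ0 : ∀ k, ∑ a, w a * ψ k a = 0) {t : ℝ} (ht : 0 < t) {N : ℕ} (hN : 1 ≤ N)
    (hnum : (Fintype.card K : ℝ) * ((Real.exp 16 * 3) ^ N) ^ 2 * Real.exp (-(50 * N))
      + (Fintype.card K : ℝ) * (2 * (2 ^ N * 2 ^ N)) * Real.exp (-(t ^ 2 * N ^ 2 / 2))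
      + (Fintype.card K : ℝ) * ((N : ℝ) ^ N * (N : ℝ) ^ N * (2 ^ N * 2 ^ N)) *
          Real.exp (-(t ^ 2 * N ^ 2 / 32)) < 1) :
    ∃ X : Fin N × Fin N → A, GoodConfig φ ψ t N X := by
  classical
  have hN0 : (0 : ℝ) < N := by exact_mod_cast hN
  have hsN : 0 < Real.sqrt N := Real.sqrt_pos.2 hN0
  have hsN2 : Real.sqrt N * Real.sqrt N = N := Real.mul_self_sqrt hN0.le
  let B1 := K × intBall N × intBall N
  let B2 := K × Bool × Finset (Fin N) × Finset (Fin N)
  let B3 := K × (Fin N → Fin N) × (Fin N → Fin N) × (Fin N → Bool) × (Fin N → Bool)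
  let f1 : B1 → (Fin N × Fin N → A) → ℝ := fun b X =>
    ∑ e : Fin N × Fin N, (10 * Real.sqrt N / (16 * N) * ((b.2.1.1 e.1 : ℝ) * (b.2.2.1 e.2 : ℝ)))
      * φ b.1 (X e)
  let f2 : B2 → (Fin N × Fin N → A) → ℝ := fun b X =>
    ∑ e : Fin N × Fin N, (if e ∈ b.2.2.1 ×ˢ b.2.2.2 then sg b.2.1 * t else 0) * ψ b.1 (X e)
  let f3 : B3 → (Fin N × Fin N → A) → ℝ := fun b X =>
    (t / 16) * ∑ e : Fin N × Fin N, if (b.2.1 e.1, b.2.2.1 e.2) = e then 0 else
      (sg (b.2.2.2.1 e.1) * sg (b.2.2.2.2 e.2)) * φ b.1 (X e) * φ b.1 (X (b.2.1 e.1, b.2.2.1 e.2))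
  let f : B1 ⊕ B2 ⊕ B3 → (Fin N × Fin N → A) → ℝ := Sum.elim f1 (Sum.elim f2 f3)
  let u : B1 ⊕ B2 ⊕ B3 → ℝ := Sum.elim (fun _ => 100 * (N : ℝ))
    (Sum.elim (fun _ => t ^ 2 * N ^ 2) (fun _ => t ^ 2 * N ^ 2 / 16))
  let M : B1 ⊕ B2 ⊕ B3 → ℝ := Sum.elim (fun _ => Real.exp (50 * (N : ℝ)))
    (Sum.elim (fun _ => Real.exp (t ^ 2 * N ^ 2 / 2)) (fun _ => Real.exp (t ^ 2 * N ^ 2 / 32)))
  have hcard : Fintype.card (Fin N × Fin N) = N ^ 2 := by
    simp [Fintype.card_prod]; ring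
  obtain ⟨X, hX⟩ := exists_of_sum_lt (W := pw w) (fun X => pw_nonneg hw X) (sum_pw hw1) f u M
    (by
      rintro (b | b | b)
      · -- operator norm tests
        refine (sum_pw_exp_linear hw hw1 (hφ b.1) (hφ0 b.1) _).trans (Real.exp_le_exp.2 ?_)
        have h1 : (∑ m, ((b.2.1.1 m : ℝ)) ^ 2) ≤ 16 * (N : ℝ) := by
          exact_mod_cast (mem_intBall _).1 b.2.1.2
        have h2 : (∑ m, ((b.2.2.1 m : ℝ)) ^ 2) ≤ 16 * (N : ℝ) := by
          exact_mod_cast (mem_intBall _).1 b.2.2.2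
        have h3 : ∑ e : Fin N × Fin N, (10 * Real.sqrt N / (16 * N) *
            ((b.2.1.1 e.1 : ℝ) * (b.2.2.1 e.2 : ℝ))) ^ 2
            = (10 * Real.sqrt N / (16 * N)) ^ 2 * ((∑ m, ((b.2.1.1 m : ℝ)) ^ 2) *
              (∑ m, ((b.2.2.1 m : ℝ)) ^ 2)) := by
          rw [Finset.sum_mul_sum, ← Finset.sum_product', Finset.mul_sum]
          rw [← Finset.univ_product_univ]
          exact Finset.sum_congr rfl fun e _ => by ring
        rw [h3]
        have h4 : (∑ m, ((b.2.1.1 m : ℝ)) ^ 2) * (∑ m, ((b.2.2.1 m : ℝ)) ^ 2)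
            ≤ (16 * (N : ℝ)) * (16 * N) :=
          mul_le_mul h1 h2 (Finset.sum_nonneg fun _ _ => sq_nonneg _) (by positivity)
        have h5 : (10 * Real.sqrt N / (16 * N)) ^ 2 * ((16 * (N : ℝ)) * (16 * N)) = 100 * N := by
          field_simp
          nlinarith [hsN2]
        have h6 := mul_le_mul_of_nonneg_left h4 (sq_nonneg (10 * Real.sqrt N / (16 * N)))
        rw [h5] at h6
        linarith
      · -- cut norm tests
        refine (sum_pw_exp_linear hw hw1 (hψ b.1) (hψ0 b.1) _).trans (Real.exp_le_exp.2 ?_)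
        have h1 : ∀ e : Fin N × Fin N,
            (if e ∈ b.2.2.1 ×ˢ b.2.2.2 then sg b.2.1 * t else 0) ^ 2 ≤ t ^ 2 := by
          intro e
          split_ifs
          · rw [mul_pow, sg_sq, one_mul]
          · have := sq_nonneg t; simpa using this
        have h2 := Finset.sum_le_sum (fun e (_ : e ∈ (univ : Finset (Fin N × Fin N))) => h1 e)
        rw [Finset.sum_const, Finset.card_univ, hcard, nsmul_eq_mul] at h2
        push_cast at h2
        linarith
      · -- chaos tests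
        refine (sum_pw_exp_quad hw hw1 (hφ b.1) (hφ0 b.1)
          (fun e : Fin N × Fin N => (b.2.1 e.1, b.2.2.1 e.2))
          (fun e => sg (b.2.2.2.1 e.1) * sg (b.2.2.2.2 e.2)) (fun e => by
            rw [abs_mul, abs_sg, abs_sg]; norm_num) (t / 16)).trans (Real.exp_le_exp.2 ?_)
        rw [hcard]
        push_cast
        apply le_of_eq; ring)
    (by
      rw [Fintype.sum_sum_type, Fintype.sum_sum_type]
      simp only [u, M, Sum.elim_inl, Sum.elim_inr, ← Real.exp_add, Finset.sum_const,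
        Finset.card_univ, nsmul_eq_mul]
      have c1 : (Fintype.card B1 : ℝ) ≤ (Fintype.card K : ℝ) * ((Real.exp 16 * 3) ^ N) ^ 2 := by
        simp only [B1, Fintype.card_prod, Fintype.card_coe, Nat.cast_mul]
        rw [sq]
        have := card_intBall N
        gcongr
      have c2 : (Fintype.card B2 : ℝ) = (Fintype.card K : ℝ) * (2 * (2 ^ N * 2 ^ N)) := by
        simp [B2, Fintype.card_prod]
      have c3 : (Fintype.card B3 : ℝ) = (Fintype.card K : ℝ) *
          ((N : ℝ) ^ N * (N : ℝ) ^ N * (2 ^ N * 2 ^ N)) := by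
        simp only [B3, Fintype.card_prod, Fintype.card_fun, Fintype.card_fin, Fintype.card_bool,
          Nat.cast_mul, Nat.cast_pow, Nat.cast_ofNat]
        ring
      have e1 : (50 * (N : ℝ) + -(100 * N)) = -(50 * N) := by ring
      have e2 : (t ^ 2 * (N : ℝ) ^ 2 / 2 + -(t ^ 2 * N ^ 2)) = -(t ^ 2 * N ^ 2 / 2) := by ring
      have e3 : (t ^ 2 * (N : ℝ) ^ 2 / 32 + -(t ^ 2 * N ^ 2 / 16)) = -(t ^ 2 * N ^ 2 / 32) := by
        ring
      rw [e1, e2, e3, c2, c3]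
      have := mul_le_mul_of_nonneg_right c1 (Real.exp_pos (-(50 * (N : ℝ)))).le
      linarith)
  refine ⟨X, ?_, ?_, ?_⟩
  · intro k κ hκ κ' hκ'
    have h := hX (Sum.inl (k, ⟨κ, hκ⟩, ⟨κ', hκ'⟩))
    simp only [f, f1, u, Sum.elim_inl] at h
    have h1 : ∑ e : Fin N × Fin N, (10 * Real.sqrt N / (16 * N) *
        ((κ e.1 : ℝ) * (κ' e.2 : ℝ))) * φ k (X e) = 10 * Real.sqrt N / (16 * N) *
        ∑ e : Fin N × Fin N, (κ e.1 : ℝ) * (κ' e.2 : ℝ) * φ k (X e) := by
      rw [Finset.mul_sum]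
      exact Finset.sum_congr rfl fun e _ => by ring
    rw [h1] at h
    set Z := ∑ e : Fin N × Fin N, (κ e.1 : ℝ) * (κ' e.2 : ℝ) * φ k (X e) with hZ
    have h2 : 10 * Real.sqrt N / (16 * N) * (160 * N * Real.sqrt N) = 100 * N := by
      field_simp
      nlinarith [hsN2]
    by_contra hcon
    push Not at hcon
    have h3 : 10 * Real.sqrt N / (16 * N) * (160 * N * Real.sqrt N)
        < 10 * Real.sqrt N / (16 * N) * Z := mul_lt_mul_of_pos_left hcon (by positivity)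
    linarith
  · intro k S' S
    have key : ∀ b : Bool, sg b * ∑ e ∈ S' ×ˢ S, ψ k (X e) ≤ t * (N : ℝ) ^ 2 := by
      intro b
      have h := hX (Sum.inr (Sum.inl (k, b, S', S)))
      simp only [f, f2, u, Sum.elim_inl, Sum.elim_inr] at h
      have h1 : ∑ e : Fin N × Fin N, (if e ∈ S' ×ˢ S then sg b * t else 0) * ψ k (X e)
          = t * (sg b * ∑ e ∈ S' ×ˢ S, ψ k (X e)) := by
        rw [Finset.mul_sum, Finset.mul_sum]
        simp only [ite_mul, zero_mul]
        rw [← Finset.sum_filter]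
        have : univ.filter (fun e : Fin N × Fin N => e ∈ S' ×ˢ S) = S' ×ˢ S := by
          ext; simp
        rw [this]
        exact Finset.sum_congr rfl fun e _ => by ring
      rw [h1] at h
      have h2 : t * (sg b * ∑ e ∈ S' ×ˢ S, ψ k (X e)) < t * (t * (N : ℝ) ^ 2) := by
        calc _ < t ^ 2 * (N : ℝ) ^ 2 := h
          _ = _ := by ring
      exact (lt_of_mul_lt_mul_left h2 ht.le).le
    rw [abs_le]
    have k1 := key true
    have k2 := key false
    simp only [sg, if_true] at k1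
    simp only [sg] at k2
    constructor
    · have : (-1 : ℝ) * ∑ e ∈ S' ×ˢ S, ψ k (X e) ≤ t * (N : ℝ) ^ 2 := by simpa using k2
      linarith
    · linarith
  · intro k σ σ' ς ς'
    have key : ∀ ς : Fin N → Bool, (∑ e : Fin N × Fin N, if (σ e.1, σ' e.2) = e then 0 else
      sg (ς e.1) * sg (ς' e.2) * φ k (X e) * φ k (X (σ e.1, σ' e.2))) ≤ t * (N : ℝ) ^ 2 := by
      intro ς
      have h := hX (Sum.inr (Sum.inr (k, σ, σ', ς, ς')))
      simp only [f, f3, u, Sum.elim_inr] at h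
      have h2 : t / 16 * (∑ e : Fin N × Fin N, if (σ e.1, σ' e.2) = e then 0 else
          sg (ς e.1) * sg (ς' e.2) * φ k (X e) * φ k (X (σ e.1, σ' e.2)))
            < t / 16 * (t * (N : ℝ) ^ 2) := by
        calc _ < t ^ 2 * (N : ℝ) ^ 2 / 16 := h
          _ = _ := by ring
      exact (lt_of_mul_lt_mul_left h2 (by positivity)).le
    rw [abs_le]
    constructor
    · have h := key (fun m => !(ς m))
      have h1 : (∑ e : Fin N × Fin N, if (σ e.1, σ' e.2) = e then 0 else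
          sg (!(ς e.1)) * sg (ς' e.2) * φ k (X e) * φ k (X (σ e.1, σ' e.2)))
          = -(∑ e : Fin N × Fin N, if (σ e.1, σ' e.2) = e then 0 else
          sg (ς e.1) * sg (ς' e.2) * φ k (X e) * φ k (X (σ e.1, σ' e.2))) := by
        rw [← Finset.sum_neg_distrib]
        refine Finset.sum_congr rfl fun e _ => ?_
        rw [sg_not]
        split_ifs <;> ring
      rw [h1] at h
      linarith
    · exact key ς

end Pool.Agent.MP_119be6_an
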