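import Pool.Agent.Lib.MP_119be6_an.RegBound

/-!
Operators with bounded sums of pieces map order intervals to order bounded sets.
-/

namespace Pool.Agent.MP_119be6_an

open MeasureTheory Filter Topology
open scoped ENNReal

section

variable {Ω : Type} [MeasurableSpace Ω] {μ : Measure Ω} {p q : ℝ≥0∞}

/-- monotone norm bounded sequences are order bounded -/
theorem exists_upper [Fact (1 ≤ q)] (hq1 : q ≠ ∞) (M : ℕ → Lp ℝ q μ) (hM : Monotone M)
    (h0 : ∀ k, 0 ≤ M k) (C : ℝ) (hC : ∀ k, ‖M k‖ ≤ C) : ∃ G : Lp ℝ q μ, ∀ k, M k ≤ G := by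
  have hq0 : q ≠ 0 := (lt_of_lt_of_le one_pos (Fact.out : 1 ≤ q)).ne'
  have hQ : 0 < q.toReal := ENNReal.toReal_pos hq0 hq1
  set Q := q.toReal with hQdef
  set Ψ : Ω → ℝ≥0∞ := fun x => ⨆ k, ENNReal.ofReal (|M k x| ^ Q) with hΨ
  have hm : ∀ k, Measurable fun x => ENNReal.ofReal (|M k x| ^ Q) := fun k =>
    ((Lp.stronglyMeasurable (M k)).measurable.abs.pow_const _).ennreal_ofReal
  have hΨm : Measurable Ψ := Measurable.iSup hm
  have hnn : ∀ᵐ x ∂μ, ∀ k, 0 ≤ M k x := ae_all_iff.2 fun k => (Lp.coeFn_nonneg (M k)).2 (h0 k)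
  have hint : ∫⁻ x, Ψ x ∂μ = ⨆ k, ∫⁻ x, ENNReal.ofReal (|M k x| ^ Q) ∂μ := by
    refine lintegral_iSup_ae hm fun k => ?_
    filter_upwards [hnn, (Lp.coeFn_le (M k) (M (k + 1))).2 (hM (Nat.le_succ k))] with x h1 h2
    refine ENNReal.ofReal_le_ofReal (Real.rpow_le_rpow (abs_nonneg _) ?_ hQ.le)
    rw [abs_of_nonneg (h1 k), abs_of_nonneg (h1 (Nat.succ k))]
    exact h2
  have hfin : ∫⁻ x, Ψ x ∂μ ≠ ∞ := by
    rw [hint]
    refine ne_top_of_le_ne_top (ENNReal.ofReal_ne_top (r := C ^ Q)) (iSup_le fun k => ?_)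
    rw [← ofReal_integral_eq_lintegral_ofReal (lp_integrable_rpow hq0 hq1 (M k))
      (Eventually.of_forall fun x => by positivity), ← lp_norm_rpow hq0 hq1]
    exact ENNReal.ofReal_le_ofReal (Real.rpow_le_rpow (norm_nonneg _) (hC k) hQ.le)
  have hΨint : Integrable (fun x => (Ψ x).toReal) μ :=
    integrable_toReal_of_lintegral_ne_top hΨm.aemeasurable hfin
  have hlt : ∀ᵐ x ∂μ, Ψ x < ∞ := ae_lt_top hΨm hfin
  set g : Ω → ℝ := fun x => (Ψ x).toReal ^ (1 / Q) with hg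
  have hgm : AEStronglyMeasurable g μ := (hΨm.ennreal_toReal.pow_const _).aestronglyMeasurable
  have hgmem : MemLp g q μ := by
    rw [← integrable_norm_rpow_iff hgm hq0 hq1]
    refine hΨint.congr (Eventually.of_forall fun x => ?_)
    simp only [hg]
    rw [Real.norm_eq_abs, abs_of_nonneg (by positivity), ← Real.rpow_mul ENNReal.toReal_nonneg,
      ← hQdef, one_div_mul_cancel hQ.ne', Real.rpow_one]
  refine ⟨hgmem.toLp g, fun k => (Lp.coeFn_le _ _).1 ?_⟩
  filter_upwards [hgmem.coeFn_toLp, hlt, hnn] with x h1 h2 h3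
  rw [h1]
  have h4 : ENNReal.ofReal (|M k x| ^ Q) ≤ Ψ x := le_iSup (fun k => ENNReal.ofReal (|M k x| ^ Q)) k
  have h5 : |M k x| ^ Q ≤ (Ψ x).toReal := (ENNReal.ofReal_le_iff_le_toReal h2.ne).1 h4
  have h6 := Real.rpow_le_rpow (by positivity) h5 (show 0 ≤ 1 / Q by positivity)
  rw [← Real.rpow_mul (abs_nonneg _), mul_one_div_cancel hQ.ne', Real.rpow_one,
    abs_of_nonneg (h3 k)] at h6
  exact h6

lemma abs_smul_le (a : ℝ) (ha : |a| ≤ 1) (u : Lp ℝ q μ) : |a • u| ≤ |u| := by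
  refine (Lp.coeFn_le _ _).1 ?_
  filter_upwards [Lp.coeFn_abs (a • u), Lp.coeFn_abs u, Lp.coeFn_smul a u] with x h1 h2 h3
  rw [h1, h2, h3, Pi.smul_apply, smul_eq_mul, abs_mul]
  have := mul_le_mul_of_nonneg_right ha (abs_nonneg (u x))
  linarith

lemma abs_add_le_lp (u v : Lp ℝ q μ) : |u + v| ≤ |u| + |v| := by
  refine (Lp.coeFn_le _ _).1 ?_
  filter_upwards [Lp.coeFn_abs (u + v), Lp.coeFn_abs u, Lp.coeFn_abs v, Lp.coeFn_add u v,
    Lp.coeFn_add |u| |v|] with x h1 h2 h3 h4 h5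
  rw [h1, h4, h5, Pi.add_apply, Pi.add_apply, h2, h3]
  exact abs_add_le _ _

lemma abs_sum_le_lp {ι : Type*} (s : Finset ι) (u : ι → Lp ℝ q μ) :
    |∑ v ∈ s, u v| ≤ ∑ v ∈ s, |u v| := by
  classical
  induction s using Finset.induction_on with
  | empty => simp
  | insert a s ha ih =>
    rw [Finset.sum_insert ha, Finset.sum_insert ha]
    exact (abs_add_le_lp _ _).trans (add_le_add (le_refl _) ih)

variable [Fact (1 ≤ p)] [Fact (1 ≤ q)]

/-- quantisation of finitely many elements of an order interval -/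
theorem quantise (f : Lp ℝ p μ) (h : ℕ → Lp ℝ p μ) (hh : ∀ i, |h i| ≤ f) (k n : ℕ)
    (hn : 1 ≤ n) :
    ∃ (ι : Type) (_ : Fintype ι) (κ : Ω → ι) (hκ : ∀ v, MeasurableSet (κ ⁻¹' {v}))
      (g : ℕ → ι → ℝ), (∀ i v, |g i v| ≤ 1) ∧
      ∀ i ≤ k, |h i - ∑ v, g i v • pc hκ v f| ≤ |(1 / (n : ℝ)) • f| := by
  classical
  have hn0 : (0 : ℝ) < n := by exact_mod_cast hn
  set c : ℕ → Ω → ℤ := fun i x => max (-(n : ℤ)) (min n ⌊(n : ℝ) * (h i x / f x)⌋) with hc
  have hcmem : ∀ i x, c i x ∈ Finset.Icc (-(n : ℤ)) n := by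
    intro i x
    rw [Finset.mem_Icc]
    simp only [hc]
    omega
  have hcm : ∀ i, Measurable (c i) := by
    intro i
    have h1 : Measurable fun x => (n : ℝ) * (h i x / f x) :=
      ((Lp.stronglyMeasurable (h i)).measurable.div
        (Lp.stronglyMeasurable f).measurable).const_mul _
    exact measurable_const.max (measurable_const.min (Int.measurable_floor.comp h1))
  refine ⟨Fin (k + 1) → Finset.Icc (-(n : ℤ)) n, inferInstance, fun x i => ⟨c i x, hcmem i x⟩,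
    ?_, fun i v => if hi : i < k + 1 then (((v ⟨i, hi⟩ : ℤ) : ℝ)) / n else 0, ?_, ?_⟩
  · intro v
    have h1 : (fun (x : Ω) (i : Fin (k + 1)) => (⟨c i x, hcmem i x⟩ : Finset.Icc (-(n : ℤ)) n))
        ⁻¹' {v} = ⋂ i : Fin (k + 1), (c i) ⁻¹' {(v i : ℤ)} := by
      ext x
      simp only [Set.mem_preimage, Set.mem_singleton_iff, Set.mem_iInter, funext_iff,
        Subtype.ext_iff]
    rw [h1]
    exact MeasurableSet.iInter fun i => hcm i (measurableSet_singleton _)
  · intro i v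
    show |if hi : i < k + 1 then (((v ⟨i, hi⟩ : ℤ) : ℝ)) / n else 0| ≤ 1
    split_ifs with hi
    · rw [abs_div, abs_of_pos hn0, div_le_one hn0]
      have h1 := Finset.mem_Icc.1 (v ⟨i, hi⟩).2
      rw [abs_le]
      constructor
      · have : (-(n : ℤ) : ℤ) ≤ (v ⟨i, hi⟩ : ℤ) := h1.1
        exact_mod_cast this
      · exact_mod_cast h1.2
    · simp
  · intro i hi
    have hi' : i < k + 1 := Nat.lt_succ_of_le hi
    refine (Lp.coeFn_le _ _).1 ?_
    set κ : Ω → (Fin (k + 1) → Finset.Icc (-(n : ℤ)) n) := fun x i => ⟨c i x, hcmem i x⟩ with hκ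
    have hκm : ∀ v, MeasurableSet (κ ⁻¹' {v}) := by
      intro v
      have h1 : κ ⁻¹' {v} = ⋂ i : Fin (k + 1), (c i) ⁻¹' {(v i : ℤ)} := by
        ext x
        simp only [hκ, Set.mem_preimage, Set.mem_singleton_iff, Set.mem_iInter, funext_iff,
          Subtype.ext_iff]
      rw [h1]
      exact MeasurableSet.iInter fun i => hcm i (measurableSet_singleton _)
    set w : (Fin (k + 1) → Finset.Icc (-(n : ℤ)) n) → ℝ :=
      fun v => if hi : i < k + 1 then (((v ⟨i, hi⟩ : ℤ) : ℝ)) / n else 0 with hw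
    filter_upwards [Lp.coeFn_abs (h i - ∑ v, w v • pc hκm v f),
      Lp.coeFn_sub (h i) (∑ v, w v • pc hκm v f), sum_pc_ae hκm f w,
      Lp.coeFn_abs ((1 / (n : ℝ)) • f), Lp.coeFn_smul (1 / (n : ℝ)) f,
      (Lp.coeFn_le |h i| f).2 (hh i), Lp.coeFn_abs (h i)] with x h1 h2 h3 h4 h5 h6 h7
    rw [h1, h2, Pi.sub_apply, h3, h4, h5, Pi.smul_apply, smul_eq_mul]
    rw [h7] at h6
    have hwx : w (κ x) = (c i x : ℝ) / n := by
      simp only [hw, hκ, hi', dif_pos]
    rw [hwx]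
    rcases (abs_nonneg (h i x)).trans h6 |>.eq_or_lt with hf | hf
    · have h8 : h i x = 0 := by
        rw [← hf] at h6
        exact abs_eq_zero.1 (le_antisymm h6 (abs_nonneg _))
      rw [h8, ← hf]; simp
    · set ρ := h i x / f x with hρ
      have hρ1 : |ρ| ≤ 1 := by
        rw [hρ, abs_div, abs_of_pos hf, div_le_one hf]; exact h6
      have h8 : h i x = ρ * f x := by rw [hρ]; field_simp
      have h9 : c i x = ⌊(n : ℝ) * ρ⌋ := by
        have e1 : ⌊(n : ℝ) * ρ⌋ ≤ (n : ℤ) := by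
          have : (⌊(n : ℝ) * ρ⌋ : ℝ) ≤ n := by
            refine (Int.floor_le _).trans ?_
            have := mul_le_mul_of_nonneg_left (abs_le.1 hρ1).2 hn0.le
            linarith
          exact_mod_cast this
        have e2 : -(n : ℤ) ≤ ⌊(n : ℝ) * ρ⌋ := by
          refine Int.le_floor.2 ?_
          push_cast
          have := mul_le_mul_of_nonneg_left (abs_le.1 hρ1).1 hn0.le
          linarith
        simp only [hc]
        rw [← hρ, min_eq_right e1, max_eq_right e2]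
      have h10 : |ρ - (c i x : ℝ) / n| ≤ 1 / n := by
        rw [h9]
        have e1 := Int.floor_le ((n : ℝ) * ρ)
        have e2 := Int.lt_floor_add_one ((n : ℝ) * ρ)
        have e3 : ρ - (⌊(n : ℝ) * ρ⌋ : ℝ) / n = ((n : ℝ) * ρ - ⌊(n : ℝ) * ρ⌋) / n := by
          field_simp
        rw [e3, abs_div, abs_of_pos hn0, abs_of_nonneg (by linarith)]
        exact div_le_div_of_nonneg_right (by linarith) hn0.le
      calc |h i x - (c i x : ℝ) / n * f x| = |ρ - (c i x : ℝ) / n| * f x := by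
            rw [h8, ← sub_mul, abs_mul, abs_of_pos hf]
        _ ≤ 1 / n * f x := mul_le_mul_of_nonneg_right h10 hf.le
        _ ≤ |1 / (n : ℝ) * f x| := le_abs_self _

variable [p.HolderConjugate q]

theorem finite_max (S : Lp ℝ p μ →L[ℝ] Lp ℝ q μ) (C : ℝ) (hRB : RB S C) (f : Lp ℝ p μ)
    (h : ℕ → Lp ℝ p μ) (hh : ∀ i, |h i| ≤ f) (k : ℕ) :
    ‖partialSups (fun i => |S (h i)|) k‖ ≤ C * ‖f‖ := by
  have hM0 : 0 ≤ partialSups (fun i => |S (h i)|) k :=
    (abs_nonneg (S (h k))).trans (le_partialSups (fun i => |S (h i)|) k)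
  have key : ∀ n : ℕ, 1 ≤ n → ‖partialSups (fun i => |S (h i)|) k‖
      ≤ C * ‖f‖ + ((k : ℝ) + 1) * (‖S‖ * ‖f‖) * (1 / n) := by
    intro n hn
    have hn0 : (0 : ℝ) < n := by exact_mod_cast hn
    obtain ⟨ι, _, κ, hκ, g, hg, hq⟩ := quantise f h hh k n hn
    set G : Lp ℝ q μ := ∑ v, |S (pc hκ v f)| with hG
    set E : Lp ℝ q μ := ∑ i ∈ Finset.range (k + 1), |S (h i - ∑ v, g i v • pc hκ v f)| with hE
    have h1 : partialSups (fun i => |S (h i)|) k ≤ G + E := by
      refine partialSups_le _ _ _ fun i hi => ?_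
      have e1 : S (h i) = ∑ v, g i v • S (pc hκ v f) + S (h i - ∑ v, g i v • pc hκ v f) := by
        rw [map_sub, map_sum]
        simp only [map_smul]
        abel
      show |S (h i)| ≤ G + E
      rw [e1]
      refine (abs_add_le_lp _ _).trans (add_le_add ?_ ?_)
      · refine (abs_sum_le_lp _ _).trans (Finset.sum_le_sum fun v _ => abs_smul_le _ (hg i v) _)
      · exact Finset.single_le_sum (f := fun i => |S (h i - ∑ v, g i v • pc hκ v f)|)
          (fun i _ => abs_nonneg _) (Finset.mem_range.2 (Nat.lt_succ_of_le hi))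
    have h2 : ‖partialSups (fun i => |S (h i)|) k‖ ≤ ‖G + E‖ := by
      refine norm_le_norm_of_abs_le_abs ?_
      rw [abs_of_nonneg hM0, abs_of_nonneg (hM0.trans h1)]
      exact h1
    refine h2.trans ((norm_add_le _ _).trans (add_le_add (hRB ι κ hκ f) ?_))
    calc ‖E‖ ≤ ∑ i ∈ Finset.range (k + 1), ‖|S (h i - ∑ v, g i v • pc hκ v f)|‖ :=
          norm_sum_le _ _
      _ ≤ ∑ _i ∈ Finset.range (k + 1), ‖S‖ * (1 / n * ‖f‖) := by
          refine Finset.sum_le_sum fun i hi => ?_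
          rw [norm_abs_eq_norm]
          refine (S.le_opNorm _).trans (mul_le_mul_of_nonneg_left ?_ (norm_nonneg _))
          have e1 := norm_le_norm_of_abs_le_abs (hq i (Nat.lt_succ_iff.1 (Finset.mem_range.1 hi)))
          rw [norm_smul, Real.norm_eq_abs, abs_of_pos (by positivity)] at e1
          exact e1
      _ = ((k : ℝ) + 1) * (‖S‖ * ‖f‖) * (1 / n) := by
          rw [Finset.sum_const, Finset.card_range, nsmul_eq_mul]
          push_cast
          ring
  have hlim : Tendsto (fun n : ℕ => C * ‖f‖ + ((k : ℝ) + 1) * (‖S‖ * ‖f‖) * (1 / n)) atTop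
      (𝓝 (C * ‖f‖ + ((k : ℝ) + 1) * (‖S‖ * ‖f‖) * 0)) :=
    ((tendsto_const_div_atTop_nhds_zero_nat 1).const_mul _).const_add _
  rw [mul_zero, add_zero] at hlim
  exact ge_of_tendsto hlim ((eventually_ge_atTop 1).mono fun n hn => key n hn)

theorem order_bounded [IsSeparable μ] (hp1 : p ≠ ∞) (hq1 : q ≠ ∞)
    (S : Lp ℝ p μ →L[ℝ] Lp ℝ q μ) (C : ℝ) (hRB : RB S C)
    (f : Lp ℝ p μ) (hf : 0 ≤ f) : ∃ G : Lp ℝ q μ, ∀ h : Lp ℝ p μ, |h| ≤ f → |S h| ≤ G := by
  haveI : Fact (p ≠ ∞) := ⟨hp1⟩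
  let A : Set (Lp ℝ p μ) := {h | |h| ≤ f}
  haveI : Nonempty A := ⟨⟨0, by show |(0 : Lp ℝ p μ)| ≤ f; simpa using hf⟩⟩
  let d : ℕ → A := TopologicalSpace.denseSeq A
  have hd : DenseRange d := TopologicalSpace.denseRange_denseSeq A
  set M : ℕ → Lp ℝ q μ := fun k => partialSups (fun i => |S (d i)|) k with hM
  have hM0 : ∀ k, 0 ≤ M k := fun k =>
    (abs_nonneg (S (d k))).trans (le_partialSups (fun i => |S (d i)|) k)
  obtain ⟨G, hG⟩ := exists_upper hq1 M (partialSups_monotone _) hM0 (C * ‖f‖)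
    (fun k => finite_max S C hRB f (fun i => (d i : Lp ℝ p μ)) (fun i => (d i).2) k)
  refine ⟨G, fun h hh => ?_⟩
  have hcl : IsClosed {x : A | |S x| ≤ G} := by
    refine isClosed_le ?_ continuous_const
    have h1 : Continuous fun x : A => S (x : Lp ℝ p μ) := S.continuous.comp continuous_subtype_val
    exact h1.sup h1.neg
  have h2 : ∀ x : A, |S x| ≤ G := by
    intro x
    refine hd.induction_on (p := fun x : A => |S x| ≤ G) x hcl fun i => ?_
    exact (le_partialSups (fun i => |S (d i)|) i).trans (hG i)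
  exact h2 ⟨h, hh⟩

end

end Pool.Agent.MP_119be6_an
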