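import Pool.Agent.Lib.MP_119be6_an.Key
import Pool.Agent.Lib.MP_119be6_an.Regular

/-!
Construction of the operator.
-/

namespace Pool.Agent.MP_119be6_an

open MeasureTheory Filter Topology
open scoped ENNReal

section

variable {Ω : Type} [MeasurableSpace Ω] {μ : Measure Ω} {A : ℕ → Set Ω}

/-- normalised indicator functions in `L^r` -/
noncomputable def en (r : ℝ≥0∞) (hA : ∀ k, MeasurableSet (A k)) (hf : ∀ k, μ (A k) ≠ ∞) (k : ℕ) :
    Lp ℝ r μ := (μ.real (A k)) ^ (-(1 / r.toReal)) • indicatorConstLp r (hA k) (hf k) (1 : ℝ)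

variable {r : ℝ≥0∞} (hA : ∀ k, MeasurableSet (A k)) (hf : ∀ k, μ (A k) ≠ ∞)

lemma en_ae (k : ℕ) : en r hA hf k =ᵐ[μ]
    fun x => (μ.real (A k)) ^ (-(1 / r.toReal)) * (A k).indicator (fun _ => (1 : ℝ)) x := by
  unfold en
  filter_upwards [Lp.coeFn_smul ((μ.real (A k)) ^ (-(1 / r.toReal)))
    (indicatorConstLp r (hA k) (hf k) (1 : ℝ)), indicatorConstLp_coeFn (p := r) (hs := hA k)
      (hμs := hf k) (c := (1 : ℝ))] with x h1 h2
  rw [h1, Pi.smul_apply, h2, smul_eq_mul]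

omit hA in
lemma real_pos (hf' : ∀ k, μ (A k) ≠ ∞) (hp : ∀ k, μ (A k) ≠ 0) (k : ℕ) : 0 < μ.real (A k) :=
  ENNReal.toReal_pos (hp k) (hf' k)

variable {hA hf}

lemma norm_en [Fact (1 ≤ r)] (hr1 : r ≠ ∞) (hp : ∀ k, μ (A k) ≠ 0) (k : ℕ) :
    ‖en r hA hf k‖ = 1 := by
  have hr0 : r ≠ 0 := (lt_of_lt_of_le one_pos (Fact.out : 1 ≤ r)).ne'
  have h1 := real_pos hf hp k
  unfold en
  rw [norm_smul, norm_indicatorConstLp hr0 hr1, Real.norm_eq_abs, abs_of_pos (by positivity),
    norm_one, one_mul, ← Real.rpow_add h1]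
  simp

lemma norm_sum_en [Fact (1 ≤ r)] (hr1 : r ≠ ∞) (hp : ∀ k, μ (A k) ≠ 0)
    (hd : Pairwise fun i j => Disjoint (A i) (A j)) {N : ℕ} (σ : Fin N → ℕ)
    (hσ : Function.Injective σ) (c : Fin N → ℝ) :
    ‖∑ m, c m • en r hA hf (σ m)‖ ^ r.toReal = ∑ m, |c m| ^ r.toReal := by
  classical
  have hr0 : r ≠ 0 := (lt_of_lt_of_le one_pos (Fact.out : 1 ≤ r)).ne'
  have hR : 0 < r.toReal := ENNReal.toReal_pos hr0 hr1
  have h1 : ∑ m, |c m| ^ r.toReal = ∑ m, |c m| ^ r.toReal * ‖en r hA hf (σ m)‖ ^ r.toReal := by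
    refine Finset.sum_congr rfl fun m _ => ?_
    rw [norm_en hr1 hp, Real.one_rpow, mul_one]
  rw [h1, lp_norm_rpow hr0 hr1]
  simp only [lp_norm_rpow hr0 hr1 (en r hA hf _), ← integral_const_mul]
  rw [← integral_finset_sum _ (fun v _ => (lp_integrable_rpow hr0 hr1 _).const_mul _)]
  refine integral_congr_ae ?_
  have h2 : ∀ᵐ x ∂μ, ∀ m, en r hA hf (σ m) x
      = (μ.real (A (σ m))) ^ (-(1 / r.toReal)) * (A (σ m)).indicator (fun _ => (1 : ℝ)) x :=
    ae_all_iff.2 fun m => en_ae hA hf (σ m)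
  have h3 : ∀ s : Finset (Fin N), (∑ m ∈ s, c m • en r hA hf (σ m) : Lp ℝ r μ) =ᵐ[μ]
      fun x => ∑ m ∈ s, c m * en r hA hf (σ m) x := by
    intro s
    induction s using Finset.induction_on with
    | empty =>
      simp only [Finset.sum_empty]
      exact Lp.coeFn_zero _ _ _
    | insert a s ha ih =>
      rw [Finset.sum_insert ha]
      filter_upwards [Lp.coeFn_add (c a • en r hA hf (σ a)) (∑ v ∈ s, c v • en r hA hf (σ v)), ih,
        Lp.coeFn_smul (c a) (en r hA hf (σ a))] with x h1 h2 h3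
      rw [h1, Pi.add_apply, h2, h3, Pi.smul_apply, Finset.sum_insert ha, smul_eq_mul]
  filter_upwards [h2, h3 Finset.univ] with x h4 h5
  rw [h5]
  by_cases hx : ∃ m, x ∈ A (σ m)
  · obtain ⟨m, hm⟩ := hx
    have h6 : ∀ b, b ≠ m → en r hA hf (σ b) x = 0 := by
      intro b hb
      rw [h4, Set.indicator_of_notMem, mul_zero]
      intro hxb
      exact Set.disjoint_left.1 (hd (fun h => hb (hσ h))) hxb hm
    rw [Finset.sum_eq_single m, Finset.sum_eq_single m, abs_mul,
      Real.mul_rpow (abs_nonneg _) (abs_nonneg _)]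
    · intro b _ hb
      rw [h6 b hb, abs_zero, Real.zero_rpow hR.ne', mul_zero]
    · intro h; exact absurd (Finset.mem_univ _) h
    · intro b _ hb
      rw [h6 b hb, mul_zero]
    · intro h; exact absurd (Finset.mem_univ _) h
  · push Not at hx
    have h6 : ∀ b, en r hA hf (σ b) x = 0 := by
      intro b
      rw [h4, Set.indicator_of_notMem (hx b), mul_zero]
    simp [h6, Real.zero_rpow hR.ne']

variable {p q : ℝ≥0∞} [Fact (1 ≤ p)] [Fact (1 ≤ q)] [p.HolderConjugate q]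

lemma pr_en (hp1 : p ≠ ∞) (hq1 : q ≠ ∞) (hp : ∀ k, μ (A k) ≠ 0)
    (hd : Pairwise fun i j => Disjoint (A i) (A j)) (k j : ℕ) :
    pr μ p q (en p hA hf k) (en q hA hf j) = if k = j then 1 else 0 := by
  have hPQ : p.toReal.HolderConjugate q.toReal := ENNReal.HolderConjugate.toReal_of_ne_top hp1 hq1
  rw [pr_apply]
  by_cases h : k = j
  · subst h
    rw [if_pos rfl]
    have h1 := real_pos hf hp k
    have h2 : ∫ x, en p hA hf k x * en q hA hf k x ∂μ
        = ∫ x, (A k).indicator (fun _ => (μ.real (A k)) ^ (-1 : ℝ)) x ∂μ := by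
      refine integral_congr_ae ?_
      filter_upwards [en_ae (r := p) hA hf k, en_ae (r := q) hA hf k] with x h3 h4
      rw [h3, h4]
      by_cases hx : x ∈ A k
      · simp only [Set.indicator_of_mem hx, mul_one]
        rw [← Real.rpow_add h1]
        congr 1
        have := hPQ.inv_add_inv_eq_one
        rw [one_div, one_div]
        linarith
      · simp only [Set.indicator_of_notMem hx, mul_zero]
    rw [h2, integral_indicator (hA k), setIntegral_const, smul_eq_mul, Real.rpow_neg_one,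
      mul_inv_cancel₀ h1.ne']
  · rw [if_neg h]
    have h2 : ∫ x, en p hA hf k x * en q hA hf j x ∂μ = ∫ _x, (0 : ℝ) ∂μ := by
      refine integral_congr_ae ?_
      filter_upwards [en_ae (r := p) hA hf k, en_ae (r := q) hA hf j] with x h3 h4
      rw [h3, h4]
      by_cases hx : x ∈ A k
      · have hx' : x ∉ A j := fun h' => Set.disjoint_left.1 (hd h) hx h'
        simp only [Set.indicator_of_notMem hx', mul_zero]
      · simp only [Set.indicator_of_notMem hx, mul_zero, zero_mul]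
    rw [h2, integral_zero]

end

lemma goodMatrix_smul {Q ε : ℝ} {N : ℕ} {T : Fin N → Fin N → ℝ} (h : GoodMatrix Q ε T) {a : ℝ}
    (ha : 0 ≤ a) : GoodMatrix Q (a * ε) (fun m l => a * T m l) := by
  intro I J _ _ μ ν x y hμ hν hμ1 hν1 hx hy
  have h1 := h I J μ ν x y hμ hν hμ1 hν1 hx hy
  calc ∑ i, ∑ j, μ i * ν j * |∑ m, ∑ l, a * T m l * x i m * y j l|
      = a * ∑ i, ∑ j, μ i * ν j * |∑ m, ∑ l, T m l * x i m * y j l| := by
        rw [Finset.mul_sum]
        refine Finset.sum_congr rfl fun i _ => ?_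
        rw [Finset.mul_sum]
        refine Finset.sum_congr rfl fun j _ => ?_
        have : ∑ m, ∑ l, a * T m l * x i m * y j l
            = a * ∑ m, ∑ l, T m l * x i m * y j l := by
          rw [Finset.mul_sum]
          refine Finset.sum_congr rfl fun m _ => ?_
          rw [Finset.mul_sum]
          exact Finset.sum_congr rfl fun l _ => by ring
        rw [this, abs_mul, abs_of_nonneg ha]
        ring
    _ ≤ a * ε := mul_le_mul_of_nonneg_left h1 ha

lemma exists_good {Q : ℝ} (hQ1 : 1 < Q) (hQ2 : Q < 2) (n : ℕ) :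
    ∃ N : ℕ, ∃ T : Fin N → Fin N → ℝ, GoodMatrix Q ((1 / 2) ^ n) T ∧
      (n : ℝ) ≤ ∑ l, ∑ m, |T m l| ^ Q := by
  set a : ℝ := (2 * n + 1) ^ (1 / Q) with ha
  have ha0 : 0 < a := by positivity
  have haQ : a ^ Q = 2 * n + 1 := by
    rw [ha, ← Real.rpow_mul (by positivity), one_div_mul_cancel (by linarith), Real.rpow_one]
  obtain ⟨N, -, T, hT1, hT2⟩ := key_finite hQ1 hQ2 (show 0 < (1 / 2 : ℝ) ^ n / a by positivity)
  refine ⟨N, fun m l => a * T m l, ?_, ?_⟩
  · have h := goodMatrix_smul (Q := Q) (T := T) hT2 ha0.le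
    have e1 : a * ((1 / 2) ^ n / a) = (1 / 2) ^ n := by field_simp
    rwa [e1] at h
  · have h1 : ∑ l, ∑ m, |a * T m l| ^ Q = (2 * n + 1) * ∑ m, ∑ l, |T m l| ^ Q := by
      rw [Finset.sum_comm, Finset.mul_sum]
      refine Finset.sum_congr rfl fun m _ => ?_
      rw [Finset.mul_sum]
      refine Finset.sum_congr rfl fun l _ => ?_
      rw [abs_mul, Real.mul_rpow (abs_nonneg _) (abs_nonneg _), abs_of_pos ha0, haQ]
    rw [h1]
    have h2 := mul_le_mul_of_nonneg_left hT1 (show (0 : ℝ) ≤ 2 * n + 1 by positivity)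
    linarith

section

variable {Ω : Type} [MeasurableSpace Ω] {μ : Measure Ω}
variable {p q : ℝ≥0∞} [Fact (1 ≤ p)] [Fact (1 ≤ q)] [p.HolderConjugate q]

lemma RB.add {S S' : Lp ℝ p μ →L[ℝ] Lp ℝ q μ} {C C' : ℝ} (h : RB S C) (h' : RB S' C') :
    RB (S + S') (C + C') := by
  intro ι _ κ hκ f
  have h1 : ∑ v, |(S + S') (pc hκ v f)| ≤ ∑ v, |S (pc hκ v f)| + ∑ v, |S' (pc hκ v f)| := by
    rw [← Finset.sum_add_distrib]
    refine Finset.sum_le_sum fun v _ => ?_
    rw [ContinuousLinearMap.add_apply]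
    exact abs_add_le_lp _ _
  have h2 : ‖∑ v, |(S + S') (pc hκ v f)|‖
      ≤ ‖∑ v, |S (pc hκ v f)| + ∑ v, |S' (pc hκ v f)|‖ := by
    refine norm_le_norm_of_abs_le_abs ?_
    have h3 : 0 ≤ ∑ v, |(S + S') (pc hκ v f)| := Finset.sum_nonneg fun v _ => abs_nonneg _
    rw [abs_of_nonneg h3, abs_of_nonneg (h3.trans h1)]
    exact h1
  refine h2.trans ((norm_add_le _ _).trans ?_)
  rw [add_mul]
  exact add_le_add (h ι κ hκ f) (h' ι κ hκ f)

lemma RB.mono {S : Lp ℝ p μ →L[ℝ] Lp ℝ q μ} {C C' : ℝ} (h : RB S C) (hC : C ≤ C') : RB S C' :=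
  fun ι _ κ hκ f => (h ι κ hκ f).trans (mul_le_mul_of_nonneg_right hC (norm_nonneg _))

lemma RB.limit {S : Lp ℝ p μ →L[ℝ] Lp ℝ q μ} {Sn : ℕ → Lp ℝ p μ →L[ℝ] Lp ℝ q μ} {C : ℝ}
    (h : ∀ n, RB (Sn n) C) (hl : ∀ f, Tendsto (fun n => Sn n f) atTop (𝓝 (S f))) : RB S C := by
  intro ι _ κ hκ f
  have h1 : Tendsto (fun n => ‖∑ v, |Sn n (pc hκ v f)|‖) atTop
      (𝓝 ‖∑ v, |S (pc hκ v f)|‖) := by
    refine (tendsto_finsetSum _ fun v _ => ?_).norm
    have h2 := hl (pc hκ v f)
    exact h2.sup_nhds h2.neg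
  exact le_of_tendsto' h1 fun n => h n ι κ hκ f

lemma RB.norm_le {S : Lp ℝ p μ →L[ℝ] Lp ℝ q μ} {C : ℝ} (h : RB S C) (f : Lp ℝ p μ) :
    ‖S f‖ ≤ C * ‖f‖ := by
  have hκ : ∀ v : Unit, MeasurableSet ((fun _ : Ω => ()) ⁻¹' {v}) := fun v => by
    simp
  have h1 := h Unit (fun _ => ()) hκ f
  have h2 := sum_pc hκ f
  simp only [Finset.univ_unique, Finset.sum_singleton] at h1 h2
  rw [h2, norm_abs_eq_norm] at h1
  exact h1

end

section

variable {Ω : Type} [MeasurableSpace Ω] {μ : Measure Ω} {A : ℕ → Set Ω}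
  (hA : ∀ k, MeasurableSet (A k)) (hf : ∀ k, μ (A k) ≠ ∞)
variable (p q : ℝ≥0∞) [Fact (1 ≤ p)] [Fact (1 ≤ q)] [p.HolderConjugate q]

/-- the functional of integration against a normalised indicator function -/
noncomputable def fn (k : ℕ) : Lp ℝ p μ →L[ℝ] ℝ := (pr μ p q).flip (en q hA hf k)

/-- the operator of a matrix -/
noncomputable def Um {N : ℕ} (T : Fin N → Fin N → ℝ) (n : ℕ) : Lp ℝ p μ →L[ℝ] Lp ℝ q μ :=
  ∑ m : Fin N, ∑ l : Fin N, T m l •
    (fn hA hf p q (Nat.pair n l)).smulRight (en q hA hf m)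

variable {hA hf p q}

lemma fn_apply (k : ℕ) (h : Lp ℝ p μ) : fn hA hf p q k h = pr μ p q h (en q hA hf k) := rfl

lemma Um_apply {N : ℕ} (T : Fin N → Fin N → ℝ) (n : ℕ) (h : Lp ℝ p μ) :
    Um hA hf p q T n h
      = ∑ m : Fin N, ∑ l : Fin N, (T m l * fn hA hf p q (Nat.pair n l) h) • en q hA hf m := by
  unfold Um
  simp only [ContinuousLinearMap.sum_apply, ContinuousLinearMap.smul_apply,
    ContinuousLinearMap.smulRight_apply, smul_smul]

lemma rb_Um (hp1 : p ≠ ∞) (hq1 : q ≠ ∞) (hp : ∀ k, μ (A k) ≠ 0)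
    (hd : Pairwise fun i j => Disjoint (A i) (A j)) {N : ℕ} {T : Fin N → Fin N → ℝ} {ε : ℝ}
    (hε : 0 ≤ ε) (hT : GoodMatrix q.toReal ε T) (n : ℕ) (V : Lp ℝ p μ →L[ℝ] Lp ℝ p μ)
    (W : Lp ℝ q μ →L[ℝ] Lp ℝ q μ) :
    RB (W ∘L Um hA hf p q T n ∘L V) (ε * ((‖V‖ + 1) * (‖W‖ + 1))) := by
  have hPQ : p.toReal.HolderConjugate q.toReal := ENNReal.HolderConjugate.toReal_of_ne_top hp1 hq1
  have hQ1 : 1 < q.toReal := hPQ.symm.lt
  have hnorm : ∀ (σ : Fin N → ℕ) (_ : Function.Injective σ) (c : Fin N → ℝ),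
      ‖∑ m, c m • en q hA hf (σ m)‖ = (∑ m, |c m| ^ q.toReal) ^ (1 / q.toReal) := by
    intro σ hσ c
    rw [← norm_sum_en hq1 hp hd σ hσ c, ← Real.rpow_mul (norm_nonneg _),
      mul_one_div_cancel (by linarith), Real.rpow_one]
  refine rb_of_good hp1 hq1 (by positivity) (by positivity) hT hε
    (fun l => (fn hA hf p q (Nat.pair n l)) ∘L V) (fun m => W (en q hA hf m)) ?_ ?_ _ ?_
  · intro c h
    have h1 : ∑ l : Fin N, c l * ((fn hA hf p q (Nat.pair n l)) ∘L V) h
        = pr μ p q (V h) (∑ l : Fin N, c l • en q hA hf (Nat.pair n l)) := by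
      rw [map_sum]
      refine Finset.sum_congr rfl fun l _ => ?_
      rw [map_smul]; rfl
    rw [h1]
    refine (le_abs_self _).trans ((abs_pr_le _ _).trans ?_)
    rw [hnorm (fun l => Nat.pair n l) (fun a b hab => by
      have := (Nat.pair_eq_pair.1 hab).2
      exact Fin.ext this) c]
    have h2 : ‖V h‖ ≤ (‖V‖ + 1) * ‖h‖ := (V.le_opNorm h).trans
      (mul_le_mul_of_nonneg_right (by linarith) (norm_nonneg _))
    calc ‖V h‖ * (∑ l, |c l| ^ q.toReal) ^ (1 / q.toReal)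
        ≤ ((‖V‖ + 1) * ‖h‖) * (∑ l, |c l| ^ q.toReal) ^ (1 / q.toReal) :=
          mul_le_mul_of_nonneg_right h2 (by positivity)
      _ = _ := by ring
  · intro c
    have h1 : ∑ m : Fin N, c m • W (en q hA hf m) = W (∑ m : Fin N, c m • en q hA hf m) := by
      rw [map_sum]
      exact Finset.sum_congr rfl fun m _ => (map_smul W _ _).symm
    rw [h1]
    refine (W.le_opNorm _).trans ?_
    rw [hnorm (fun m => (m : ℕ)) Fin.val_injective c]
    exact mul_le_mul_of_nonneg_right (by linarith) (by positivity)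
  · intro h
    rw [ContinuousLinearMap.comp_apply, ContinuousLinearMap.comp_apply, Um_apply, map_sum]
    refine Finset.sum_congr rfl fun m _ => ?_
    rw [map_sum]
    refine Finset.sum_congr rfl fun l _ => ?_
    rw [map_smul]
    rfl

/-- the main construction on a general measure space -/
theorem main_abs (hp1 : p ≠ ∞) (hq1 : q ≠ ∞) (h2p : 2 < p) (hp : ∀ k, μ (A k) ≠ 0)
    (hd : Pairwise fun i j => Disjoint (A i) (A j)) (hA : ∀ k, MeasurableSet (A k))
    (hf : ∀ k, μ (A k) ≠ ∞) :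
    ∃ U : Lp ℝ p μ →L[ℝ] Lp ℝ q μ,
      (∀ (V : Lp ℝ p μ →L[ℝ] Lp ℝ p μ) (W : Lp ℝ q μ →L[ℝ] Lp ℝ q μ), ∃ C : ℝ,
        RB (W ∘L U ∘L V) C) ∧
      ∀ n : ℕ, ∃ (N : ℕ) (x : Fin N → Lp ℝ p μ),
        (∀ g : Lp ℝ q μ, ‖g‖ ≤ 1 → ∑ k, |pr μ p q (x k) g| ^ q.toReal ≤ 1) ∧
        (n : ℝ) ≤ ∑ k, ‖U (x k)‖ ^ q.toReal := by
  have hPQ : p.toReal.HolderConjugate q.toReal := ENNReal.HolderConjugate.toReal_of_ne_top hp1 hq1
  have hQ1 : 1 < q.toReal := hPQ.symm.lt
  have hP2 : 2 < p.toReal := by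
    have := (ENNReal.toReal_lt_toReal (by norm_num) hp1).2 h2p
    simpa using this
  have hQ2 : q.toReal < 2 := by
    have h1 := hPQ.inv_add_inv_eq_one
    have h2 : (p.toReal)⁻¹ < (2 : ℝ)⁻¹ := inv_strictAnti₀ (by norm_num) hP2
    have h3 : (2 : ℝ)⁻¹ < (q.toReal)⁻¹ := by
      have : (2 : ℝ)⁻¹ + (2 : ℝ)⁻¹ = 1 := by norm_num
      linarith
    exact (inv_lt_inv₀ (by norm_num) (by linarith)).1 h3
  choose N T hT hTn using fun n => exists_good hQ1 hQ2 n
  set Un : ℕ → Lp ℝ p μ →L[ℝ] Lp ℝ q μ := fun n => Um hA hf p q (T n) n with hUn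
  have hUnorm : ∀ n, ‖Un n‖ ≤ (1 / 2) ^ n * 4 := by
    intro n
    refine ContinuousLinearMap.opNorm_le_bound _ (by positivity) fun h => ?_
    have h1 := (rb_Um (A := A) (hA := hA) (hf := hf) hp1 hq1 hp hd (by positivity) (hT n) n
      (ContinuousLinearMap.id ℝ (Lp ℝ p μ)) (ContinuousLinearMap.id ℝ (Lp ℝ q μ))).norm_le h
    have h2 : ‖ContinuousLinearMap.id ℝ (Lp ℝ p μ)‖ ≤ 1 := ContinuousLinearMap.norm_id_le
    have h3 : ‖ContinuousLinearMap.id ℝ (Lp ℝ q μ)‖ ≤ 1 := ContinuousLinearMap.norm_id_le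
    refine h1.trans (mul_le_mul_of_nonneg_right (mul_le_mul_of_nonneg_left ?_ (by positivity))
      (norm_nonneg _))
    calc (‖ContinuousLinearMap.id ℝ (Lp ℝ p μ)‖ + 1) * (‖ContinuousLinearMap.id ℝ (Lp ℝ q μ)‖ + 1)
        ≤ (1 + 1) * (1 + 1) := mul_le_mul (by linarith) (by linarith) (by positivity)
          (by norm_num)
      _ = 4 := by norm_num
  have hsum : Summable Un := by
    refine Summable.of_norm_bounded ?_ hUnorm
    exact (summable_geometric_of_lt_one (by norm_num) (by norm_num)).mul_right 4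
  set U : Lp ℝ p μ →L[ℝ] Lp ℝ q μ := ∑' n, Un n with hU
  have hHS : HasSum Un U := hsum.hasSum
  have happ : ∀ h, HasSum (fun n => Un n h) (U h) := fun h =>
    hHS.mapL (ContinuousLinearMap.apply ℝ (Lp ℝ q μ) h)
  refine ⟨U, ?_, ?_⟩
  · intro V W
    refine ⟨2 * ((‖V‖ + 1) * (‖W‖ + 1)), ?_⟩
    have hpart : ∀ n, RB (W ∘L (∑ j ∈ Finset.range n, Un j) ∘L V)
        ((∑ j ∈ Finset.range n, (1 / 2 : ℝ) ^ j) * ((‖V‖ + 1) * (‖W‖ + 1))) := by
      intro n
      induction n with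
      | zero =>
        intro ι _ κ hκ f
        simp
      | succ n ih =>
        have h1 := rb_Um (A := A) (hA := hA) (hf := hf) hp1 hq1 hp hd (by positivity) (hT n) n V W
        have h2 := ih.add h1
        have e1 : W ∘L (∑ j ∈ Finset.range (n + 1), Un j) ∘L V
            = W ∘L (∑ j ∈ Finset.range n, Un j) ∘L V + W ∘L Um hA hf p q (T n) n ∘L V := by
          rw [Finset.sum_range_succ]
          ext1 h
          simp [hUn]
        rw [e1, Finset.sum_range_succ, add_mul]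
        exact h2
    refine RB.limit (Sn := fun n => W ∘L (∑ j ∈ Finset.range n, Un j) ∘L V)
      (fun n => (hpart n).mono ?_) fun h => ?_
    · refine mul_le_mul_of_nonneg_right ?_ (by positivity)
      have h1 : Summable fun j : ℕ => (1 / 2 : ℝ) ^ j :=
        summable_geometric_of_lt_one (by norm_num) (by norm_num)
      have h2 := h1.sum_le_tsum (Finset.range n) (fun j _ => by positivity)
      rw [tsum_geometric_of_lt_one (by norm_num) (by norm_num)] at h2
      linarith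
    · have h1 := (happ (V h)).tendsto_sum_nat
      have h2 := (W.continuous.tendsto _).comp h1
      refine h2.congr fun n => ?_
      simp [ContinuousLinearMap.sum_apply]
  · intro n
    refine ⟨N n, fun l => en p hA hf (Nat.pair n l), ?_, ?_⟩
    · intro g hg
      have h1 := fin_dual hPQ (fun _ : Fin (N n) => (1 : ℝ))
        (fun l : Fin (N n) => pr μ p q (en p hA hf (Nat.pair n l)) g) (fun _ => zero_le_one)
        1 zero_le_one (by
          intro d
          have e1 : ∑ l : Fin (N n), d l * pr μ p q (en p hA hf (Nat.pair n l)) g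
              = pr μ p q (∑ l : Fin (N n), d l • en p hA hf (Nat.pair n l)) g := by
            rw [map_sum]
            simp [ContinuousLinearMap.sum_apply]
          have e2 : ‖∑ l : Fin (N n), d l • en p hA hf (Nat.pair n l)‖
              = (∑ l, |d l| ^ p.toReal) ^ (1 / p.toReal) := by
            have hP : 1 < p.toReal := hPQ.lt
            rw [← norm_sum_en hp1 hp hd (fun l : Fin (N n) => Nat.pair n l) (fun a b hab => by
              have := (Nat.pair_eq_pair.1 hab).2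
              exact Fin.ext this) d, ← Real.rpow_mul (norm_nonneg _),
              mul_one_div_cancel (by linarith), Real.rpow_one]
          rw [e1]
          refine (le_abs_self _).trans ((abs_pr_le _ _).trans ?_)
          rw [e2, one_mul]
          simp only [one_mul]
          have h3 : 0 ≤ (∑ l, |d l| ^ p.toReal) ^ (1 / p.toReal) := by positivity
          have := mul_le_mul_of_nonneg_left hg h3
          linarith)
      simpa using h1
    · refine (hTn n).trans (le_of_eq ?_)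
      refine Finset.sum_congr rfl fun l _ => ?_
      have h1 : ∀ j, j ≠ n → Un j (en p hA hf (Nat.pair n l)) = 0 := by
        intro j hj
        simp only [hUn]
        rw [Um_apply]
        refine Finset.sum_eq_zero fun m _ => Finset.sum_eq_zero fun l' _ => ?_
        rw [fn_apply, pr_en hp1 hq1 hp hd, if_neg, mul_zero, zero_smul]
        intro h
        exact hj (Nat.pair_eq_pair.1 h).1.symm
      have h2 : U (en p hA hf (Nat.pair n l)) = Un n (en p hA hf (Nat.pair n l)) := by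
        rw [← (happ (en p hA hf (Nat.pair n l))).tsum_eq]
        exact tsum_eq_single n h1
      have h3 : Un n (en p hA hf (Nat.pair n l)) = ∑ m : Fin (N n), T n m l • en q hA hf m := by
        simp only [hUn]
        rw [Um_apply]
        refine Finset.sum_congr rfl fun m _ => ?_
        rw [Finset.sum_eq_single l]
        · rw [fn_apply, pr_en hp1 hq1 hp hd, if_pos rfl, mul_one]
        · intro l' _ hl'
          rw [fn_apply, pr_en hp1 hq1 hp hd, if_neg, mul_zero, zero_smul]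
          intro h
          exact hl' (Fin.ext (Nat.pair_eq_pair.1 h).2.symm)
        · intro h; exact absurd (Finset.mem_univ _) h
      rw [h2, h3, norm_sum_en hq1 hp hd (fun m : Fin (N n) => (m : ℕ)) Fin.val_injective]

end

end Pool.Agent.MP_119be6_an
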