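import Pool.Agent.Lib.MP_119be6_an.OpNorm

/-!
Deterministic consequences of the cut and chaos properties.
-/

namespace Pool.Agent.MP_119be6_an

open Finset

section

variable {N : ℕ}

lemma sum_mul_le_pos_part {ι : Type*} [Fintype ι] (u c : ι → ℝ) (U : ℝ) (hu0 : ∀ i, 0 ≤ u i)
    (hu : ∀ i, u i ≤ U) :
    ∑ i, u i * c i ≤ U * ∑ i ∈ univ.filter (fun i => 0 < c i), c i := by
  rw [Finset.mul_sum, Finset.sum_filter]
  refine Finset.sum_le_sum fun i _ => ?_
  split_ifs with h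
  · exact mul_le_mul_of_nonneg_right (hu i) h.le
  · push Not at h
    exact mul_nonpos_of_nonneg_of_nonpos (hu0 i) h

theorem cut_bound (D : Fin N × Fin N → ℝ) (τ : ℝ)
    (hD : ∀ S' S : Finset (Fin N), |∑ e ∈ S' ×ˢ S, D e| ≤ τ)
    (u v : Fin N → ℝ) (U V : ℝ) (hU : 0 ≤ U) (hV : 0 ≤ V) (hu0 : ∀ m, 0 ≤ u m)
    (hu : ∀ m, u m ≤ U) (hv0 : ∀ l, 0 ≤ v l) (hv : ∀ l, v l ≤ V) :
    bil D u v ≤ U * V * τ := by
  have h1 : bil D u v = ∑ m, u m * ∑ l, v l * D (m, l) := by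
    unfold bil
    rw [← Finset.univ_product_univ, Finset.sum_product]
    refine Finset.sum_congr rfl fun m _ => ?_
    rw [Finset.mul_sum]
    exact Finset.sum_congr rfl fun l _ => by ring
  rw [h1]
  refine (sum_mul_le_pos_part u _ U hu0 hu).trans ?_
  rw [mul_assoc]
  refine mul_le_mul_of_nonneg_left ?_ hU
  set S' := univ.filter (fun m => 0 < ∑ l, v l * D (m, l)) with hS'
  have h2 : ∑ m ∈ S', ∑ l, v l * D (m, l) = ∑ l, v l * ∑ m ∈ S', D (m, l) := by
    rw [Finset.sum_comm]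
    refine Finset.sum_congr rfl fun l _ => ?_
    rw [Finset.mul_sum]
  rw [h2]
  refine (sum_mul_le_pos_part v _ V hv0 hv).trans ?_
  refine mul_le_mul_of_nonneg_left ?_ hV
  set S := univ.filter (fun l => 0 < ∑ m ∈ S', D (m, l)) with hS
  have h3 : ∑ l ∈ S, ∑ m ∈ S', D (m, l) = ∑ e ∈ S' ×ˢ S, D e := by
    rw [Finset.sum_comm, Finset.sum_product]
  rw [h3]
  exact (le_abs_self _).trans (hD S' S)

lemma selector_le (hN : 1 ≤ N) (c G : Fin N → Fin N → ℝ) (g : ℝ)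
    (hG : ∀ m, ∑ m', |G m m'| ≤ g) :
    ∃ σ : Fin N → Fin N, ∃ ς : Fin N → Bool,
      ∑ m, ∑ m', G m m' * c m m' ≤ g * ∑ m, sg (ς m) * c m (σ m) := by
  haveI : Nonempty (Fin N) := ⟨⟨0, hN⟩⟩
  have hmax : ∀ m, ∃ m0, ∀ m', |c m m'| ≤ |c m m0| := fun m =>
    Finite.exists_max (fun m' => |c m m'|)
  choose σ hσ using hmax
  refine ⟨σ, fun m => decide (0 ≤ c m (σ m)), ?_⟩
  rw [Finset.mul_sum]
  refine Finset.sum_le_sum fun m _ => ?_
  have h1 : sg (decide (0 ≤ c m (σ m))) * c m (σ m) = |c m (σ m)| := by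
    unfold sg
    by_cases h : 0 ≤ c m (σ m)
    · simp [h, abs_of_nonneg h]
    · push Not at h
      rw [abs_of_neg h]
      simp [not_le.2 h]
  rw [h1]
  calc ∑ m', G m m' * c m m' ≤ ∑ m', |G m m'| * |c m (σ m)| := by
        refine Finset.sum_le_sum fun m' _ => ?_
        calc G m m' * c m m' ≤ |G m m' * c m m'| := le_abs_self _
          _ = |G m m'| * |c m m'| := abs_mul _ _
          _ ≤ |G m m'| * |c m (σ m)| := mul_le_mul_of_nonneg_left (hσ m m') (abs_nonneg _)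
    _ = (∑ m', |G m m'|) * |c m (σ m)| := by rw [Finset.sum_mul]
    _ ≤ g * |c m (σ m)| := mul_le_mul_of_nonneg_right (hG m) (abs_nonneg _)

theorem chaos_bound (hN : 1 ≤ N) (E : Fin N × Fin N → ℝ) (τ : ℝ)
    (hE : ∀ σ σ' : Fin N → Fin N, ∀ ς ς' : Fin N → Bool,
      |∑ e : Fin N × Fin N, if (σ e.1, σ' e.2) = e then 0 else
      sg (ς e.1) * sg (ς' e.2) * E e * E (σ e.1, σ' e.2)| ≤ τ)
    (G G' : Fin N → Fin N → ℝ) (g g' : ℝ) (hg : 0 ≤ g) (hg' : 0 ≤ g')
    (hG : ∀ m, ∑ m', |G m m'| ≤ g) (hG' : ∀ l, ∑ l', |G' l l'| ≤ g') :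
    ∑ e : Fin N × Fin N, ∑ e' : Fin N × Fin N,
      (if e' = e then 0 else E e * E e' * (G e.1 e'.1 * G' e.2 e'.2)) ≤ g * g' * τ := by
  set H : Fin N → Fin N → Fin N → Fin N → ℝ := fun m m' l l' =>
    if (m', l') = (m, l) then 0 else E (m, l) * E (m', l') with hH
  have h0 : ∑ e : Fin N × Fin N, ∑ e' : Fin N × Fin N,
      (if e' = e then 0 else E e * E e' * (G e.1 e'.1 * G' e.2 e'.2))
      = ∑ m, ∑ m', G m m' * ∑ l, ∑ l', G' l l' * H m m' l l' := by
    rw [← Finset.univ_product_univ, Finset.sum_product]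
    refine Finset.sum_congr rfl fun m _ => ?_
    have h1 : ∀ l, ∑ e' ∈ univ ×ˢ univ, (if e' = (m, l) then 0 else
        E (m, l) * E e' * (G (m, l).1 e'.1 * G' (m, l).2 e'.2))
        = ∑ m', ∑ l', G m m' * (G' l l' * H m m' l l') := by
      intro l
      rw [Finset.sum_product]
      refine Finset.sum_congr rfl fun m' _ => Finset.sum_congr rfl fun l' _ => ?_
      simp only [hH]
      split_ifs <;> ring
    simp only [h1]
    rw [Finset.sum_comm]
    refine Finset.sum_congr rfl fun m' _ => ?_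
    rw [Finset.mul_sum]
    refine Finset.sum_congr rfl fun l _ => ?_
    rw [Finset.mul_sum]
  rw [h0]
  obtain ⟨σ, ς, h1⟩ := selector_le hN (fun m m' => ∑ l, ∑ l', G' l l' * H m m' l l') G g hG
  refine h1.trans ?_
  rw [mul_assoc]
  refine mul_le_mul_of_nonneg_left ?_ hg
  have h2 : ∑ m, sg (ς m) * ∑ l, ∑ l', G' l l' * H m (σ m) l l'
      = ∑ l, ∑ l', G' l l' * ∑ m, sg (ς m) * H m (σ m) l l' := by
    simp only [Finset.mul_sum]
    rw [Finset.sum_comm]
    refine Finset.sum_congr rfl fun l _ => ?_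
    rw [Finset.sum_comm]
    refine Finset.sum_congr rfl fun l' _ => Finset.sum_congr rfl fun m _ => by ring
  rw [h2]
  obtain ⟨σ', ς', h3⟩ := selector_le hN (fun l l' => ∑ m, sg (ς m) * H m (σ m) l l') G' g' hG'
  refine h3.trans ?_
  refine mul_le_mul_of_nonneg_left ?_ hg'
  have h4 : ∑ l, sg (ς' l) * ∑ m, sg (ς m) * H m (σ m) l (σ' l)
      = ∑ e : Fin N × Fin N, if (σ e.1, σ' e.2) = e then 0 else
      sg (ς e.1) * sg (ς' e.2) * E e * E (σ e.1, σ' e.2) := by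
    rw [← Finset.univ_product_univ, Finset.sum_product, Finset.sum_comm]
    refine Finset.sum_congr rfl fun l _ => ?_
    rw [Finset.mul_sum]
    refine Finset.sum_congr rfl fun m _ => ?_
    simp only [hH]
    split_ifs <;> ring
  rw [h4]
  exact (le_abs_self _).trans (hE σ σ' ς ς')

end

end Pool.Agent.MP_119be6_an
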