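import Pool.Agent.Lib.MP_119be6_an.Forms

/-!
`L¹` estimate of the high part and `L²` estimate of the low part, abstract form.
-/

namespace Pool.Agent.MP_119be6_an

open Finset

section

variable {N : ℕ} {I J T : Type*} [Fintype I] [Fintype J]

theorem high_abs (μ : I → ℝ) (ν : J → ℝ) (hμ : ∀ i, 0 ≤ μ i) (hν : ∀ j, 0 ≤ ν j)
    (P : Finset (T × T)) (X : T → I → Fin N → ℝ) (Y : T → J → Fin N → ℝ)
    (E : Fin N × Fin N → ℝ) (w τ U V : ℝ)
    (hcut : ∀ S' S : Finset (Fin N), |∑ e ∈ S' ×ˢ S, (|E e| - w)| ≤ τ)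
    (hU0 : 0 ≤ U) (hV0 : 0 ≤ V)
    (hU : ∀ r m, ∑ i, μ i * |X r i m| ≤ U) (hV : ∀ s l, ∑ j, ν j * |Y s j l| ≤ V) :
    ∑ i, ∑ j, μ i * ν j * |∑ p ∈ P, bil E (X p.1 i) (Y p.2 j)|
      ≤ ∑ p ∈ P, (w * (∑ m, ∑ i, μ i * |X p.1 i m|) * (∑ l, ∑ j, ν j * |Y p.2 j l|)
          + U * V * τ) := by
  have h1 : ∀ i j, μ i * ν j * |∑ p ∈ P, bil E (X p.1 i) (Y p.2 j)|
      ≤ ∑ p ∈ P, ∑ e : Fin N × Fin N,
        (μ i * |X p.1 i e.1|) * (ν j * |Y p.2 j e.2|) * |E e| := by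
    intro i j
    have h2 : |∑ p ∈ P, bil E (X p.1 i) (Y p.2 j)|
        ≤ ∑ p ∈ P, ∑ e : Fin N × Fin N, |X p.1 i e.1| * |Y p.2 j e.2| * |E e| := by
      refine (Finset.abs_sum_le_sum_abs _ _).trans (Finset.sum_le_sum fun p _ => ?_)
      unfold bil
      refine (Finset.abs_sum_le_sum_abs _ _).trans (Finset.sum_le_sum fun e _ => ?_)
      rw [abs_mul, abs_mul]
    calc μ i * ν j * |∑ p ∈ P, bil E (X p.1 i) (Y p.2 j)|
        ≤ μ i * ν j * ∑ p ∈ P, ∑ e : Fin N × Fin N, |X p.1 i e.1| * |Y p.2 j e.2| * |E e| :=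
          mul_le_mul_of_nonneg_left h2 (mul_nonneg (hμ i) (hν j))
      _ = _ := by
          rw [Finset.mul_sum]
          refine Finset.sum_congr rfl fun p _ => ?_
          rw [Finset.mul_sum]
          exact Finset.sum_congr rfl fun e _ => by ring
  have h3 : ∑ i, ∑ j, μ i * ν j * |∑ p ∈ P, bil E (X p.1 i) (Y p.2 j)|
      ≤ ∑ p ∈ P, bil (fun e => |E e|) (fun m => ∑ i, μ i * |X p.1 i m|)
          (fun l => ∑ j, ν j * |Y p.2 j l|) := by
    calc ∑ i, ∑ j, μ i * ν j * |∑ p ∈ P, bil E (X p.1 i) (Y p.2 j)|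
        ≤ ∑ i, ∑ j, ∑ p ∈ P, ∑ e : Fin N × Fin N,
          (μ i * |X p.1 i e.1|) * (ν j * |Y p.2 j e.2|) * |E e| :=
          Finset.sum_le_sum fun i _ => Finset.sum_le_sum fun j _ => h1 i j
      _ = ∑ p ∈ P, ∑ e : Fin N × Fin N, ∑ i, ∑ j,
          (μ i * |X p.1 i e.1|) * (ν j * |Y p.2 j e.2|) * |E e| := by
          have : ∀ i, ∑ j, ∑ p ∈ P, ∑ e : Fin N × Fin N,
              (μ i * |X p.1 i e.1|) * (ν j * |Y p.2 j e.2|) * |E e|
              = ∑ p ∈ P, ∑ e : Fin N × Fin N, ∑ j,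
              (μ i * |X p.1 i e.1|) * (ν j * |Y p.2 j e.2|) * |E e| := by
            intro i
            rw [Finset.sum_comm]
            refine Finset.sum_congr rfl fun p _ => ?_
            rw [Finset.sum_comm]
          simp only [this]
          rw [Finset.sum_comm]
          refine Finset.sum_congr rfl fun p _ => ?_
          rw [Finset.sum_comm]
      _ = _ := by
          refine Finset.sum_congr rfl fun p _ => ?_
          unfold bil
          refine Finset.sum_congr rfl fun e _ => ?_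
          rw [Finset.sum_mul_sum, Finset.sum_mul]
          refine Finset.sum_congr rfl fun i _ => ?_
          rw [Finset.sum_mul]
  refine h3.trans (Finset.sum_le_sum fun p _ => ?_)
  have h4 : bil (fun e => |E e|) (fun m => ∑ i, μ i * |X p.1 i m|)
          (fun l => ∑ j, ν j * |Y p.2 j l|)
      = w * (∑ m, ∑ i, μ i * |X p.1 i m|) * (∑ l, ∑ j, ν j * |Y p.2 j l|)
        + bil (fun e => |E e| - w) (fun m => ∑ i, μ i * |X p.1 i m|)
          (fun l => ∑ j, ν j * |Y p.2 j l|) := by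
    unfold bil
    rw [mul_assoc, Finset.sum_mul_sum, ← Finset.sum_product', Finset.univ_product_univ,
      Finset.mul_sum, ← Finset.sum_add_distrib]
    exact Finset.sum_congr rfl fun e _ => by ring
  rw [h4]
  have h5 := cut_bound (fun e => |E e| - w) τ hcut (fun m => ∑ i, μ i * |X p.1 i m|)
          (fun l => ∑ j, ν j * |Y p.2 j l|) U V hU0 hV0
          (fun m => Finset.sum_nonneg fun i _ => mul_nonneg (hμ i) (abs_nonneg _))
          (fun m => hU _ _)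
          (fun l => Finset.sum_nonneg fun j _ => mul_nonneg (hν j) (abs_nonneg _))
          (fun l => hV _ _)
  linarith

theorem low_abs [DecidableEq T] (hN : 1 ≤ N) (μ : I → ℝ) (ν : J → ℝ) (hμ : ∀ i, 0 ≤ μ i) (hν : ∀ j, 0 ≤ ν j)
    (P : Finset (T × T)) (X : T → I → Fin N → ℝ) (Y : T → J → Fin N → ℝ)
    (E : Fin N × Fin N → ℝ) (hE1 : ∀ e, E e ^ 2 = |E e|) (w τ U V g g' : ℝ)
    (hcut : ∀ S' S : Finset (Fin N), |∑ e ∈ S' ×ˢ S, (|E e| - w)| ≤ τ)
    (hchaos : ∀ σ σ' : Fin N → Fin N, ∀ ς ς' : Fin N → Bool,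
      |∑ e : Fin N × Fin N, if (σ e.1, σ' e.2) = e then 0 else
      sg (ς e.1) * sg (ς' e.2) * E e * E (σ e.1, σ' e.2)| ≤ τ)
    (hU0 : 0 ≤ U) (hV0 : 0 ≤ V) (hg0 : 0 ≤ g) (hg0' : 0 ≤ g')
    (hXo : ∀ r ρ i m, r ≠ ρ → X r i m * X ρ i m = 0)
    (hYo : ∀ r ρ j l, r ≠ ρ → Y r j l * Y ρ j l = 0)
    (hU : ∀ r m, ∑ i, μ i * X r i m ^ 2 ≤ U) (hV : ∀ s l, ∑ j, ν j * Y s j l ^ 2 ≤ V)
    (hg : ∀ r ρ m, ∑ m', |∑ i, μ i * (X r i m * X ρ i m')| ≤ g)
    (hg' : ∀ s σ l, ∑ l', |∑ j, ν j * (Y s j l * Y σ j l')| ≤ g') :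
    ∑ i, ∑ j, μ i * ν j * (∑ p ∈ P, bil E (X p.1 i) (Y p.2 j)) ^ 2
      ≤ ∑ p ∈ P, (w * (∑ m, ∑ i, μ i * X p.1 i m ^ 2) * (∑ l, ∑ j, ν j * Y p.2 j l ^ 2)
          + U * V * τ) + (P.card : ℝ) ^ 2 * (g * g' * τ) := by
  set Gx : T → T → Fin N → Fin N → ℝ := fun r ρ m m' => ∑ i, μ i * (X r i m * X ρ i m') with hGx
  set Gy : T → T → Fin N → Fin N → ℝ := fun s σ l l' => ∑ j, ν j * (Y s j l * Y σ j l') with hGy
  -- expand the square
  have hexp : ∑ i, ∑ j, μ i * ν j * (∑ p ∈ P, bil E (X p.1 i) (Y p.2 j)) ^ 2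
      = ∑ p ∈ P, ∑ p' ∈ P, ∑ e : Fin N × Fin N, ∑ e' : Fin N × Fin N,
          E e * E e' * (Gx p.1 p'.1 e.1 e'.1 * Gy p.2 p'.2 e.2 e'.2) := by
    have h1 : ∀ i j, μ i * ν j * (∑ p ∈ P, bil E (X p.1 i) (Y p.2 j)) ^ 2
        = ∑ p ∈ P, ∑ p' ∈ P, ∑ e : Fin N × Fin N, ∑ e' : Fin N × Fin N,
          E e * E e' * ((μ i * (X p.1 i e.1 * X p'.1 i e'.1)) *
            (ν j * (Y p.2 j e.2 * Y p'.2 j e'.2))) := by
      intro i j
      rw [sq, Finset.sum_mul_sum, Finset.mul_sum]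
      refine Finset.sum_congr rfl fun p _ => ?_
      rw [Finset.mul_sum]
      refine Finset.sum_congr rfl fun p' _ => ?_
      unfold bil
      rw [Finset.sum_mul_sum, Finset.mul_sum]
      refine Finset.sum_congr rfl fun e _ => ?_
      rw [Finset.mul_sum]
      exact Finset.sum_congr rfl fun e' _ => by ring
    simp only [h1]
    have h2 : ∀ i, ∑ j, ∑ p ∈ P, ∑ p' ∈ P, ∑ e : Fin N × Fin N, ∑ e' : Fin N × Fin N,
          E e * E e' * ((μ i * (X p.1 i e.1 * X p'.1 i e'.1)) *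
            (ν j * (Y p.2 j e.2 * Y p'.2 j e'.2)))
        = ∑ p ∈ P, ∑ p' ∈ P, ∑ e : Fin N × Fin N, ∑ e' : Fin N × Fin N, ∑ j,
          E e * E e' * ((μ i * (X p.1 i e.1 * X p'.1 i e'.1)) *
            (ν j * (Y p.2 j e.2 * Y p'.2 j e'.2))) := by
      intro i
      rw [Finset.sum_comm]
      refine Finset.sum_congr rfl fun p _ => ?_
      rw [Finset.sum_comm]
      refine Finset.sum_congr rfl fun p' _ => ?_
      rw [Finset.sum_comm]
      refine Finset.sum_congr rfl fun e _ => ?_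
      rw [Finset.sum_comm]
    simp only [h2]
    rw [Finset.sum_comm]
    refine Finset.sum_congr rfl fun p _ => ?_
    rw [Finset.sum_comm]
    refine Finset.sum_congr rfl fun p' _ => ?_
    rw [Finset.sum_comm]
    refine Finset.sum_congr rfl fun e _ => ?_
    rw [Finset.sum_comm]
    refine Finset.sum_congr rfl fun e' _ => ?_
    simp only [hGx, hGy]
    rw [Finset.sum_mul_sum, Finset.mul_sum]
    refine Finset.sum_congr rfl fun i _ => ?_
    rw [Finset.mul_sum]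
  rw [hexp]
  -- split the diagonal
  have hsplit : ∀ p ∈ P, ∀ p' ∈ P, ∑ e : Fin N × Fin N, ∑ e' : Fin N × Fin N,
          E e * E e' * (Gx p.1 p'.1 e.1 e'.1 * Gy p.2 p'.2 e.2 e'.2)
      ≤ (if p = p' then (w * (∑ m, ∑ i, μ i * X p.1 i m ^ 2) *
          (∑ l, ∑ j, ν j * Y p.2 j l ^ 2) + U * V * τ) else 0) + g * g' * τ := by
    intro p _ p' _
    have h1 : ∑ e : Fin N × Fin N, ∑ e' : Fin N × Fin N,
          E e * E e' * (Gx p.1 p'.1 e.1 e'.1 * Gy p.2 p'.2 e.2 e'.2)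
        = ∑ e : Fin N × Fin N, E e ^ 2 * (Gx p.1 p'.1 e.1 e.1 * Gy p.2 p'.2 e.2 e.2)
          + ∑ e : Fin N × Fin N, ∑ e' : Fin N × Fin N,
          (if e' = e then 0 else E e * E e' * (Gx p.1 p'.1 e.1 e'.1 * Gy p.2 p'.2 e.2 e'.2)) := by
      rw [← Finset.sum_add_distrib]
      refine Finset.sum_congr rfl fun e _ => ?_
      have h2 : ∀ e' : Fin N × Fin N,
          E e * E e' * (Gx p.1 p'.1 e.1 e'.1 * Gy p.2 p'.2 e.2 e'.2)
          = (if e' = e then E e ^ 2 * (Gx p.1 p'.1 e.1 e.1 * Gy p.2 p'.2 e.2 e.2) else 0)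
          + (if e' = e then 0 else
              E e * E e' * (Gx p.1 p'.1 e.1 e'.1 * Gy p.2 p'.2 e.2 e'.2)) := by
        intro e'
        by_cases h : e' = e
        · subst h; rw [if_pos rfl, if_pos rfl]; ring
        · simp [h]
      rw [Finset.sum_congr rfl fun e' _ => h2 e', Finset.sum_add_distrib]
      congr 1
      simp
    rw [h1]
    have h3 := chaos_bound hN E τ hchaos (Gx p.1 p'.1) (Gy p.2 p'.2) g g' hg0 hg0'
      (fun m => hg _ _ m) (fun l => hg' _ _ l)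
    refine add_le_add ?_ h3
    by_cases hpp : p = p'
    · subst hpp
      rw [if_pos rfl]
      have h4 : ∑ e : Fin N × Fin N, E e ^ 2 * (Gx p.1 p.1 e.1 e.1 * Gy p.2 p.2 e.2 e.2)
          = w * (∑ m, ∑ i, μ i * X p.1 i m ^ 2) * (∑ l, ∑ j, ν j * Y p.2 j l ^ 2)
            + bil (fun e => |E e| - w) (fun m => ∑ i, μ i * X p.1 i m ^ 2)
              (fun l => ∑ j, ν j * Y p.2 j l ^ 2) := by
        unfold bil
        rw [mul_assoc, Finset.sum_mul_sum, ← Finset.sum_product', Finset.univ_product_univ,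
          Finset.mul_sum, ← Finset.sum_add_distrib]
        refine Finset.sum_congr rfl fun e _ => ?_
        have e1 : Gx p.1 p.1 e.1 e.1 = ∑ i, μ i * X p.1 i e.1 ^ 2 := by
          simp only [hGx]; exact Finset.sum_congr rfl fun i _ => by ring
        have e2 : Gy p.2 p.2 e.2 e.2 = ∑ j, ν j * Y p.2 j e.2 ^ 2 := by
          simp only [hGy]; exact Finset.sum_congr rfl fun i _ => by ring
        rw [e1, e2, hE1]
        ring
      rw [h4]
      have h5 := cut_bound (fun e => |E e| - w) τ hcut (fun m => ∑ i, μ i * X p.1 i m ^ 2)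
          (fun l => ∑ j, ν j * Y p.2 j l ^ 2) U V hU0 hV0
          (fun m => Finset.sum_nonneg fun i _ => mul_nonneg (hμ i) (sq_nonneg _))
          (fun m => hU _ _)
          (fun l => Finset.sum_nonneg fun j _ => mul_nonneg (hν j) (sq_nonneg _))
          (fun l => hV _ _)
      linarith
    · rw [if_neg hpp]
      have : p.1 ≠ p'.1 ∨ p.2 ≠ p'.2 := by
        by_contra hcon
        push Not at hcon
        exact hpp (Prod.ext hcon.1 hcon.2)
      apply le_of_eq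
      refine Finset.sum_eq_zero fun e _ => ?_
      rcases this with h | h
      · have : Gx p.1 p'.1 e.1 e.1 = 0 := by
          simp only [hGx]
          exact Finset.sum_eq_zero fun i _ => by rw [hXo _ _ _ _ h]; ring
        rw [this]; ring
      · have : Gy p.2 p'.2 e.2 e.2 = 0 := by
          simp only [hGy]
          exact Finset.sum_eq_zero fun i _ => by rw [hYo _ _ _ _ h]; ring
        rw [this]; ring
  calc ∑ p ∈ P, ∑ p' ∈ P, ∑ e : Fin N × Fin N, ∑ e' : Fin N × Fin N,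
          E e * E e' * (Gx p.1 p'.1 e.1 e'.1 * Gy p.2 p'.2 e.2 e'.2)
      ≤ ∑ p ∈ P, ∑ p' ∈ P, ((if p = p' then (w * (∑ m, ∑ i, μ i * X p.1 i m ^ 2) *
          (∑ l, ∑ j, ν j * Y p.2 j l ^ 2) + U * V * τ) else 0) + g * g' * τ) :=
        Finset.sum_le_sum fun p hp => Finset.sum_le_sum fun p' hp' => hsplit p hp p' hp'
    _ = ∑ p ∈ P, ((w * (∑ m, ∑ i, μ i * X p.1 i m ^ 2) *
          (∑ l, ∑ j, ν j * Y p.2 j l ^ 2) + U * V * τ) + (P.card : ℝ) * (g * g' * τ)) := by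
        refine Finset.sum_congr rfl fun p hp => ?_
        rw [Finset.sum_add_distrib, Finset.sum_ite_eq, if_pos hp, Finset.sum_const, nsmul_eq_mul]
    _ = _ := by
        rw [Finset.sum_add_distrib, Finset.sum_const, nsmul_eq_mul]
        ring

end

end Pool.Agent.MP_119be6_an
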