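import Pool.Agent.Lib.MP_119be6_an.Alphabet

/-!
The key finite dimensional proposition.
-/

namespace Pool.Agent.MP_119be6_an

open Finset Filter Topology

/-- coordinates below a threshold -/
noncomputable def lo (κ z : ℝ) : ℝ := if |z| < κ then z else 0

/-- coordinates above a threshold -/
noncomputable def hi (κ z : ℝ) : ℝ := if |z| < κ then 0 else z

lemma lo_add_hi (κ z : ℝ) : lo κ z + hi κ z = z := by
  unfold lo hi; split_ifs <;> simp

lemma abs_lo_le {κ : ℝ} (hκ : 0 ≤ κ) (z : ℝ) : |lo κ z| ≤ κ := by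
  unfold lo; split_ifs with h
  · exact h.le
  · simpa using hκ

lemma abs_lo_le' (κ z : ℝ) : |lo κ z| ≤ |z| := by
  unfold lo; split_ifs <;> simp

lemma abs_hi_le (κ z : ℝ) : |hi κ z| ≤ |z| := by
  unfold hi; split_ifs <;> simp

lemma hi_le {q κ : ℝ} (hq : 1 ≤ q) (hκ : 0 < κ) (z : ℝ) :
    |hi κ z| ≤ κ ^ (1 - q) * |z| ^ q := by
  unfold hi
  split_ifs with h
  · rw [abs_zero]; positivity
  · push Not at h
    have hz : 0 < |z| := hκ.trans_le h
    calc |z| = |z| ^ (1 - q) * |z| ^ q := by rw [← Real.rpow_add hz]; simp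
      _ ≤ κ ^ (1 - q) * |z| ^ q := mul_le_mul_of_nonneg_right
          (Real.rpow_le_rpow_of_nonpos hκ h (by linarith)) (by positivity)

lemma hi_level {q R : ℝ} (hq : 0 < q) (hR : 0 ≤ R) {a a' b : ℕ} (ha : a' ≤ a)
    (hb : R ^ (1 / q) < 2 ^ (b + 1)) {z : ℝ} (hz : |z| ^ q ≤ R) :
    hi ((1 / 2) ^ a') z = 0 ∨
      Int.log 2 |hi ((1 / 2) ^ a') z| ∈ Finset.Icc (-(a : ℤ)) (b : ℤ) := by
  unfold hi
  split_ifs with h
  · left; rfl
  · right
    push Not at h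
    have h0 : (0 : ℝ) < |z| := lt_of_lt_of_le (by positivity) h
    rw [Finset.mem_Icc]
    constructor
    · refine (Int.zpow_le_iff_le_log (by norm_num) h0).1 ?_
      refine le_trans ?_ h
      rw [one_div, inv_pow, zpow_neg, zpow_natCast]
      push_cast
      exact inv_anti₀ (by positivity) (pow_le_pow_right₀ (by norm_num) ha)
    · have h1 : |z| ≤ R ^ (1 / q) := by
        have h2 := Real.rpow_le_rpow (by positivity) hz (show 0 ≤ 1 / q by positivity)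
        rwa [← Real.rpow_mul (abs_nonneg _), mul_one_div_cancel hq.ne', Real.rpow_one] at h2
      have h3 : |z| < ((2 : ℕ) : ℝ) ^ ((b : ℤ) + 1) := by
        refine (h1.trans_lt hb).trans_le (le_of_eq ?_)
        push_cast
        exact_mod_cast rfl
      have h4 := (Int.lt_zpow_iff_log_lt (by norm_num) h0).1 h3
      omega

lemma exists_L {q : ℝ} (hq1 : 1 < q) (hq2 : q < 2) {ε : ℝ} (hε : 0 < ε) :
    ∃ L : ℕ, 1 ≤ L ∧ (C1 q + 1) + Real.sqrt (L * (C2 q + 1)) ≤ ε / 2 * (L : ℝ) ^ (1 / q) := by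
  set D := C1 q + 1 + Real.sqrt (C2 q + 1) with hD
  have hC1 := C1_nonneg hq1
  have hC2 := C2_nonneg hq2
  have hδ : 0 < 1 / q - 1 / 2 := by
    have : 1 / 2 < 1 / q := one_div_lt_one_div_of_lt (by linarith) hq2
    linarith
  have ht : Tendsto (fun L : ℕ => (L : ℝ) ^ (1 / q - 1 / 2)) atTop atTop :=
    (tendsto_rpow_atTop hδ).comp tendsto_natCast_atTop_atTop
  obtain ⟨L, hL1, hL2⟩ := ((ht.eventually_ge_atTop (2 * D / ε)).and (eventually_ge_atTop 1)).exists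
  refine ⟨L, hL2, ?_⟩
  have hL0 : (1 : ℝ) ≤ L := by exact_mod_cast hL2
  have hLp : (0 : ℝ) < L := by linarith
  have hs1 : 1 ≤ Real.sqrt L := Real.one_le_sqrt.2 hL0
  have h1 : (C1 q + 1) + Real.sqrt (L * (C2 q + 1)) ≤ D * Real.sqrt L := by
    rw [Real.sqrt_mul hLp.le, hD]
    have : (C1 q + 1) * 1 ≤ (C1 q + 1) * Real.sqrt L :=
      mul_le_mul_of_nonneg_left hs1 (by linarith)
    nlinarith
  refine h1.trans ?_
  have h2 : (L : ℝ) ^ (1 / q) = (L : ℝ) ^ (1 / q - 1 / 2) * Real.sqrt L := by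
    rw [Real.sqrt_eq_rpow, ← Real.rpow_add hLp]
    congr 1; ring
  rw [h2, ← mul_assoc]
  refine mul_le_mul_of_nonneg_right ?_ (Real.sqrt_nonneg _)
  have h3 := mul_le_mul_of_nonneg_left hL1 (show 0 ≤ ε / 2 by positivity)
  have h4 : ε / 2 * (2 * D / ε) = D := by field_simp
  linarith

lemma exists_s {q : ℝ} (hq1 : 1 < q) {ε : ℝ} (hε : 0 < ε) :
    ∃ s : ℝ, 0 < s ∧ 2 * s ^ (1 - q) ≤ ε := by
  have ht : Tendsto (fun s : ℝ => s ^ (-(q - 1))) atTop (𝓝 0) :=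
    tendsto_rpow_neg_atTop (by linarith)
  obtain ⟨s, h1, h2⟩ := ((ht.eventually_lt_const (show (0 : ℝ) < ε / 2 by positivity)).and
    (eventually_gt_atTop (0 : ℝ))).exists
  refine ⟨s, h2, ?_⟩
  rw [show -(q - 1) = 1 - q by ring] at h1
  linarith

lemma exists_kappa {q : ℝ} (hq2 : q < 2) (c R : ℝ) {η : ℝ} (hη : 0 < η)
    (a0 : ℕ) : ∃ a : ℕ, a0 ≤ a ∧ c * Real.sqrt ((((1 : ℝ) / 2) ^ a) ^ (2 - q) * R) ≤ η := by
  have h1 : Tendsto (fun a : ℕ => ((1 : ℝ) / 2) ^ a) atTop (𝓝 0) :=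
    tendsto_pow_atTop_nhds_zero_of_lt_one (by norm_num) (by norm_num)
  have h2 : Tendsto (fun z : ℝ => z ^ (2 - q)) (𝓝 0) (𝓝 0) := by
    have := (Real.continuousAt_rpow_const 0 (2 - q) (Or.inr (by linarith))).tendsto
    rwa [Real.zero_rpow (by linarith)] at this
  have h3 : Tendsto (fun a : ℕ => c * Real.sqrt ((((1 : ℝ) / 2) ^ a) ^ (2 - q) * R)) atTop
      (𝓝 (c * Real.sqrt (0 * R))) :=
    (((h2.comp h1).mul_const R).sqrt).const_mul c
  rw [zero_mul, Real.sqrt_zero, mul_zero] at h3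
  obtain ⟨a, h4, h5⟩ := ((h3.eventually_lt_const hη).and (eventually_ge_atTop a0)).exists
  exact ⟨a, h5, h4.le⟩

lemma Contr.restrict {N : ℕ} {I : Type*} [Fintype I] {q : ℝ} (hq : 0 < q) {μ : I → ℝ}
    (hμ : ∀ i, 0 ≤ μ i) {x : I → Fin N → ℝ} (h : Contr q μ x) (p : I → Prop)
    [DecidablePred p] : Contr q μ (fun i => if p i then x i else 0) := by
  intro c
  refine le_trans (Finset.sum_le_sum fun i _ => mul_le_mul_of_nonneg_left ?_ (hμ i)) (h c)
  by_cases hp : p i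
  · simp [hp]
  · simp only [hp, if_false, Pi.zero_apply, mul_zero, Finset.sum_const_zero, abs_zero,
      Real.zero_rpow hq.ne']
    positivity

/-- the key proposition, normalised form -/
theorem key_norm {q : ℝ} (hq1 : 1 < q) (hq2 : q < 2) {ε : ℝ} (hε : 0 < ε) :
    ∃ N : ℕ, 1 ≤ N ∧ ∃ L : ℕ, 1 ≤ L ∧ ∃ θ : Fin N × Fin N → ℝ,
      (1 / 2 * (L : ℝ)) * (N : ℝ) ^ 2 ≤ ∑ e, |θ e| ^ q ∧
      ∀ (I J : Type) [Fintype I] [Fintype J] (μ : I → ℝ) (ν : J → ℝ)
        (x : I → Fin N → ℝ) (y : J → Fin N → ℝ), (∀ i, 0 ≤ μ i) → (∀ j, 0 ≤ ν j) →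
        ∑ i, μ i ≤ 1 → ∑ j, ν j ≤ 1 → Contr q μ x → Contr q ν y →
        ∑ i, ∑ j, μ i * ν j * |bil θ (x i) (y j)| ≤ ε * (L : ℝ) ^ (1 / q) := by
  classical
  have hq0 : 0 < q := by linarith
  obtain ⟨L, hL1, hL⟩ := exists_L hq1 hq2 hε
  obtain ⟨s0, hs0, hs⟩ := exists_s hq1 (show 0 < ε / 8 by positivity)
  have hLr : (1 : ℝ) ≤ L := by exact_mod_cast hL1
  have hLp : (0 : ℝ) < L := by linarith
  have hLq : 1 ≤ (L : ℝ) ^ (1 / q) := Real.one_le_rpow hLr (by positivity)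
  have hLq0 : 0 < (L : ℝ) ^ (1 / q) := by linarith
  set R : ℝ := 16 * s0 / ε with hRdef
  have hR : 0 < R := by positivity
  set G : ℝ := ∑ k ∈ range L, (2 : ℝ) ^ ((k : ℝ) + 1) with hG
  have hG0 : 0 ≤ G := Finset.sum_nonneg fun _ _ => by positivity
  obtain ⟨a2, -, ha2⟩ := exists_kappa hq2 (G * 60) R (show 0 < ε / 8 by positivity) 0
  obtain ⟨a1, ha12, ha1⟩ := exists_kappa hq2 (G * (20 * (((1 : ℝ) / 2) ^ a2) ^ (1 - q))) R
    (show 0 < ε / 8 by positivity) a2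
  obtain ⟨b, hb⟩ : ∃ b : ℕ, R ^ (1 / q) < 2 ^ (b + 1) := by
    obtain ⟨b, hb⟩ := pow_unbounded_of_one_lt (R ^ (1 / q)) (show (1 : ℝ) < 2 by norm_num)
    exact ⟨b, hb.trans (by rw [pow_succ]; have : (0 : ℝ) < 2 ^ b := by positivity
                           linarith)⟩
  obtain ⟨K, hK0, hK⟩ := sharp_part hq1 hq2 a1 b L R hR.le
  set S : ℝ := ∑ k ∈ range L, (2 : ℝ) ^ (((k : ℝ) + 1) * q) with hS
  have hS0 : 0 ≤ S := Finset.sum_nonneg fun _ _ => by positivity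
  set t : ℝ := 1 / (K + 2 * S + 1) with ht
  have ht0 : 0 < t := by positivity
  have hKt : K * t ≤ 1 := by
    rw [ht, mul_one_div, div_le_one (by positivity)]; linarith
  have hSt : S * t ≤ 1 / 2 := by
    rw [ht, mul_one_div, div_le_iff₀ (by positivity)]; linarith
  obtain ⟨N, hN, X, hX⟩ := exists_config (wt_nonneg L hq1.le) (sum_wt L) (ph L) (ps q L)
    (abs_ph_le L) (sum_ph L) (abs_ps_le L hq1.le) (sum_ps L) ht0
  have hN0 : (0 : ℝ) < N := by exact_mod_cast hN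
  have hcut : ∀ k < L, ∀ S' S : Finset (Fin N),
      |∑ e ∈ S' ×ˢ S, (|Ek L X k e| - 2 ^ (-((k : ℝ) + 1) * q))| ≤ t * (N : ℝ) ^ 2 := by
    intro k hk S' S
    have h := hX.cut ⟨k, hk⟩ S' S
    have e1 : ∀ e, ps q L ⟨k, hk⟩ (X e) = |Ek L X k e| - 2 ^ (-((k : ℝ) + 1) * q) := by
      intro e
      simp only [ps, Ek, hk, dif_pos, wk]
    simpa only [e1] using h
  have hchaos : ∀ k < L, ∀ σ σ' : Fin N → Fin N, ∀ ς ς' : Fin N → Bool,
      |∑ e : Fin N × Fin N, if (σ e.1, σ' e.2) = e then 0 else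
      sg (ς e.1) * sg (ς' e.2) * Ek L X k e * Ek L X k (σ e.1, σ' e.2)| ≤ t * (N : ℝ) ^ 2 := by
    intro k hk σ σ' ς ς'
    have h := hX.chaos ⟨k, hk⟩ σ σ' ς ς'
    have e1 : ∀ e, ph L ⟨k, hk⟩ (X e) = Ek L X k e := by
      intro e
      simp only [Ek, hk, dif_pos]
    simpa only [e1] using h
  have hop : ∀ k < L, ∀ κ ∈ intBall N, ∀ κ' ∈ intBall N,
      ∑ e : Fin N × Fin N, (κ e.1 : ℝ) * (κ' e.2 : ℝ) * Ek L X k e ≤ 160 * N * Real.sqrt N := by
    intro k hk κ hκ κ' hκ'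
    have h := hX.op ⟨k, hk⟩ κ hκ κ' hκ'
    have e1 : ∀ e, ph L ⟨k, hk⟩ (X e) = Ek L X k e := by
      intro e
      simp only [Ek, hk, dif_pos]
    simpa only [e1] using h
  -- the number of entries
  have hcount : ∀ k < L, |∑ e, |Ek L X k e| - wk q k * (N : ℝ) ^ 2| ≤ t * (N : ℝ) ^ 2 := by
    intro k hk
    have h := hcut k hk univ univ
    rw [Finset.univ_product_univ, Finset.sum_sub_distrib, Finset.sum_const, Finset.card_univ,
      Fintype.card_prod, Fintype.card_fin, nsmul_eq_mul] at h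
    have e1 : ((N * N : ℕ) : ℝ) * 2 ^ (-((k : ℝ) + 1) * q) = wk q k * (N : ℝ) ^ 2 := by
      unfold wk; push_cast; ring
    rwa [e1] at h
  have hww : ∀ k : ℕ, (2 : ℝ) ^ (((k : ℝ) + 1) * q) * wk q k = 1 := by
    intro k
    unfold wk
    rw [← Real.rpow_add (by norm_num)]
    have : ((k : ℝ) + 1) * q + -((k : ℝ) + 1) * q = 0 := by ring
    rw [this, Real.rpow_zero]
  have hsum : ∑ e, |th L X e| ^ q
      = ∑ k ∈ range L, 2 ^ (((k : ℝ) + 1) * q) * ∑ e, |Ek L X k e| := by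
    simp only [abs_th_pow L hq0, Finset.mul_sum]
    rw [Finset.sum_comm]
  have hup : ∑ e, |th L X e| ^ q ≤ (2 * L) * (N : ℝ) ^ 2 := by
    rw [hsum]
    calc ∑ k ∈ range L, 2 ^ (((k : ℝ) + 1) * q) * ∑ e, |Ek L X k e|
        ≤ ∑ k ∈ range L, ((N : ℝ) ^ 2 + 2 ^ (((k : ℝ) + 1) * q) * (t * (N : ℝ) ^ 2)) := by
          refine Finset.sum_le_sum fun k hk => ?_
          have h1 := (abs_le.1 (hcount k (Finset.mem_range.1 hk))).2
          have h2 : ∑ e, |Ek L X k e| ≤ wk q k * (N : ℝ) ^ 2 + t * (N : ℝ) ^ 2 := by linarith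
          have h3 := mul_le_mul_of_nonneg_left h2
            (show (0 : ℝ) ≤ 2 ^ (((k : ℝ) + 1) * q) by positivity)
          rw [mul_add, ← mul_assoc, hww, one_mul] at h3
          exact h3
      _ = L * (N : ℝ) ^ 2 + (S * t) * (N : ℝ) ^ 2 := by
          rw [Finset.sum_add_distrib, Finset.sum_const, Finset.card_range, nsmul_eq_mul,
            ← Finset.sum_mul]
          ring
      _ ≤ (2 * L) * (N : ℝ) ^ 2 := by
          have := mul_le_mul_of_nonneg_right hSt (sq_nonneg (N : ℝ))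
          have := mul_le_mul_of_nonneg_right hLr (sq_nonneg (N : ℝ))
          nlinarith
  have hlow : (1 / 2 * (L : ℝ)) * (N : ℝ) ^ 2 ≤ ∑ e, |th L X e| ^ q := by
    rw [hsum]
    calc (1 / 2 * (L : ℝ)) * (N : ℝ) ^ 2 ≤ L * (N : ℝ) ^ 2 - (S * t) * (N : ℝ) ^ 2 := by
          have := mul_le_mul_of_nonneg_right hSt (sq_nonneg (N : ℝ))
          have := mul_le_mul_of_nonneg_right hLr (sq_nonneg (N : ℝ))
          nlinarith
      _ = ∑ k ∈ range L, ((N : ℝ) ^ 2 - 2 ^ (((k : ℝ) + 1) * q) * (t * (N : ℝ) ^ 2)) := by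
          rw [Finset.sum_sub_distrib, Finset.sum_const, Finset.card_range, nsmul_eq_mul,
            ← Finset.sum_mul]
          ring
      _ ≤ ∑ k ∈ range L, 2 ^ (((k : ℝ) + 1) * q) * ∑ e, |Ek L X k e| := by
          refine Finset.sum_le_sum fun k hk => ?_
          have h1 := (abs_le.1 (hcount k (Finset.mem_range.1 hk))).1
          have h2 : wk q k * (N : ℝ) ^ 2 - t * (N : ℝ) ^ 2 ≤ ∑ e, |Ek L X k e| := by linarith
          have h3 := mul_le_mul_of_nonneg_left h2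
            (show (0 : ℝ) ≤ 2 ^ (((k : ℝ) + 1) * q) by positivity)
          rw [mul_sub, ← mul_assoc, hww, one_mul] at h3
          exact h3
  refine ⟨N, hN, L, hL1, th L X, hlow, ?_⟩
  intro I J _ _ μ ν x y hμ hν hμ1 hν1 hx hy
  -- truncation
  set x' : I → Fin N → ℝ := fun i => if ∑ m, |x i m| ^ q ≤ R then x i else 0 with hx'
  set y' : J → Fin N → ℝ := fun j => if ∑ l, |y j l| ^ q ≤ R then y j else 0 with hy'
  have hx'c : Contr q μ x' := hx.restrict hq0 hμ _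
  have hy'c : Contr q ν y' := hy.restrict hq0 hν _
  have hx'R : ∀ i, ∑ m, |x' i m| ^ q ≤ R := by
    intro i
    simp only [hx']
    split_ifs with h
    · exact h
    · simp only [Pi.zero_apply, abs_zero, Real.zero_rpow hq0.ne', Finset.sum_const_zero]
      exact hR.le
  have hy'R : ∀ j, ∑ l, |y' j l| ^ q ≤ R := by
    intro i
    simp only [hy']
    split_ifs with h
    · exact h
    · simp only [Pi.zero_apply, abs_zero, Real.zero_rpow hq0.ne', Finset.sum_const_zero]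
      exact hR.le
  set s : ℝ := s0 * (L : ℝ) ^ (1 / q) with hsdef
  have hspos : 0 < s := by positivity
  have hbad := part_bad hq1.le hN hμ hμ1 hν hν1 hx hy (th L X) hR hspos hup x' y'
    (fun i h => by simp only [hx']; rw [if_pos h]) (fun j h => by simp only [hy']; rw [if_pos h])
  have hbad2 : s ^ (1 - q) * (2 * L) + 2 * s / R ≤ ε / 4 * (L : ℝ) ^ (1 / q) := by
    have e1 : s ^ (1 - q) * (2 * L) = 2 * s0 ^ (1 - q) * (L : ℝ) ^ (1 / q) := by
      rw [hsdef, Real.mul_rpow hs0.le hLq0.le, ← Real.rpow_mul hLp.le]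
      have e2 : (L : ℝ) ^ (1 / q * (1 - q)) * L = (L : ℝ) ^ (1 / q) := by
        nth_rewrite 2 [← Real.rpow_one (L : ℝ)]
        rw [← Real.rpow_add hLp]
        congr 1
        field_simp
        ring
      calc s0 ^ (1 - q) * (L : ℝ) ^ (1 / q * (1 - q)) * (2 * L)
          = 2 * s0 ^ (1 - q) * ((L : ℝ) ^ (1 / q * (1 - q)) * L) := by ring
        _ = _ := by rw [e2]
    have e3 : 2 * s / R = ε / 8 * (L : ℝ) ^ (1 / q) := by
      rw [hsdef, hRdef]; field_simp; norm_num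
    rw [e1, e3]
    have := mul_le_mul_of_nonneg_right hs hLq0.le
    linarith
  set κ1 : ℝ := ((1 : ℝ) / 2) ^ a1 with hκ1
  set κ2 : ℝ := ((1 : ℝ) / 2) ^ a2 with hκ2
  have hκ1p : 0 < κ1 := by positivity
  have hκ2p : 0 < κ2 := by positivity
  set yl : J → Fin N → ℝ := fun j l => lo κ2 (y' j l) with hyl
  set yh : J → Fin N → ℝ := fun j l => hi κ2 (y' j l) with hyh
  set xl : I → Fin N → ℝ := fun i l => lo κ1 (x' i l) with hxl
  set xh : I → Fin N → ℝ := fun i l => hi κ1 (x' i l) with hxh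
  have hpowle : ∀ {z w : ℝ}, |z| ≤ |w| → |z| ^ q ≤ |w| ^ q := fun h =>
    Real.rpow_le_rpow (abs_nonneg _) h hq0.le
  have hylR : ∀ j, ∑ l, |yl j l| ^ q ≤ R := fun j =>
    (Finset.sum_le_sum fun l _ => hpowle (abs_lo_le' _ _)).trans (hy'R j)
  have hyhR : ∀ j, ∑ l, |yh j l| ^ q ≤ R := fun j =>
    (Finset.sum_le_sum fun l _ => hpowle (abs_hi_le _ _)).trans (hy'R j)
  have hxlR : ∀ j, ∑ l, |xl j l| ^ q ≤ R := fun j =>
    (Finset.sum_le_sum fun l _ => hpowle (abs_lo_le' _ _)).trans (hx'R j)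
  have hxhR : ∀ j, ∑ l, |xh j l| ^ q ≤ R := fun j =>
    (Finset.sum_le_sum fun l _ => hpowle (abs_hi_le _ _)).trans (hx'R j)
  have hxm : ∀ m, ∑ i, μ i * |xh i m| ^ q ≤ 1 / N := fun m =>
    (Finset.sum_le_sum fun i _ => mul_le_mul_of_nonneg_left (hpowle (abs_hi_le _ _)) (hμ i)).trans
      (hx'c.mass hq0 m)
  have hym : ∀ m, ∑ i, ν i * |yh i m| ^ q ≤ 1 / N := fun m =>
    (Finset.sum_le_sum fun i _ => mul_le_mul_of_nonneg_left (hpowle (abs_hi_le _ _)) (hν i)).trans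
      (hy'c.mass hq0 m)
  have hxlev : ∀ i m, xh i m = 0 ∨ Int.log 2 |xh i m| ∈ Finset.Icc (-(a1 : ℤ)) (b : ℤ) :=
    fun i m => hi_level hq0 hR.le (le_refl a1) hb
      ((Finset.single_le_sum (f := fun m => |x' i m| ^ q) (fun _ _ => by positivity)
        (Finset.mem_univ m)).trans (hx'R i))
  have hylev : ∀ j l, yh j l = 0 ∨ Int.log 2 |yh j l| ∈ Finset.Icc (-(a1 : ℤ)) (b : ℤ) :=
    fun i m => hi_level hq0 hR.le ha12 hb
      ((Finset.single_le_sum (f := fun m => |y' i m| ^ q) (fun _ _ => by positivity)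
        (Finset.mem_univ m)).trans (hy'R i))
  have hsharp := hK N hN I J μ ν hμ hν hμ1 hν1 xh yh hxlev hylev hxhR hyhR hxm hym
    (Ek L X) (fun k _ e => Ek_sq L X k e) t ht0.le hcut hchaos
  have hpa : ∀ k ∈ range L, 2 ^ ((k : ℝ) + 1) * ∑ i, ∑ j, μ i * ν j *
      |bil (Ek L X k) (x' i) (yl j)|
      ≤ 2 ^ ((k : ℝ) + 1) * (60 * Real.sqrt (κ2 ^ (2 - q) * R)) := fun k hk =>
    mul_le_mul_of_nonneg_left (part_a hq1.le hq2.le hN hμ hμ1 hν hν1 hx'c yl hκ2p.le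
      (fun j l => abs_lo_le hκ2p.le _) hylR (Ek L X k) (hop k (Finset.mem_range.1 hk)))
      (by positivity)
  have hpb : ∀ k ∈ range L, 2 ^ ((k : ℝ) + 1) * ∑ i, ∑ j, μ i * ν j *
      |bil (Ek L X k) (xl i) (yh j)|
      ≤ 2 ^ ((k : ℝ) + 1) * (20 * κ2 ^ (1 - q) * Real.sqrt (κ1 ^ (2 - q) * R)) := fun k hk =>
    mul_le_mul_of_nonneg_left (part_b hq2.le hN hμ hμ1 hν y' (fun l => hy'c.mass hq0 l) yh
      (by positivity) (fun j l => hi_le hq1.le hκ2p _) xl hκ1p.le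
      (fun j l => abs_lo_le hκ1p.le _) hxlR (Ek L X k) (hop k (Finset.mem_range.1 hk)))
      (by positivity)
  have hA := Finset.sum_le_sum hpa
  have hB := Finset.sum_le_sum hpb
  rw [← Finset.sum_mul, ← hG] at hA hB
  have hA2 : G * (60 * Real.sqrt (κ2 ^ (2 - q) * R)) ≤ ε / 8 := by
    rw [← mul_assoc]; exact ha2
  have hB2 : G * (20 * κ2 ^ (1 - q) * Real.sqrt (κ1 ^ (2 - q) * R)) ≤ ε / 8 := by
    rw [← mul_assoc]; exact ha1
  have hC : C1 q + K * t + Real.sqrt (L * (C2 q + K * t)) ≤ ε / 2 * (L : ℝ) ^ (1 / q) := by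
    refine le_trans (add_le_add (by linarith) (Real.sqrt_le_sqrt ?_)) hL
    exact mul_le_mul_of_nonneg_left (by linarith) hLp.le
  -- combination
  have hsplit : ∑ i, ∑ j, μ i * ν j * |bil (th L X) (x' i) (y' j)|
      ≤ (∑ k ∈ range L, 2 ^ ((k : ℝ) + 1) * ∑ i, ∑ j, μ i * ν j *
          |bil (Ek L X k) (x' i) (yl j)|)
        + (∑ k ∈ range L, 2 ^ ((k : ℝ) + 1) * ∑ i, ∑ j, μ i * ν j *
          |bil (Ek L X k) (xl i) (yh j)|)
        + (∑ k ∈ range L, 2 ^ ((k : ℝ) + 1) * ∑ i, ∑ j, μ i * ν j *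
          |bil (Ek L X k) (xh i) (yh j)|) := by
    have e1 : ∀ (u : I → Fin N → ℝ) (v : J → Fin N → ℝ),
        ∑ k ∈ range L, 2 ^ ((k : ℝ) + 1) * ∑ i, ∑ j, μ i * ν j * |bil (Ek L X k) (u i) (v j)|
        = ∑ i, ∑ j, μ i * ν j * ∑ k ∈ range L, 2 ^ ((k : ℝ) + 1) *
            |bil (Ek L X k) (u i) (v j)| := by
      intro u v
      simp only [Finset.mul_sum]
      rw [Finset.sum_comm]
      refine Finset.sum_congr rfl fun i _ => ?_
      rw [Finset.sum_comm]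
      exact Finset.sum_congr rfl fun j _ => Finset.sum_congr rfl fun k _ => by ring
    rw [e1, e1, e1, ← Finset.sum_add_distrib, ← Finset.sum_add_distrib]
    refine Finset.sum_le_sum fun i _ => ?_
    rw [← Finset.sum_add_distrib, ← Finset.sum_add_distrib]
    refine Finset.sum_le_sum fun j _ => ?_
    rw [← mul_add, ← mul_add]
    refine mul_le_mul_of_nonneg_left ?_ (mul_nonneg (hμ i) (hν j))
    refine (abs_bil_th_le L X _ _).trans ?_
    rw [← Finset.sum_add_distrib, ← Finset.sum_add_distrib]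
    refine Finset.sum_le_sum fun k _ => ?_
    rw [← mul_add, ← mul_add]
    refine mul_le_mul_of_nonneg_left ?_ (by positivity)
    have e2 : bil (Ek L X k) (x' i) (y' j) = bil (Ek L X k) (x' i) (yl j)
        + bil (Ek L X k) (xl i) (yh j) + bil (Ek L X k) (xh i) (yh j) := by
      unfold bil
      rw [← Finset.sum_add_distrib, ← Finset.sum_add_distrib]
      refine Finset.sum_congr rfl fun e _ => ?_
      have e3 := lo_add_hi κ1 (x' i e.1)
      have e4 := lo_add_hi κ2 (y' j e.2)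
      simp only [hyl, hyh, hxl, hxh]
      calc x' i e.1 * y' j e.2 * Ek L X k e
          = x' i e.1 * (lo κ2 (y' j e.2) + hi κ2 (y' j e.2)) * Ek L X k e := by rw [e4]
        _ = x' i e.1 * lo κ2 (y' j e.2) * Ek L X k e
            + x' i e.1 * hi κ2 (y' j e.2) * Ek L X k e := by ring
        _ = x' i e.1 * lo κ2 (y' j e.2) * Ek L X k e
            + (lo κ1 (x' i e.1) + hi κ1 (x' i e.1)) * hi κ2 (y' j e.2) * Ek L X k e := by rw [e3]
        _ = _ := by ring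
    rw [e2]
    exact (abs_add_le _ _).trans (add_le_add (abs_add_le _ _) (le_refl _))
  have hfin1 : ε / 8 ≤ ε / 8 * (L : ℝ) ^ (1 / q) := by
    have := mul_le_mul_of_nonneg_left hLq (show 0 ≤ ε / 8 by positivity)
    linarith
  calc ∑ i, ∑ j, μ i * ν j * |bil (th L X) (x i) (y j)|
      ≤ ∑ i, ∑ j, μ i * ν j * |bil (th L X) (x' i) (y' j)| + ε / 4 * (L : ℝ) ^ (1 / q) :=
        hbad.trans (by linarith)
    _ ≤ (ε / 8 + ε / 8 + ε / 2 * (L : ℝ) ^ (1 / q)) + ε / 4 * (L : ℝ) ^ (1 / q) := by linarith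
    _ ≤ ε * (L : ℝ) ^ (1 / q) := by linarith

/-- the key proposition -/
theorem key_finite {q : ℝ} (hq1 : 1 < q) (hq2 : q < 2) {ε : ℝ} (hε : 0 < ε) :
    ∃ N : ℕ, 1 ≤ N ∧ ∃ T : Fin N → Fin N → ℝ,
      1 / 2 ≤ ∑ m, ∑ l, |T m l| ^ q ∧
      ∀ (I J : Type) [Fintype I] [Fintype J] (μ : I → ℝ) (ν : J → ℝ)
        (x : I → Fin N → ℝ) (y : J → Fin N → ℝ), (∀ i, 0 ≤ μ i) → (∀ j, 0 ≤ ν j) →
        ∑ i, μ i ≤ 1 → ∑ j, ν j ≤ 1 →
        (∀ c : Fin N → ℝ, ∑ i, μ i * |∑ m, c m * x i m| ^ q ≤ ∑ m, |c m| ^ q) →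
        (∀ c : Fin N → ℝ, ∑ j, ν j * |∑ l, c l * y j l| ^ q ≤ ∑ l, |c l| ^ q) →
        ∑ i, ∑ j, μ i * ν j * |∑ m, ∑ l, T m l * x i m * y j l| ≤ ε := by
  have hq0 : 0 < q := by linarith
  obtain ⟨N, hN, L, hL, θ, hθ, h⟩ := key_norm hq1 hq2 hε
  have hN0 : (0 : ℝ) < N := by exact_mod_cast hN
  have hL0 : (0 : ℝ) < L := by exact_mod_cast hL
  set ρ : ℝ := (N : ℝ) ^ (-(1 / q)) with hρ
  have hρ0 : 0 < ρ := by positivity
  have hρq : ρ ^ q = 1 / N := by
    rw [hρ, ← Real.rpow_mul hN0.le]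
    have : -(1 / q) * q = -1 := by field_simp
    rw [this, Real.rpow_neg_one, one_div]
  set lam : ℝ := (L : ℝ) ^ (-(1 / q)) with hlam
  have hlam0 : 0 < lam := by positivity
  have hlamq : lam ^ q = 1 / L := by
    rw [hlam, ← Real.rpow_mul hL0.le]
    have : -(1 / q) * q = -1 := by field_simp
    rw [this, Real.rpow_neg_one, one_div]
  refine ⟨N, hN, fun m l => ρ * ρ * lam * θ (m, l), ?_, ?_⟩
  · have e1 : ∑ m, ∑ l, |ρ * ρ * lam * θ (m, l)| ^ q
        = (1 / N * (1 / N) * (1 / L)) * ∑ e, |θ e| ^ q := by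
      rw [← Finset.univ_product_univ, Finset.sum_product, Finset.mul_sum]
      refine Finset.sum_congr rfl fun m _ => ?_
      rw [Finset.mul_sum]
      refine Finset.sum_congr rfl fun l _ => ?_
      rw [abs_mul, Real.mul_rpow (abs_nonneg _) (abs_nonneg _), abs_of_pos (by positivity),
        Real.mul_rpow (by positivity) hlam0.le, Real.mul_rpow hρ0.le hρ0.le, hρq, hlamq]
    rw [e1]
    have e2 := mul_le_mul_of_nonneg_left hθ
      (show (0 : ℝ) ≤ 1 / N * (1 / N) * (1 / L) by positivity)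
    refine le_trans (le_of_eq ?_) e2
    field_simp
  · intro I J _ _ μ ν x y hμ hν hμ1 hν1 hx hy
    have key : ∀ {I : Type} [Fintype I] (μ : I → ℝ) (x : I → Fin N → ℝ),
        (∀ c : Fin N → ℝ, ∑ i, μ i * |∑ m, c m * x i m| ^ q ≤ ∑ m, |c m| ^ q) →
        Contr q μ (fun i m => ρ * x i m) := by
      intro I _ μ x hx c
      have e1 : ∀ i, |∑ m, c m * (ρ * x i m)| ^ q = 1 / N * |∑ m, c m * x i m| ^ q := by
        intro i
        have : ∑ m, c m * (ρ * x i m) = ρ * ∑ m, c m * x i m := by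
          rw [Finset.mul_sum]; exact Finset.sum_congr rfl fun m _ => by ring
        rw [this, abs_mul, Real.mul_rpow (abs_nonneg _) (abs_nonneg _), abs_of_pos hρ0, hρq]
      simp only [e1]
      calc ∑ i, μ i * (1 / N * |∑ m, c m * x i m| ^ q)
          = 1 / N * ∑ i, μ i * |∑ m, c m * x i m| ^ q := by
            rw [Finset.mul_sum]; exact Finset.sum_congr rfl fun m _ => by ring
        _ ≤ 1 / N * ∑ m, |c m| ^ q := mul_le_mul_of_nonneg_left (hx c) (by positivity)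
    have h1 := h I J μ ν _ _ hμ hν hμ1 hν1 (key μ x hx) (key ν y hy)
    have e1 : ∀ i j, ∑ m, ∑ l, ρ * ρ * lam * θ (m, l) * x i m * y j l
        = lam * bil θ (fun m => ρ * x i m) (fun l => ρ * y j l) := by
      intro i j
      unfold bil
      rw [← Finset.univ_product_univ, Finset.sum_product, Finset.mul_sum]
      refine Finset.sum_congr rfl fun m _ => ?_
      rw [Finset.mul_sum]
      exact Finset.sum_congr rfl fun l _ => by ring
    calc ∑ i, ∑ j, μ i * ν j * |∑ m, ∑ l, ρ * ρ * lam * θ (m, l) * x i m * y j l|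
        = lam * ∑ i, ∑ j, μ i * ν j * |bil θ (fun m => ρ * x i m) (fun l => ρ * y j l)| := by
          rw [Finset.mul_sum]
          refine Finset.sum_congr rfl fun i _ => ?_
          rw [Finset.mul_sum]
          refine Finset.sum_congr rfl fun j _ => ?_
          rw [e1, abs_mul, abs_of_pos hlam0]; ring
      _ ≤ lam * (ε * (L : ℝ) ^ (1 / q)) := mul_le_mul_of_nonneg_left h1 hlam0.le
      _ = ε := by
          rw [hlam, Real.rpow_neg hL0.le]
          have : (L : ℝ) ^ (1 / q) ≠ 0 := by positivity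
          field_simp

end Pool.Agent.MP_119be6_an
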