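import Pool.Agent.Lib.MP_119be6_an.HighLow

/-!
Dyadic levels and geometric sums.
-/

namespace Pool.Agent.MP_119be6_an

open Finset

/-- the part of `t` at dyadic level `r` -/
noncomputable def xr (r : ℤ) (t : ℝ) : ℝ :=
  if t ≠ 0 ∧ Int.log 2 |t| = r then t else 0

lemma xr_of (r : ℤ) {t : ℝ} (h0 : t ≠ 0) (h : Int.log 2 |t| = r) : xr r t = t := by
  unfold xr; rw [if_pos ⟨h0, h⟩]

lemma xr_zero (r : ℤ) : xr r 0 = 0 := by simp [xr]

lemma two_rpow_le {r : ℤ} {t : ℝ} (h0 : t ≠ 0) (h : Int.log 2 |t| = r) :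
    (2 : ℝ) ^ (r : ℝ) ≤ |t| := by
  have h1 : (0 : ℝ) < |t| := abs_pos.2 h0
  have := Int.zpow_log_le_self (b := 2) (by norm_num) h1
  rw [h] at this
  rw [Real.rpow_intCast]
  exact_mod_cast this

lemma lt_two_rpow {r : ℤ} {t : ℝ} (h : Int.log 2 |t| = r) :
    |t| < (2 : ℝ) ^ ((r : ℝ) + 1) := by
  have := Int.lt_zpow_succ_log_self (b := 2) (by norm_num) |t|
  rw [h] at this
  have e : ((r : ℝ) + 1) = ((r + 1 : ℤ) : ℝ) := by push_cast; ring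
  rw [e, Real.rpow_intCast]
  exact_mod_cast this

lemma abs_xr_le {q : ℝ} (hq : 1 ≤ q) (r : ℤ) (t : ℝ) :
    |xr r t| ≤ 2 ^ ((r : ℝ) * (1 - q)) * |xr r t| ^ q := by
  unfold xr
  split_ifs with h
  · have h1 : (0 : ℝ) < |t| := abs_pos.2 h.1
    have h2 := two_rpow_le h.1 h.2
    have h3 : |t| ^ (1 - q) ≤ ((2 : ℝ) ^ (r : ℝ)) ^ (1 - q) :=
      Real.rpow_le_rpow_of_nonpos (by positivity) h2 (by linarith)
    calc |t| = |t| ^ (1 - q) * |t| ^ q := by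
          rw [← Real.rpow_add h1]; simp
      _ ≤ ((2 : ℝ) ^ (r : ℝ)) ^ (1 - q) * |t| ^ q :=
          mul_le_mul_of_nonneg_right h3 (by positivity)
      _ = 2 ^ ((r : ℝ) * (1 - q)) * |t| ^ q := by
          rw [← Real.rpow_mul (by norm_num)]
  · rw [abs_zero]; positivity

lemma sq_xr_le {q : ℝ} (hq : q ≤ 2) (r : ℤ) (t : ℝ) :
    xr r t ^ 2 ≤ 2 ^ (((r : ℝ) + 1) * (2 - q)) * |xr r t| ^ q := by
  unfold xr
  split_ifs with h
  · have h1 : (0 : ℝ) < |t| := abs_pos.2 h.1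
    have h2 := (lt_two_rpow h.2).le
    have h3 : |t| ^ (2 - q) ≤ ((2 : ℝ) ^ ((r : ℝ) + 1)) ^ (2 - q) :=
      Real.rpow_le_rpow h1.le h2 (by linarith)
    calc t ^ 2 = |t| ^ (2 - q) * |t| ^ q := by
          rw [← Real.rpow_add h1, ← sq_abs]
          simp
      _ ≤ ((2 : ℝ) ^ ((r : ℝ) + 1)) ^ (2 - q) * |t| ^ q :=
          mul_le_mul_of_nonneg_right h3 (by positivity)
      _ = 2 ^ (((r : ℝ) + 1) * (2 - q)) * |t| ^ q := by
          rw [← Real.rpow_mul (by norm_num)]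
  · have : (0 : ℝ) ^ 2 = 0 := by norm_num
    rw [this]; positivity

lemma xr_mul_xr {r ρ : ℤ} (h : r ≠ ρ) (t : ℝ) : xr r t * xr ρ t = 0 := by
  unfold xr
  by_cases h1 : t ≠ 0 ∧ Int.log 2 |t| = r
  · by_cases h2 : t ≠ 0 ∧ Int.log 2 |t| = ρ
    · exact absurd (h1.2.symm.trans h2.2) h
    · rw [if_neg h2]; ring
  · rw [if_neg h1]; ring

lemma sum_xr_pow_le {q : ℝ} (hq : 0 < q) (S : Finset ℤ) (t : ℝ) :
    ∑ r ∈ S, |xr r t| ^ q ≤ |t| ^ q := by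
  by_cases h0 : t = 0
  · subst h0
    simp [xr_zero, Real.zero_rpow hq.ne']
  · have h1 : ∀ r ∈ S, |xr r t| ^ q = if Int.log 2 |t| = r then |t| ^ q else 0 := by
      intro r _
      unfold xr
      by_cases h : Int.log 2 |t| = r
      · simp [h, h0]
      · simp [h, Real.zero_rpow hq.ne']
    rw [Finset.sum_congr rfl h1, Finset.sum_ite_eq]
    split_ifs
    · exact le_refl _
    · positivity

lemma sum_xr {S : Finset ℤ} {t : ℝ} (h : t = 0 ∨ Int.log 2 |t| ∈ S) :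
    ∑ r ∈ S, xr r t = t := by
  by_cases h0 : t = 0
  · subst h0; simp [xr_zero]
  · have h1 : ∀ r ∈ S, xr r t = if Int.log 2 |t| = r then t else 0 := by
      intro r _
      unfold xr
      by_cases h : Int.log 2 |t| = r
      · simp [h, h0]
      · simp [h]
    have h2 : Int.log 2 |t| ∈ S := by
      rcases h with h | h
      · exact absurd h h0
      · exact h
    rw [Finset.sum_congr rfl h1, Finset.sum_ite_eq, if_pos h2]

lemma geo_inj {S : Finset ℕ} {x : ℝ} (hx0 : 0 ≤ x) (hx1 : x < 1) (j : ℕ → ℕ)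
    (hj : Set.InjOn j S) : ∑ k ∈ S, x ^ j k ≤ 1 / (1 - x) := by
  rw [← Finset.sum_image (f := fun n => x ^ n) (g := j) (fun a ha b hb hab => hj ha hb hab)]
  rw [one_div, ← tsum_geometric_of_lt_one hx0 hx1]
  exact (summable_geometric_of_lt_one hx0 hx1).sum_le_tsum _ (fun n _ => by positivity)

lemma geo_high {δ : ℝ} (hδ : 0 < δ) (n : ℤ) (L : ℕ) :
    ∑ k ∈ (Finset.range L).filter (fun k : ℕ => 0 < n + ((k : ℤ) + 1) + 2),
      (2 : ℝ) ^ (-(((k : ℝ) + 1) + n) * δ) ≤ 2 ^ δ * (1 / (1 - 2 ^ (-δ))) := by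
  have hx0 : (0 : ℝ) ≤ 2 ^ (-δ) := by positivity
  have hx1 : (2 : ℝ) ^ (-δ) < 1 := Real.rpow_lt_one_of_one_lt_of_neg (by norm_num) (by linarith)
  have h1 : ∀ k ∈ (Finset.range L).filter (fun k : ℕ => 0 < n + ((k : ℤ) + 1) + 2),
      (2 : ℝ) ^ (-(((k : ℝ) + 1) + n) * δ)
        = 2 ^ δ * ((2 : ℝ) ^ (-δ)) ^ ((n + ((k : ℤ) + 1) + 1).toNat) := by
    intro k hk
    rw [Finset.mem_filter] at hk
    rw [← Real.rpow_natCast, ← Real.rpow_mul (by norm_num), ← Real.rpow_add (by norm_num)]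
    congr 1
    have h2 : (((n + ((k : ℤ) + 1) + 1).toNat : ℕ) : ℝ) = (n : ℝ) + ((k : ℝ) + 1) + 1 := by
      have h3 : (((n + ((k : ℤ) + 1) + 1).toNat : ℕ) : ℤ) = n + ((k : ℤ) + 1) + 1 :=
        Int.toNat_of_nonneg (by omega)
      exact_mod_cast h3
    rw [h2]; ring
  rw [Finset.sum_congr rfl h1, ← Finset.mul_sum]
  refine mul_le_mul_of_nonneg_left ?_ (by positivity)
  refine geo_inj hx0 hx1 (fun k : ℕ => (n + ((k : ℤ) + 1) + 1).toNat) ?_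
  intro a ha b hb hab
  simp only [Finset.coe_filter, Finset.mem_range, Set.mem_ofPred_eq] at ha hb hab
  omega

lemma geo_low {δ : ℝ} (hδ : 0 < δ) (n : ℤ) (L : ℕ) :
    ∑ k ∈ (Finset.range L).filter (fun k : ℕ => ¬ (0 < n + ((k : ℤ) + 1) + 2)),
      (2 : ℝ) ^ ((((k : ℝ) + 1) + n + 2) * δ) ≤ 1 / (1 - 2 ^ (-δ)) := by
  have hx0 : (0 : ℝ) ≤ 2 ^ (-δ) := by positivity
  have hx1 : (2 : ℝ) ^ (-δ) < 1 := Real.rpow_lt_one_of_one_lt_of_neg (by norm_num) (by linarith)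
  have h1 : ∀ k ∈ (Finset.range L).filter (fun k : ℕ => ¬ (0 < n + ((k : ℤ) + 1) + 2)),
      (2 : ℝ) ^ ((((k : ℝ) + 1) + n + 2) * δ)
        = ((2 : ℝ) ^ (-δ)) ^ ((-(n + ((k : ℤ) + 1) + 2)).toNat) := by
    intro k hk
    rw [Finset.mem_filter] at hk
    rw [← Real.rpow_natCast, ← Real.rpow_mul (by norm_num)]
    congr 1
    have h2 : (((-(n + ((k : ℤ) + 1) + 2)).toNat : ℕ) : ℝ) = -((n : ℝ) + ((k : ℝ) + 1) + 2) := by
      have h3 : (((-(n + ((k : ℤ) + 1) + 2)).toNat : ℕ) : ℤ) = -(n + ((k : ℤ) + 1) + 2) :=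
        Int.toNat_of_nonneg (by omega)
      exact_mod_cast h3
    rw [h2]; ring
  rw [Finset.sum_congr rfl h1]
  refine geo_inj hx0 hx1 (fun k : ℕ => (-(n + ((k : ℤ) + 1) + 2)).toNat) ?_
  intro a ha b hb hab
  simp only [Finset.coe_filter, Finset.mem_range, Set.mem_ofPred_eq] at ha hb hab
  omega

end Pool.Agent.MP_119be6_an
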