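import Mathlib

/-!
Pieces of `L^r` functions along finite measurable partitions.
-/

namespace Pool.Agent.MP_119be6_an

open MeasureTheory
open scoped ENNReal

section

variable {Ω : Type} [MeasurableSpace Ω] {μ : Measure Ω} {r : ℝ≥0∞}

lemma lp_norm_rpow (h0 : r ≠ 0) (h1 : r ≠ ∞) (f : Lp ℝ r μ) :
    ‖f‖ ^ r.toReal = ∫ x, |f x| ^ r.toReal ∂μ := by
  have hr : 0 < r.toReal := ENNReal.toReal_pos h0 h1
  have h2 : 0 ≤ ∫ x, ‖f x‖ ^ r.toReal ∂μ := integral_nonneg fun x => by positivity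
  rw [Lp.norm_def, (Lp.memLp f).eLpNorm_eq_integral_rpow_norm h0 h1, ENNReal.toReal_ofReal
    (by positivity), ← Real.rpow_mul h2, inv_mul_cancel₀ hr.ne', Real.rpow_one]
  simp only [Real.norm_eq_abs]

lemma lp_integrable_rpow (h0 : r ≠ 0) (h1 : r ≠ ∞) (f : Lp ℝ r μ) :
    Integrable (fun x => |f x| ^ r.toReal) μ := by
  have := (Lp.memLp f).integrable_norm_rpow h0 h1
  simpa only [Real.norm_eq_abs] using this

variable {ι : Type}

/-- the restriction of `f` to the fibre of `κ` over `v` -/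
noncomputable def pc {κ : Ω → ι} (hκ : ∀ v, MeasurableSet (κ ⁻¹' {v})) (v : ι) (f : Lp ℝ r μ) :
    Lp ℝ r μ := ((Lp.memLp f).indicator (hκ v)).toLp _

lemma pc_ae {κ : Ω → ι} (hκ : ∀ v, MeasurableSet (κ ⁻¹' {v})) (v : ι) (f : Lp ℝ r μ) :
    pc hκ v f =ᵐ[μ] (κ ⁻¹' {v}).indicator f := MemLp.coeFn_toLp _

lemma sum_pc_ae [Fintype ι] {κ : Ω → ι} (hκ : ∀ v, MeasurableSet (κ ⁻¹' {v})) (f : Lp ℝ r μ)
    (d : ι → ℝ) :
    (∑ v, d v • pc hκ v f : Lp ℝ r μ) =ᵐ[μ] fun x => d (κ x) * f x := by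
  classical
  have h1 : ∀ s : Finset ι, (∑ v ∈ s, d v • pc hκ v f : Lp ℝ r μ) =ᵐ[μ]
      fun x => ∑ v ∈ s, d v * (κ ⁻¹' {v}).indicator f x := by
    intro s
    induction s using Finset.induction_on with
    | empty =>
      simp only [Finset.sum_empty]
      exact Lp.coeFn_zero _ _ _
    | insert a s ha ih =>
      rw [Finset.sum_insert ha]
      filter_upwards [Lp.coeFn_add (d a • pc hκ a f) (∑ v ∈ s, d v • pc hκ v f), ih,
        Lp.coeFn_smul (d a) (pc hκ a f), pc_ae hκ a f] with x h1 h2 h3 h4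
      rw [h1, Pi.add_apply, h2, h3, Pi.smul_apply, h4, Finset.sum_insert ha, smul_eq_mul]
  filter_upwards [h1 Finset.univ] with x hx
  rw [hx, Finset.sum_eq_single (κ x)]
  · rw [Set.indicator_of_mem (by simp)]
  · intro b _ hb
    rw [Set.indicator_of_notMem (by simpa using fun h => hb h.symm), mul_zero]
  · intro h; exact absurd (Finset.mem_univ _) h

lemma sum_pc [Fintype ι] {κ : Ω → ι} (hκ : ∀ v, MeasurableSet (κ ⁻¹' {v})) (f : Lp ℝ r μ) :
    ∑ v, pc hκ v f = f := by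
  apply Lp.ext
  have h1 := sum_pc_ae hκ f (fun _ => 1)
  simp only [one_smul, one_mul] at h1
  exact h1

lemma norm_sum_pc [Fintype ι] (h0 : r ≠ 0) (h1 : r ≠ ∞) {κ : Ω → ι}
    (hκ : ∀ v, MeasurableSet (κ ⁻¹' {v})) (f : Lp ℝ r μ) (d : ι → ℝ) :
    ‖∑ v, d v • pc hκ v f‖ ^ r.toReal = ∑ v, |d v| ^ r.toReal * ‖pc hκ v f‖ ^ r.toReal := by
  classical
  have hr : 0 < r.toReal := ENNReal.toReal_pos h0 h1
  rw [lp_norm_rpow h0 h1]
  simp only [lp_norm_rpow h0 h1 (pc hκ _ f)]
  simp only [← integral_const_mul]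
  rw [← integral_finset_sum _ (fun v _ => (lp_integrable_rpow h0 h1 _).const_mul _)]
  refine integral_congr_ae ?_
  have h2 : ∀ᵐ x ∂μ, ∀ v, pc hκ v f x = (κ ⁻¹' {v}).indicator f x :=
    ae_all_iff.2 fun v => pc_ae hκ v f
  filter_upwards [sum_pc_ae hκ f d, h2] with x hx h3
  rw [hx, Finset.sum_eq_single (κ x)]
  · rw [h3, Set.indicator_of_mem (by simp), abs_mul, Real.mul_rpow (abs_nonneg _) (abs_nonneg _)]
  · intro b _ hb
    rw [h3, Set.indicator_of_notMem (by simpa using fun h => hb h.symm), abs_zero,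
      Real.zero_rpow hr.ne', mul_zero]
  · intro h; exact absurd (Finset.mem_univ _) h

lemma sum_norm_pc [Fintype ι] (h0 : r ≠ 0) (h1 : r ≠ ∞) {κ : Ω → ι}
    (hκ : ∀ v, MeasurableSet (κ ⁻¹' {v})) (f : Lp ℝ r μ) :
    ∑ v, ‖pc hκ v f‖ ^ r.toReal = ‖f‖ ^ r.toReal := by
  have h2 := norm_sum_pc h0 h1 hκ f (fun _ => 1)
  simp only [one_smul, abs_one, Real.one_rpow, one_mul] at h2
  rw [← h2, sum_pc]

end

/-- finite dimensional duality with weights -/
theorem fin_dual {P Q : ℝ} (hPQ : P.HolderConjugate Q) {ι : Type*} [Fintype ι] (w b : ι → ℝ)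
    (hw : ∀ v, 0 ≤ w v) (K : ℝ) (hK : 0 ≤ K)
    (h : ∀ d : ι → ℝ, ∑ v, d v * b v ≤ K * (∑ v, w v * |d v| ^ P) ^ (1 / P)) :
    ∑ v, w v * |b v / w v| ^ Q ≤ K ^ Q := by
  have hP : 1 < P := hPQ.lt
  have hQ : 1 < Q := hPQ.symm.lt
  set A := ∑ v, w v * |b v / w v| ^ Q with hA
  have hA0 : 0 ≤ A := Finset.sum_nonneg fun v _ => mul_nonneg (hw v) (by positivity)
  set d : ι → ℝ := fun v => SignType.sign (b v / w v) * |b v / w v| ^ (Q - 1) with hd
  have h1 : ∀ v, d v * b v = w v * |b v / w v| ^ Q := by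
    intro v
    simp only [hd]
    rcases (hw v).eq_or_lt with h0 | h0
    · rw [← h0, div_zero]; simp
    · rcases eq_or_ne (b v) 0 with hb | hb
      · simp [hb, Real.zero_rpow (show Q ≠ 0 by linarith)]
      · have hz : 0 < |b v / w v| := abs_pos.2 (div_ne_zero hb h0.ne')
        have h2 : b v = w v * (b v / w v) := by field_simp
        have h3 : |b v / w v| ^ Q = |b v / w v| ^ (Q - 1) * |b v / w v| := by
          nth_rewrite 3 [← Real.rpow_one |b v / w v|]
          rw [← Real.rpow_add hz]; congr 1; ring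
        rw [h3]
        calc (SignType.sign (b v / w v) : ℝ) * |b v / w v| ^ (Q - 1) * b v
            = w v * (|b v / w v| ^ (Q - 1) * (SignType.sign (b v / w v) * (b v / w v))) := by
              nth_rewrite 3 [h2]; ring
          _ = _ := by rw [sign_mul_self]
  have h2 : ∀ v, w v * |d v| ^ P = w v * |b v / w v| ^ Q := by
    intro v
    simp only [hd]
    rcases eq_or_ne (b v / w v) 0 with h0 | h0
    · rw [h0]
      simp [Real.zero_rpow (show Q ≠ 0 by linarith), Real.zero_rpow (show P ≠ 0 by linarith)]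
    · have h4 : |(SignType.sign (b v / w v) : ℝ)| = 1 := by
        rcases lt_or_gt_of_ne h0 with h | h
        · simp [sign_neg h]
        · simp [sign_pos h]
      rw [abs_mul, h4, one_mul, abs_of_nonneg (by positivity), ← Real.rpow_mul (abs_nonneg _)]
      congr 2
      have := hPQ.sub_one_mul_conj
      have := hPQ.symm.sub_one_mul_conj
      linarith
  have h3 := h d
  simp only [h1, h2] at h3
  rw [← hA] at h3
  rcases hA0.eq_or_lt with h0 | h0
  · rw [← h0]; positivity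
  · have h5 : A ^ (1 / Q) ≤ K := by
      have e1 : A = A ^ (1 / Q) * A ^ (1 / P) := by
        rw [← Real.rpow_add h0]
        have := hPQ.inv_add_inv_eq_one
        rw [one_div, one_div, add_comm, this, Real.rpow_one]
      have e2 : 0 < A ^ (1 / P) := by positivity
      have e3 : A ^ (1 / Q) * A ^ (1 / P) ≤ K * A ^ (1 / P) := by rw [← e1]; exact h3
      exact le_of_mul_le_mul_right e3 e2
    calc A = (A ^ (1 / Q)) ^ Q := by
          rw [← Real.rpow_mul hA0, one_div_mul_cancel (by linarith), Real.rpow_one]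
      _ ≤ K ^ Q := Real.rpow_le_rpow (by positivity) h5 (by linarith)

end Pool.Agent.MP_119be6_an
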