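import Pool.Agent.Lib.MP_119be6_an.Config

/-!
The numerical condition of the union bound holds for all large `N`.
-/

namespace Pool.Agent.MP_119be6_an

open Finset Filter

lemma numeric_eventually (c : ℝ) (hc : 0 ≤ c) {t : ℝ} (ht : 0 < t) :
    ∀ᶠ N : ℕ in atTop, 1 ≤ N ∧
      c * ((Real.exp 16 * 3) ^ N) ^ 2 * Real.exp (-(50 * N))
      + c * (2 * (2 ^ N * 2 ^ N)) * Real.exp (-(t ^ 2 * N ^ 2 / 2))
      + c * ((N : ℝ) ^ N * (N : ℝ) ^ N * (2 ^ N * 2 ^ N)) *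
          Real.exp (-(t ^ 2 * N ^ 2 / 32)) < 1 := by
  have hcast : Tendsto (fun N : ℕ => (N : ℝ)) atTop atTop := tendsto_natCast_atTop_atTop
  have ht2 : 0 < t ^ 2 := by positivity
  have h1 : ∀ᶠ N : ℕ in atTop, 8 ≤ t ^ 2 * (N : ℝ) := by
    have : Tendsto (fun N : ℕ => t ^ 2 * (N : ℝ)) atTop atTop :=
      Tendsto.const_mul_atTop ht2 hcast
    exact this.eventually_ge_atTop 8
  have h2 : ∀ᶠ N : ℕ in atTop, 2 * Real.log N + 3 ≤ t ^ 2 * (N : ℝ) / 32 := by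
    have hlo := (Real.isLittleO_log_id_atTop.comp_tendsto hcast)
    have hb := hlo.bound (show (0 : ℝ) < t ^ 2 / 128 by positivity)
    have h3 : ∀ᶠ N : ℕ in atTop, 3 ≤ t ^ 2 * (N : ℝ) / 64 := by
      have : Tendsto (fun N : ℕ => t ^ 2 * (N : ℝ)) atTop atTop :=
        Tendsto.const_mul_atTop ht2 hcast
      filter_upwards [this.eventually_ge_atTop 192] with N hN
      linarith
    filter_upwards [hb, h3] with N hN hN3
    simp only [Function.comp_apply, id_eq, Real.norm_eq_abs] at hN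
    have e1 : |(N : ℝ)| = N := abs_of_nonneg (Nat.cast_nonneg N)
    rw [e1] at hN
    have e2 := le_abs_self (Real.log N)
    linarith
  have h3 : ∀ᶠ N : ℕ in atTop, 3 * c * Real.exp (-(N : ℝ)) < 1 := by
    have h4 : Tendsto (fun N : ℕ => 3 * c * Real.exp (-(N : ℝ))) atTop (nhds (3 * c * 0)) := by
      refine Tendsto.const_mul _ ?_
      exact Real.tendsto_exp_neg_atTop_nhds_zero.comp hcast
    rw [mul_zero] at h4
    exact h4.eventually_lt_const (by norm_num)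
  filter_upwards [h1, h2, h3, eventually_ge_atTop 1] with N hN1 hN2 hN3 hN4
  refine ⟨hN4, ?_⟩
  have hN0 : (1 : ℝ) ≤ N := by exact_mod_cast hN4
  have two_le : (2 : ℝ) ≤ Real.exp 1 := by
    have := Real.add_one_le_exp (1 : ℝ); linarith
  have two_pow : (2 : ℝ) ^ N ≤ Real.exp N := by
    calc (2 : ℝ) ^ N ≤ Real.exp 1 ^ N := pow_le_pow_left₀ (by norm_num) two_le N
      _ = Real.exp N := by rw [← Real.exp_nat_mul, mul_one]
  -- term 1
  have T1 : ((Real.exp 16 * 3) ^ N) ^ 2 * Real.exp (-(50 * (N : ℝ))) ≤ Real.exp (-(N : ℝ)) := by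
    have e3 : (3 : ℝ) ≤ Real.exp 2 := by
      have := Real.add_one_le_exp (2 : ℝ); linarith
    have e4 : (Real.exp 16 * 3) ^ N ≤ Real.exp (18 * N) := by
      calc (Real.exp 16 * 3) ^ N ≤ (Real.exp 16 * Real.exp 2) ^ N :=
            pow_le_pow_left₀ (by positivity) (mul_le_mul_of_nonneg_left e3 (Real.exp_pos _).le) N
        _ = Real.exp (18 * N) := by
            rw [← Real.exp_add, ← Real.exp_nat_mul]; ring_nf
    calc ((Real.exp 16 * 3) ^ N) ^ 2 * Real.exp (-(50 * (N : ℝ)))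
        ≤ (Real.exp (18 * N)) ^ 2 * Real.exp (-(50 * (N : ℝ))) :=
          mul_le_mul_of_nonneg_right (pow_le_pow_left₀ (by positivity) e4 2) (Real.exp_pos _).le
      _ = Real.exp (-(14 * (N : ℝ))) := by
          rw [← Real.exp_nat_mul, ← Real.exp_add]; push_cast; ring_nf
      _ ≤ Real.exp (-(N : ℝ)) := Real.exp_le_exp.2 (by linarith)
  have T2 : (2 * (2 ^ N * 2 ^ N)) * Real.exp (-(t ^ 2 * (N : ℝ) ^ 2 / 2))
      ≤ Real.exp (-(N : ℝ)) := by
    have e5 : (2 : ℝ) ≤ Real.exp N := by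
      calc (2 : ℝ) ≤ Real.exp 1 := two_le
        _ ≤ Real.exp N := Real.exp_le_exp.2 hN0
    calc (2 * (2 ^ N * 2 ^ N)) * Real.exp (-(t ^ 2 * (N : ℝ) ^ 2 / 2))
        ≤ (Real.exp N * (Real.exp N * Real.exp N)) * Real.exp (-(t ^ 2 * (N : ℝ) ^ 2 / 2)) := by
          gcongr
      _ = Real.exp (3 * N - t ^ 2 * (N : ℝ) ^ 2 / 2) := by
          rw [← Real.exp_add, ← Real.exp_add, ← Real.exp_add]; ring_nf
      _ ≤ Real.exp (-(N : ℝ)) := Real.exp_le_exp.2 (by nlinarith)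
  have T3 : ((N : ℝ) ^ N * (N : ℝ) ^ N * (2 ^ N * 2 ^ N)) *
      Real.exp (-(t ^ 2 * (N : ℝ) ^ 2 / 32)) ≤ Real.exp (-(N : ℝ)) := by
    have e6 : (N : ℝ) ^ N = Real.exp (N * Real.log N) := by
      rw [Real.exp_nat_mul, Real.exp_log (by linarith)]
    calc ((N : ℝ) ^ N * (N : ℝ) ^ N * (2 ^ N * 2 ^ N)) * Real.exp (-(t ^ 2 * (N : ℝ) ^ 2 / 32))
        ≤ (Real.exp (N * Real.log N) * Real.exp (N * Real.log N) * (Real.exp N * Real.exp N)) *
            Real.exp (-(t ^ 2 * (N : ℝ) ^ 2 / 32)) := by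
          rw [e6]; gcongr
      _ = Real.exp (2 * (N * Real.log N) + 2 * N - t ^ 2 * (N : ℝ) ^ 2 / 32) := by
          rw [← Real.exp_add, ← Real.exp_add, ← Real.exp_add, ← Real.exp_add]; ring_nf
      _ ≤ Real.exp (-(N : ℝ)) := Real.exp_le_exp.2 (by nlinarith)
  have T1' := mul_le_mul_of_nonneg_left T1 hc
  have T2' := mul_le_mul_of_nonneg_left T2 hc
  have T3' := mul_le_mul_of_nonneg_left T3 hc
  nlinarith [T1', T2', T3', hN3]

theorem exists_config {K A : Type*} [Fintype K] [Fintype A] {w : A → ℝ} (hw : ∀ a, 0 ≤ w a)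
    (hw1 : ∑ a, w a = 1) (φ ψ : K → A → ℝ) (hφ : ∀ k a, |φ k a| ≤ 1)
    (hφ0 : ∀ k, ∑ a, w a * φ k a = 0) (hψ : ∀ k a, |ψ k a| ≤ 1)
    (hψ0 : ∀ k, ∑ a, w a * ψ k a = 0) {t : ℝ} (ht : 0 < t) :
    ∃ N : ℕ, 1 ≤ N ∧ ∃ X : Fin N × Fin N → A, GoodConfig φ ψ t N X := by
  obtain ⟨N, hN1, hN2⟩ :=
    (numeric_eventually (Fintype.card K : ℝ) (Nat.cast_nonneg _) ht).exists
  exact ⟨N, hN1, config_of_numeric hw hw1 φ ψ hφ hφ0 hψ hψ0 ht hN1 hN2⟩

end Pool.Agent.MP_119be6_an
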