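import Pool.Agent.Lib.MP_119be6_an.Numeric

/-!
From integer test vectors to the operator norm bound.
-/

namespace Pool.Agent.MP_119be6_an

open Finset

section

variable {N : ℕ}

/-- the bilinear form of a matrix -/
def bil (E : Fin N × Fin N → ℝ) (u v : Fin N → ℝ) : ℝ :=
  ∑ e : Fin N × Fin N, u e.1 * v e.2 * E e

lemma bil_sub_left (E : Fin N × Fin N → ℝ) (u u' v : Fin N → ℝ) :
    bil E (fun m => u m - u' m) v = bil E u v - bil E u' v := by
  unfold bil; rw [← Finset.sum_sub_distrib]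
  exact Finset.sum_congr rfl fun e _ => by ring

lemma bil_sub_right (E : Fin N × Fin N → ℝ) (u v v' : Fin N → ℝ) :
    bil E u (fun m => v m - v' m) = bil E u v - bil E u v' := by
  unfold bil; rw [← Finset.sum_sub_distrib]
  exact Finset.sum_congr rfl fun e _ => by ring

lemma bil_smul_left (E : Fin N × Fin N → ℝ) (c : ℝ) (u v : Fin N → ℝ) :
    bil E (fun m => c * u m) v = c * bil E u v := by
  unfold bil; rw [Finset.mul_sum]
  exact Finset.sum_congr rfl fun e _ => by ring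

lemma bil_smul_right (E : Fin N × Fin N → ℝ) (c : ℝ) (u v : Fin N → ℝ) :
    bil E u (fun m => c * v m) = c * bil E u v := by
  unfold bil; rw [Finset.mul_sum]
  exact Finset.sum_congr rfl fun e _ => by ring

/-- rounding towards zero -/
noncomputable def trunc (x : ℝ) : ℤ := if 0 ≤ x then ⌊x⌋ else ⌈x⌉

lemma abs_sub_trunc_le (x : ℝ) : |x - trunc x| ≤ 1 := by
  unfold trunc
  split_ifs with h
  · rw [abs_le]; constructor
    · have := Int.floor_le x; linarith
    · have := Int.lt_floor_add_one x; linarith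
  · rw [abs_le]; constructor
    · have := Int.ceil_lt_add_one x; linarith
    · have := Int.le_ceil x; linarith

lemma abs_trunc_le (x : ℝ) : |(trunc x : ℝ)| ≤ |x| := by
  unfold trunc
  split_ifs with h
  · have h1 : (0 : ℝ) ≤ (⌊x⌋ : ℝ) := by exact_mod_cast Int.floor_nonneg.2 h
    rw [abs_of_nonneg h1, abs_of_nonneg h]
    exact Int.floor_le x
  · push Not at h
    have h1 : (⌈x⌉ : ℝ) ≤ 0 := by exact_mod_cast Int.ceil_le.2 (by simpa using h.le)
    rw [abs_of_nonpos h1, abs_of_nonpos h.le]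
    have := Int.le_ceil x
    linarith

theorem op_bound (hN : 1 ≤ N) (E : Fin N × Fin N → ℝ)
    (hE : ∀ κ ∈ intBall N, ∀ κ' ∈ intBall N,
      ∑ e : Fin N × Fin N, (κ e.1 : ℝ) * (κ' e.2 : ℝ) * E e ≤ 160 * N * Real.sqrt N)
    (u v : Fin N → ℝ) :
    bil E u v ≤ 20 * Real.sqrt N * Real.sqrt (∑ m, u m ^ 2) * Real.sqrt (∑ m, v m ^ 2) := by
  have hN0 : (0 : ℝ) < N := by exact_mod_cast hN
  have hsN : 0 < Real.sqrt N := Real.sqrt_pos.2 hN0
  have hsN2 : Real.sqrt N * Real.sqrt N = N := Real.mul_self_sqrt hN0.le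
  -- unit ball values
  let S : Set ℝ := {r | ∃ u v : Fin N → ℝ, (∑ m, u m ^ 2 ≤ 1) ∧ (∑ m, v m ^ 2 ≤ 1) ∧ r = bil E u v}
  have hle1 : ∀ w : Fin N → ℝ, (∑ m, w m ^ 2 ≤ 1) → ∀ m, |w m| ≤ 1 := by
    intro w hw m
    have h1 : w m ^ 2 ≤ 1 := (Finset.single_le_sum (f := fun m => w m ^ 2)
      (fun i _ => sq_nonneg _) (Finset.mem_univ m)).trans hw
    rw [← sq_abs] at h1
    nlinarith [abs_nonneg (w m)]
  have hbdd : BddAbove S := by
    refine ⟨∑ e, |E e|, ?_⟩
    rintro r ⟨u, v, hu, hv, rfl⟩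
    unfold bil
    refine Finset.sum_le_sum fun e _ => ?_
    have h1 := hle1 u hu e.1
    have h2 := hle1 v hv e.2
    calc u e.1 * v e.2 * E e ≤ |u e.1 * v e.2 * E e| := le_abs_self _
      _ = |u e.1| * |v e.2| * |E e| := by rw [abs_mul, abs_mul]
      _ ≤ 1 * 1 * |E e| := by
          refine mul_le_mul_of_nonneg_right ?_ (abs_nonneg _)
          exact mul_le_mul h1 h2 (abs_nonneg _) (by norm_num)
      _ = |E e| := by ring
  have hne : S.Nonempty := ⟨bil E 0 0, 0, 0, by simp, by simp, rfl⟩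
  set A := sSup S with hA
  have hS : ∀ u v : Fin N → ℝ, (∑ m, u m ^ 2 ≤ 1) → (∑ m, v m ^ 2 ≤ 1) → bil E u v ≤ A :=
    fun u v hu hv => le_csSup hbdd ⟨u, v, hu, hv, rfl⟩
  -- rounding
  have hround : ∀ w : Fin N → ℝ, (∑ m, w m ^ 2 ≤ 1) →
      (fun m => trunc (4 * Real.sqrt N * w m)) ∈ intBall N ∧
      ∑ m, (w m - (1 / (4 * Real.sqrt N)) * (trunc (4 * Real.sqrt N * w m) : ℝ)) ^ 2 ≤ 1 / 16 ∧
      ∑ m, ((1 / (4 * Real.sqrt N)) * (trunc (4 * Real.sqrt N * w m) : ℝ)) ^ 2 ≤ 1 := by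
    intro w hw
    have h1 : ∀ m, (trunc (4 * Real.sqrt N * w m) : ℝ) ^ 2 ≤ 16 * N * w m ^ 2 := by
      intro m
      have := abs_trunc_le (4 * Real.sqrt N * w m)
      calc (trunc (4 * Real.sqrt N * w m) : ℝ) ^ 2
          = |(trunc (4 * Real.sqrt N * w m) : ℝ)| ^ 2 := (sq_abs _).symm
        _ ≤ |4 * Real.sqrt N * w m| ^ 2 := pow_le_pow_left₀ (abs_nonneg _) this 2
        _ = 16 * (Real.sqrt N * Real.sqrt N) * w m ^ 2 := by rw [sq_abs]; ring
        _ = 16 * N * w m ^ 2 := by rw [hsN2]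
    refine ⟨?_, ?_, ?_⟩
    · rw [mem_intBall]
      have h2 : ∑ m, (trunc (4 * Real.sqrt N * w m) : ℝ) ^ 2 ≤ 16 * N := by
        calc ∑ m, (trunc (4 * Real.sqrt N * w m) : ℝ) ^ 2 ≤ ∑ m, 16 * N * w m ^ 2 :=
              Finset.sum_le_sum fun m _ => h1 m
          _ = 16 * N * ∑ m, w m ^ 2 := by rw [Finset.mul_sum]
          _ ≤ 16 * N * 1 := mul_le_mul_of_nonneg_left hw (by positivity)
          _ = 16 * N := by ring
      exact_mod_cast h2
    · have h3 : ∀ m, (w m - (1 / (4 * Real.sqrt N)) * (trunc (4 * Real.sqrt N * w m) : ℝ)) ^ 2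
          ≤ 1 / (16 * N) := by
        intro m
        have h4 := abs_sub_trunc_le (4 * Real.sqrt N * w m)
        have h5 : w m - (1 / (4 * Real.sqrt N)) * (trunc (4 * Real.sqrt N * w m) : ℝ)
            = (1 / (4 * Real.sqrt N)) *
              (4 * Real.sqrt N * w m - (trunc (4 * Real.sqrt N * w m) : ℝ)) := by
          field_simp
        rw [h5, mul_pow, ← sq_abs (4 * Real.sqrt N * w m - _)]
        have h6 : |4 * Real.sqrt N * w m - (trunc (4 * Real.sqrt N * w m) : ℝ)| ^ 2 ≤ 1 := by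
          calc _ ≤ (1 : ℝ) ^ 2 := pow_le_pow_left₀ (abs_nonneg _) h4 2
            _ = 1 := by norm_num
        have h7 : (1 / (4 * Real.sqrt N)) ^ 2 = 1 / (16 * N) := by
          rw [div_pow, mul_pow, sq (Real.sqrt N), hsN2]; norm_num
        rw [h7]
        calc 1 / (16 * (N : ℝ)) * _ ≤ 1 / (16 * (N : ℝ)) * 1 :=
              mul_le_mul_of_nonneg_left h6 (by positivity)
          _ = _ := by ring
      calc _ ≤ ∑ _m : Fin N, 1 / (16 * (N : ℝ)) := Finset.sum_le_sum fun m _ => h3 m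
        _ = 1 / 16 := by
            rw [Finset.sum_const, Finset.card_univ, Fintype.card_fin, nsmul_eq_mul]
            field_simp
    · have h8 : ∀ m, ((1 / (4 * Real.sqrt N)) * (trunc (4 * Real.sqrt N * w m) : ℝ)) ^ 2
          ≤ w m ^ 2 := by
        intro m
        rw [mul_pow]
        have h7 : (1 / (4 * Real.sqrt N)) ^ 2 = 1 / (16 * N) := by
          rw [div_pow, mul_pow, sq (Real.sqrt N), hsN2]; norm_num
        rw [h7]
        calc 1 / (16 * (N : ℝ)) * _ ≤ 1 / (16 * (N : ℝ)) * (16 * N * w m ^ 2) :=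
              mul_le_mul_of_nonneg_left (h1 m) (by positivity)
          _ = w m ^ 2 := by field_simp
      exact (Finset.sum_le_sum fun m _ => h8 m).trans hw
  have hApos : 0 ≤ A := by
    have := hS 0 0 (by simp) (by simp)
    simpa [bil] using this
  have hmain : ∀ u v : Fin N → ℝ, (∑ m, u m ^ 2 ≤ 1) → (∑ m, v m ^ 2 ≤ 1) →
      bil E u v ≤ 10 * Real.sqrt N + A / 2 := by
    intro u v hu hv
    obtain ⟨a1, a2, a3⟩ := hround u hu
    obtain ⟨b1, b2, b3⟩ := hround v hv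
    set û : Fin N → ℝ := fun m => (1 / (4 * Real.sqrt N)) * (trunc (4 * Real.sqrt N * u m) : ℝ)
    set v' : Fin N → ℝ := fun m => (1 / (4 * Real.sqrt N)) * (trunc (4 * Real.sqrt N * v m) : ℝ)
    have d1 : bil E û v' ≤ 10 * Real.sqrt N := by
      have e1 : bil E û v' = (1 / (4 * Real.sqrt N)) * ((1 / (4 * Real.sqrt N)) *
          ∑ e : Fin N × Fin N, ((trunc (4 * Real.sqrt N * u e.1) : ℤ) : ℝ) *
            ((trunc (4 * Real.sqrt N * v e.2) : ℤ) : ℝ) * E e) := by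
        unfold bil
        rw [Finset.mul_sum, Finset.mul_sum]
        exact Finset.sum_congr rfl fun e _ => by simp only [û, v']; ring
      rw [e1]
      have e2 := hE _ a1 _ b1
      calc _ ≤ (1 / (4 * Real.sqrt N)) * ((1 / (4 * Real.sqrt N)) *
            (160 * N * Real.sqrt N)) := by
            refine mul_le_mul_of_nonneg_left (mul_le_mul_of_nonneg_left e2 ?_) ?_ <;> positivity
        _ = 10 * Real.sqrt N := by
            field_simp
            nlinarith [hsN2]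
    have d2 : bil E (fun m => u m - û m) v ≤ A / 4 := by
      have : bil E (fun m => 4 * (u m - û m)) v ≤ A := by
        refine hS _ _ ?_ hv
        calc ∑ m, (4 * (u m - û m)) ^ 2 = 16 * ∑ m, (u m - û m) ^ 2 := by
              rw [Finset.mul_sum]; exact Finset.sum_congr rfl fun m _ => by ring
          _ ≤ 16 * (1 / 16) := mul_le_mul_of_nonneg_left a2 (by norm_num)
          _ = 1 := by norm_num
      rw [bil_smul_left E 4 (fun m => u m - û m) v] at this
      linarith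
    have d3 : bil E û (fun m => v m - v' m) ≤ A / 4 := by
      have : bil E û (fun m => 4 * (v m - v' m)) ≤ A := by
        refine hS _ _ a3 ?_
        calc ∑ m, (4 * (v m - v' m)) ^ 2 = 16 * ∑ m, (v m - v' m) ^ 2 := by
              rw [Finset.mul_sum]; exact Finset.sum_congr rfl fun m _ => by ring
          _ ≤ 16 * (1 / 16) := mul_le_mul_of_nonneg_left b2 (by norm_num)
          _ = 1 := by norm_num
      rw [bil_smul_right E 4 û (fun m => v m - v' m)] at this
      linarith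
    rw [bil_sub_left] at d2
    rw [bil_sub_right] at d3
    linarith
  have hA20 : A ≤ 20 * Real.sqrt N := by
    have : A ≤ 10 * Real.sqrt N + A / 2 := by
      refine csSup_le hne ?_
      rintro r ⟨u, v, hu, hv, rfl⟩
      exact hmain u v hu hv
    linarith
  -- scaling
  set a := Real.sqrt (∑ m, u m ^ 2) with ha
  set b := Real.sqrt (∑ m, v m ^ 2) with hb
  have ha2 : a ^ 2 = ∑ m, u m ^ 2 := Real.sq_sqrt (Finset.sum_nonneg fun _ _ => sq_nonneg _)
  have hb2 : b ^ 2 = ∑ m, v m ^ 2 := Real.sq_sqrt (Finset.sum_nonneg fun _ _ => sq_nonneg _)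
  have zero_of : ∀ w : Fin N → ℝ, ∑ m, w m ^ 2 = 0 → w = 0 := by
    intro w hw
    rw [Finset.sum_eq_zero_iff_of_nonneg (fun _ _ => sq_nonneg _)] at hw
    funext m
    have := hw m (Finset.mem_univ m)
    simpa using this
  rcases eq_or_lt_of_le (Real.sqrt_nonneg (∑ m, u m ^ 2)) with h0 | hapos
  · have hu : u = 0 := zero_of u (by rw [← ha2, ha, ← h0]; norm_num)
    have : bil E u v = 0 := by rw [hu]; simp [bil]
    rw [this]; positivity
  rcases eq_or_lt_of_le (Real.sqrt_nonneg (∑ m, v m ^ 2)) with h0 | hbpos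
  · have hv : v = 0 := zero_of v (by rw [← hb2, hb, ← h0]; norm_num)
    have : bil E u v = 0 := by rw [hv]; simp [bil]
    rw [this]; positivity
  have hane : a ≠ 0 := ne_of_gt hapos
  have hbne : b ≠ 0 := ne_of_gt hbpos
  have h1 : bil E (fun m => a⁻¹ * u m) (fun m => b⁻¹ * v m) ≤ A := by
    refine hS _ _ (le_of_eq ?_) (le_of_eq ?_)
    · have : ∑ m, (a⁻¹ * u m) ^ 2 = a⁻¹ ^ 2 * a ^ 2 := by
        rw [ha2, Finset.mul_sum]; exact Finset.sum_congr rfl fun m _ => by ring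
      rw [this]
      field_simp
    · have : ∑ m, (b⁻¹ * v m) ^ 2 = b⁻¹ ^ 2 * b ^ 2 := by
        rw [hb2, Finset.mul_sum]; exact Finset.sum_congr rfl fun m _ => by ring
      rw [this]
      field_simp
  rw [bil_smul_left E a⁻¹ u, bil_smul_right E b⁻¹ u v] at h1
  have h2 : bil E u v = a * (b * (a⁻¹ * (b⁻¹ * bil E u v))) := by
    field_simp
  rw [h2]
  calc a * (b * (a⁻¹ * (b⁻¹ * bil E u v))) ≤ a * (b * (20 * Real.sqrt N)) :=
        mul_le_mul_of_nonneg_left (mul_le_mul_of_nonneg_left (h1.trans hA20) hbpos.le) hapos.le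
    _ = 20 * Real.sqrt N * a * b := by ring

/-- the operator norm bound in `ℓ²` form, columns -/
theorem op_bound_sq (hN : 1 ≤ N) (E : Fin N × Fin N → ℝ)
    (hE : ∀ κ ∈ intBall N, ∀ κ' ∈ intBall N,
      ∑ e : Fin N × Fin N, (κ e.1 : ℝ) * (κ' e.2 : ℝ) * E e ≤ 160 * N * Real.sqrt N)
    (v : Fin N → ℝ) :
    ∑ m, (∑ l, E (m, l) * v l) ^ 2 ≤ 400 * N * ∑ l, v l ^ 2 := by
  have hN0 : (0 : ℝ) < N := by exact_mod_cast hN
  have hsN2 : Real.sqrt N * Real.sqrt N = N := Real.mul_self_sqrt hN0.le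
  set u : Fin N → ℝ := fun m => ∑ l, E (m, l) * v l with hu
  have h1 := op_bound hN E hE u v
  have h2 : bil E u v = ∑ m, u m ^ 2 := by
    unfold bil
    rw [← Finset.univ_product_univ, Finset.sum_product]
    refine Finset.sum_congr rfl fun m _ => ?_
    calc ∑ l, u m * v l * E (m, l) = u m * ∑ l, E (m, l) * v l := by
          rw [Finset.mul_sum]; exact Finset.sum_congr rfl fun l _ => by ring
      _ = u m ^ 2 := by rw [hu]; ring
  rw [h2] at h1
  set P := ∑ m, u m ^ 2 with hP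
  set Q := ∑ m, v m ^ 2 with hQ
  have hP0 : 0 ≤ P := Finset.sum_nonneg fun _ _ => sq_nonneg _
  have hQ0 : 0 ≤ Q := Finset.sum_nonneg fun _ _ => sq_nonneg _
  have hPs : Real.sqrt P * Real.sqrt P = P := Real.mul_self_sqrt hP0
  have hQs : Real.sqrt Q * Real.sqrt Q = Q := Real.mul_self_sqrt hQ0
  have h3 : Real.sqrt P ≤ 20 * Real.sqrt N * Real.sqrt Q := by
    rcases eq_or_lt_of_le (Real.sqrt_nonneg P) with h0 | hpos
    · rw [← h0]; positivity
    · have : Real.sqrt P * Real.sqrt P ≤ (20 * Real.sqrt N * Real.sqrt Q) * Real.sqrt P := by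
        rw [hPs]; linarith
      exact le_of_mul_le_mul_right this hpos
  calc P = Real.sqrt P * Real.sqrt P := hPs.symm
    _ ≤ (20 * Real.sqrt N * Real.sqrt Q) * (20 * Real.sqrt N * Real.sqrt Q) :=
        mul_le_mul h3 h3 (Real.sqrt_nonneg _) (by positivity)
    _ = 400 * (Real.sqrt N * Real.sqrt N) * (Real.sqrt Q * Real.sqrt Q) := by ring
    _ = 400 * N * Q := by rw [hsN2, hQs]

lemma intBall_swap_hyp (E : Fin N × Fin N → ℝ)
    (hE : ∀ κ ∈ intBall N, ∀ κ' ∈ intBall N,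
      ∑ e : Fin N × Fin N, (κ e.1 : ℝ) * (κ' e.2 : ℝ) * E e ≤ 160 * N * Real.sqrt N) :
    ∀ κ ∈ intBall N, ∀ κ' ∈ intBall N,
      ∑ e : Fin N × Fin N, (κ e.1 : ℝ) * (κ' e.2 : ℝ) * E e.swap ≤ 160 * N * Real.sqrt N := by
  intro κ hκ κ' hκ'
  have h := hE κ' hκ' κ hκ
  have h1 : ∑ e : Fin N × Fin N, (κ e.1 : ℝ) * (κ' e.2 : ℝ) * E e.swap
      = ∑ e : Fin N × Fin N, (κ' e.1 : ℝ) * (κ e.2 : ℝ) * E e := by
    rw [← Equiv.sum_comp (Equiv.prodComm (Fin N) (Fin N))]
    refine Finset.sum_congr rfl fun e _ => ?_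
    simp only [Equiv.prodComm_apply, Prod.fst_swap, Prod.snd_swap, Prod.swap_swap]
    ring
  rw [h1]; exact h

/-- the operator norm bound in `ℓ²` form, rows -/
theorem op_bound_sq' (hN : 1 ≤ N) (E : Fin N × Fin N → ℝ)
    (hE : ∀ κ ∈ intBall N, ∀ κ' ∈ intBall N,
      ∑ e : Fin N × Fin N, (κ e.1 : ℝ) * (κ' e.2 : ℝ) * E e ≤ 160 * N * Real.sqrt N)
    (u : Fin N → ℝ) :
    ∑ l, (∑ m, E (m, l) * u m) ^ 2 ≤ 400 * N * ∑ m, u m ^ 2 :=
  op_bound_sq hN (fun e => E e.swap) (intBall_swap_hyp E hE) u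

end

end Pool.Agent.MP_119be6_an
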