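import Pool.Agent.Lib.MP_119be6_an.LpBasic

/-!
The bilinear form of a good matrix tested on pieces of two functions.
-/

namespace Pool.Agent.MP_119be6_an

open MeasureTheory
open scoped ENNReal

/-- the property provided by the key proposition -/
def GoodMatrix (q ε : ℝ) {N : ℕ} (T : Fin N → Fin N → ℝ) : Prop :=
  ∀ (I J : Type) [Fintype I] [Fintype J] (μ : I → ℝ) (ν : J → ℝ)
        (x : I → Fin N → ℝ) (y : J → Fin N → ℝ), (∀ i, 0 ≤ μ i) → (∀ j, 0 ≤ ν j) →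
        ∑ i, μ i ≤ 1 → ∑ j, ν j ≤ 1 →
        (∀ c : Fin N → ℝ, ∑ i, μ i * |∑ m, c m * x i m| ^ q ≤ ∑ m, |c m| ^ q) →
        (∀ c : Fin N → ℝ, ∑ j, ν j * |∑ l, c l * y j l| ^ q ≤ ∑ l, |c l| ^ q) →
        ∑ i, ∑ j, μ i * ν j * |∑ m, ∑ l, T m l * x i m * y j l| ≤ ε

section

variable {Ω : Type} [MeasurableSpace Ω] {μ : Measure Ω} {p : ℝ≥0∞} [Fact (1 ≤ p)] {N : ℕ}

/-- a family of functionals whose combinations are dominated by the `ℓ_q` norm -/
def DomBy (Q K : ℝ) (α : Fin N → Lp ℝ p μ →L[ℝ] ℝ) : Prop :=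
  ∀ (c : Fin N → ℝ) (h : Lp ℝ p μ), ∑ l, c l * α l h ≤ K * (∑ l, |c l| ^ Q) ^ (1 / Q) * ‖h‖

lemma exists_weights (hp1 : p ≠ ∞) {Q K : ℝ} (hPQ : p.toReal.HolderConjugate Q)
    (hK : 0 < K) (α : Fin N → Lp ℝ p μ →L[ℝ] ℝ) (hα : DomBy Q K α) (f : Lp ℝ p μ)
    (hf : 0 < ‖f‖) {ι : Type} [Fintype ι] {κ : Ω → ι} (hκ : ∀ v, MeasurableSet (κ ⁻¹' {v})) :
    ∃ (ν : ι → ℝ) (y : ι → Fin N → ℝ), (∀ v, 0 ≤ ν v) ∧ ∑ v, ν v ≤ 1 ∧
      (∀ c : Fin N → ℝ, ∑ v, ν v * |∑ l, c l * y v l| ^ Q ≤ ∑ l, |c l| ^ Q) ∧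
      ∀ v l, α l (pc hκ v f) = K * ‖f‖ * (ν v * y v l) := by
  have hp0 : p ≠ 0 := (lt_of_lt_of_le one_pos (Fact.out : 1 ≤ p)).ne'
  have hP : 1 < p.toReal := hPQ.lt
  have hQ : 1 < Q := hPQ.symm.lt
  have hfP : 0 < ‖f‖ ^ p.toReal := by positivity
  set ν : ι → ℝ := fun v => ‖pc hκ v f‖ ^ p.toReal / ‖f‖ ^ p.toReal with hν
  refine ⟨ν, fun v l => (α l (pc hκ v f) / (K * ‖f‖)) / ν v, ?_, ?_, ?_, ?_⟩
  · intro v; simp only [hν]; positivity
  · simp only [hν]
    rw [← Finset.sum_div, sum_norm_pc hp0 hp1 hκ f, div_self hfP.ne']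
  · intro c
    have hc0 : 0 ≤ ∑ l, |c l| ^ Q := Finset.sum_nonneg fun _ _ => by positivity
    have h1 := fin_dual hPQ ν (fun v => ∑ l, c l * (α l (pc hκ v f) / (K * ‖f‖)))
      (fun v => by simp only [hν]; positivity) ((∑ l, |c l| ^ Q) ^ (1 / Q)) (by positivity) (by
        intro d
        have e1 : ∑ v, d v * ∑ l, c l * (α l (pc hκ v f) / (K * ‖f‖))
            = (∑ l, c l * α l (∑ v, d v • pc hκ v f)) / (K * ‖f‖) := by
          rw [Finset.sum_div]
          simp only [Finset.mul_sum, map_sum, map_smul, smul_eq_mul, Finset.sum_div]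
          rw [Finset.sum_comm]
          exact Finset.sum_congr rfl fun l _ => Finset.sum_congr rfl fun v _ => by ring
        have e2 : (∑ v, ν v * |d v| ^ p.toReal) ^ (1 / p.toReal)
            = ‖∑ v, d v • pc hκ v f‖ / ‖f‖ := by
          have e3 : ∑ v, ν v * |d v| ^ p.toReal
              = (‖∑ v, d v • pc hκ v f‖ / ‖f‖) ^ p.toReal := by
            rw [Real.div_rpow (norm_nonneg _) (norm_nonneg _), norm_sum_pc hp0 hp1 hκ f d,
              Finset.sum_div]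
            refine Finset.sum_congr rfl fun v _ => ?_
            simp only [hν]; ring
          rw [e3, ← Real.rpow_mul (by positivity), mul_one_div_cancel (by linarith),
            Real.rpow_one]
        rw [e1, e2, div_le_iff₀ (by positivity)]
        refine (hα c _).trans (le_of_eq ?_)
        field_simp)
    refine le_trans (le_of_eq ?_) (h1.trans (le_of_eq ?_))
    · refine Finset.sum_congr rfl fun v _ => ?_
      congr 3
      rw [Finset.sum_div]
      exact Finset.sum_congr rfl fun l _ => by ring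
    · rw [← Real.rpow_mul hc0, one_div_mul_cancel (by linarith), Real.rpow_one]
  · intro v l
    by_cases h0 : ν v = 0
    · have h1 : ‖pc hκ v f‖ ^ p.toReal = 0 := by
        rcases div_eq_zero_iff.1 h0 with h | h
        · exact h
        · exact absurd h hfP.ne'
      have h2 : ‖pc hκ v f‖ = 0 := by
        by_contra h
        have : 0 < ‖pc hκ v f‖ := lt_of_le_of_ne (norm_nonneg _) (Ne.symm h)
        have h3 : 0 < ‖pc hκ v f‖ ^ p.toReal := by positivity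
        exact h3.ne' h1
      rw [norm_eq_zero.1 h2, map_zero, h0]
      ring
    · field_simp

theorem partition_bound (hp1 : p ≠ ∞) {Q K K' ε : ℝ} (hPQ : p.toReal.HolderConjugate Q)
    (hK : 0 < K) (hK' : 0 < K') {T : Fin N → Fin N → ℝ} (hT : GoodMatrix Q ε T) (hε : 0 ≤ ε)
    (α β : Fin N → Lp ℝ p μ →L[ℝ] ℝ) (hα : DomBy Q K α) (hβ : DomBy Q K' β)
    (f φ : Lp ℝ p μ) {ι ι' : Type} [Fintype ι] [Fintype ι'] {κ : Ω → ι} {κ' : Ω → ι'}
    (hκ : ∀ v, MeasurableSet (κ ⁻¹' {v})) (hκ' : ∀ v, MeasurableSet (κ' ⁻¹' {v})) :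
    ∑ a, ∑ v, |∑ m, ∑ l, T m l * β m (pc hκ' a φ) * α l (pc hκ v f)|
      ≤ ε * (K * K') * (‖f‖ * ‖φ‖) := by
  classical
  rcases (norm_nonneg f).eq_or_lt with hf | hf
  · have h0 : f = 0 := norm_eq_zero.1 hf.symm
    have h1 : ∀ v, pc hκ v f = 0 := by
      intro v
      rw [h0]
      apply Lp.ext
      filter_upwards [pc_ae hκ v (0 : Lp ℝ p μ), Lp.coeFn_zero ℝ p μ] with x h2 h3
      rw [h2, h3, Set.indicator_apply, h3]
      simp
    simp only [h1, map_zero, mul_zero, Finset.sum_const_zero, abs_zero]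
    positivity
  rcases (norm_nonneg φ).eq_or_lt with hφ | hφ
  · have h0 : φ = 0 := norm_eq_zero.1 hφ.symm
    have h1 : ∀ v, pc hκ' v φ = 0 := by
      intro v
      rw [h0]
      apply Lp.ext
      filter_upwards [pc_ae hκ' v (0 : Lp ℝ p μ), Lp.coeFn_zero ℝ p μ] with x h2 h3
      rw [h2, h3, Set.indicator_apply, h3]
      simp
    simp only [h1, map_zero, mul_zero, zero_mul, Finset.sum_const_zero, abs_zero]
    positivity
  obtain ⟨ν, y, hν0, hν1, hy, hαy⟩ := exists_weights hp1 hPQ hK α hα f hf hκ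
  obtain ⟨π, x, hπ0, hπ1, hx, hβx⟩ := exists_weights hp1 hPQ hK' β hβ φ hφ hκ'
  have h := hT ι' ι π ν x y hπ0 hν0 hπ1 hν1 hx hy
  calc ∑ a, ∑ v, |∑ m, ∑ l, T m l * β m (pc hκ' a φ) * α l (pc hκ v f)|
      = ∑ a, ∑ v, (K * K') * (‖f‖ * ‖φ‖) * (π a * ν v *
          |∑ m, ∑ l, T m l * x a m * y v l|) := by
        refine Finset.sum_congr rfl fun a _ => Finset.sum_congr rfl fun v _ => ?_
        have e1 : ∑ m, ∑ l, T m l * β m (pc hκ' a φ) * α l (pc hκ v f)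
            = (K * K') * (‖f‖ * ‖φ‖) * (π a * ν v * ∑ m, ∑ l, T m l * x a m * y v l) := by
          simp only [Finset.mul_sum]
          refine Finset.sum_congr rfl fun m _ => Finset.sum_congr rfl fun l _ => ?_
          rw [hαy, hβx]; ring
        have e2 : 0 ≤ (K * K') * (‖f‖ * ‖φ‖) := by positivity
        rw [e1, abs_mul, abs_of_nonneg e2, abs_mul, abs_of_nonneg (mul_nonneg (hπ0 a) (hν0 v))]
    _ = (K * K') * (‖f‖ * ‖φ‖) * ∑ a, ∑ v, (π a * ν v *
          |∑ m, ∑ l, T m l * x a m * y v l|) := by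
        simp only [Finset.mul_sum]
    _ ≤ (K * K') * (‖f‖ * ‖φ‖) * ε := mul_le_mul_of_nonneg_left h (by positivity)
    _ = _ := by ring

end

end Pool.Agent.MP_119be6_an
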