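import Mathlib

/-!
Weighted finite product spaces: exponential moment bounds used in the union bound.
-/

namespace Pool.Agent.MP_119be6_an

open Finset

section Prob

variable {ι A : Type*} [Fintype ι] [DecidableEq ι] [Fintype A]

/-- product weight of a configuration -/
noncomputable def pw (w : A → ℝ) (X : ι → A) : ℝ := ∏ e, w (X e)

omit [DecidableEq ι] [Fintype A] in
lemma pw_nonneg {w : A → ℝ} (hw : ∀ a, 0 ≤ w a) (X : ι → A) : 0 ≤ pw w X :=
  Finset.prod_nonneg fun _ _ => hw _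

lemma sum_pw_prod (w : A → ℝ) (g : ι → A → ℝ) :
    ∑ X : ι → A, pw w X * ∏ e, g e (X e) = ∏ e, ∑ a, w a * g e a := by
  rw [Finset.prod_univ_sum]
  simp only [pw, ← Finset.prod_mul_distrib, Fintype.piFinset_univ]

lemma sum_pw {w : A → ℝ} (hw1 : ∑ a, w a = 1) : ∑ X : ι → A, pw w X = 1 := by
  have := sum_pw_prod (ι := ι) w (fun _ _ => (1 : ℝ))
  simpa [hw1] using this

/-- one-variable Hoeffding type bound -/
lemma sum_exp_le {w : A → ℝ} (hw : ∀ a, 0 ≤ w a) (hw1 : ∑ a, w a = 1) {φ : A → ℝ}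
    (hφ : ∀ a, |φ a| ≤ 1) (hφ0 : ∑ a, w a * φ a = 0) (c : ℝ) :
    ∑ a, w a * Real.exp (c * φ a) ≤ Real.exp (c ^ 2 / 2) := by
  have key : ∀ a, Real.exp (c * φ a) ≤ Real.cosh c + φ a * Real.sinh c := by
    intro a
    have h1 : -1 ≤ φ a := (abs_le.1 (hφ a)).1
    have h2 : φ a ≤ 1 := (abs_le.1 (hφ a)).2
    have hconv := convexOn_exp.2 (Set.mem_univ c) (Set.mem_univ (-c))
      (by linarith : (0 : ℝ) ≤ (1 + φ a) / 2) (by linarith : (0 : ℝ) ≤ (1 - φ a) / 2) (by ring)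
    simp only [smul_eq_mul] at hconv
    have e1 : (1 + φ a) / 2 * c + (1 - φ a) / 2 * -c = c * φ a := by ring
    rw [e1] at hconv
    refine hconv.trans (le_of_eq ?_)
    rw [Real.cosh_eq, Real.sinh_eq]
    ring
  calc ∑ a, w a * Real.exp (c * φ a)
      ≤ ∑ a, w a * (Real.cosh c + φ a * Real.sinh c) :=
        Finset.sum_le_sum fun a _ => mul_le_mul_of_nonneg_left (key a) (hw a)
    _ = Real.cosh c * ∑ a, w a + Real.sinh c * ∑ a, w a * φ a := by
        rw [Finset.mul_sum, Finset.mul_sum, ← Finset.sum_add_distrib]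
        exact Finset.sum_congr rfl fun a _ => by ring
    _ = Real.cosh c := by rw [hw1, hφ0]; ring
    _ ≤ Real.exp (c ^ 2 / 2) := Real.cosh_le_exp_half_sq c

/-- linear exponential moment bound -/
lemma sum_pw_exp_linear {w : A → ℝ} (hw : ∀ a, 0 ≤ w a) (hw1 : ∑ a, w a = 1) {φ : A → ℝ}
    (hφ : ∀ a, |φ a| ≤ 1) (hφ0 : ∑ a, w a * φ a = 0) (c : ι → ℝ) :
    ∑ X : ι → A, pw w X * Real.exp (∑ e, c e * φ (X e)) ≤ Real.exp ((∑ e, c e ^ 2) / 2) := by
  have h1 : ∀ X : ι → A, Real.exp (∑ e, c e * φ (X e)) = ∏ e, Real.exp (c e * φ (X e)) := by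
    intro X; exact Real.exp_sum _ _
  simp only [h1]
  rw [sum_pw_prod w (fun e a => Real.exp (c e * φ a))]
  have h2 : Real.exp ((∑ e, c e ^ 2) / 2) = ∏ e, Real.exp (c e ^ 2 / 2) := by
    rw [← Real.exp_sum, Finset.sum_div]
  rw [h2]
  refine Finset.prod_le_prod (fun e _ => ?_) (fun e _ => sum_exp_le hw hw1 hφ hφ0 (c e))
  exact Finset.sum_nonneg fun a _ => mul_nonneg (hw a) (Real.exp_pos _).le

/-- Decoupled exponential moment bound: coefficients depend only on coordinates outside `S`. -/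
lemma sum_pw_exp_decoupled {w : A → ℝ} (hw : ∀ a, 0 ≤ w a) (hw1 : ∑ a, w a = 1) {φ : A → ℝ}
    (hφ : ∀ a, |φ a| ≤ 1) (hφ0 : ∑ a, w a * φ a = 0) (S : Finset ι) (K : ℝ)
    (c : (ι → A) → ι → ℝ)
    (hc : ∀ X Y : ι → A, (∀ e, e ∉ S → X e = Y e) → ∀ e ∈ S, c X e = c Y e)
    (hK : ∀ X e, |c X e| ≤ K) :
    ∑ X : ι → A, pw w X * Real.exp (∑ e ∈ S, c X e * φ (X e))
      ≤ Real.exp (K ^ 2 * (S.card : ℝ) / 2) := by
  classical
  by_cases hA : Nonempty A
  swap
  · exfalso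
    rw [not_nonempty_iff] at hA
    simp at hw1
  obtain ⟨a0⟩ := hA
  let E := Equiv.piEquivPiSubtypeProd (fun e : ι => e ∈ S) (fun _ => A)
  have hE1 : ∀ (x : {e // e ∈ S} → A) (y : {e // e ∉ S} → A) (e : ι) (he : e ∈ S),
      E.symm (x, y) e = x ⟨e, he⟩ := by
    intro x y e he
    simp [E, Equiv.piEquivPiSubtypeProd, he]
  have hE2 : ∀ (x : {e // e ∈ S} → A) (y : {e // e ∉ S} → A) (e : ι) (he : e ∉ S),
      E.symm (x, y) e = y ⟨e, he⟩ := by
    intro x y e he
    simp [E, Equiv.piEquivPiSubtypeProd, he]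
  have hsum : ∑ X : ι → A, pw w X * Real.exp (∑ e ∈ S, c X e * φ (X e))
      = ∑ y : {e // e ∉ S} → A, ∑ x : {e // e ∈ S} → A,
          pw w (E.symm (x, y)) *
            Real.exp (∑ e ∈ S, c (E.symm (x, y)) e * φ (E.symm (x, y) e)) := by
    rw [← Equiv.sum_comp E.symm, Fintype.sum_prod_type, Finset.sum_comm]
  rw [hsum]
  have hpw : ∀ (x : {e // e ∈ S} → A) (y : {e // e ∉ S} → A),
      pw w (E.symm (x, y)) = pw w x * pw w y := by
    intro x y
    unfold pw
    rw [← Fintype.prod_subtype_mul_prod_subtype (fun e => e ∈ S)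
      (fun e => w (E.symm (x, y) e))]
    congr 1
    · refine Finset.prod_congr (by ext; simp) fun e _ => ?_
      rw [hE1 x y e.1 e.2]
    · refine Finset.prod_congr (by ext; simp) fun e _ => ?_
      rw [hE2 x y e.1 e.2]
  have hinner : ∀ y : {e // e ∉ S} → A,
      ∑ x : {e // e ∈ S} → A, pw w (E.symm (x, y)) *
            Real.exp (∑ e ∈ S, c (E.symm (x, y)) e * φ (E.symm (x, y) e))
        ≤ pw w y * Real.exp (K ^ 2 * (S.card : ℝ) / 2) := by
    intro y
    let X0 : ι → A := E.symm (fun _ => a0, y)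
    have hcc : ∀ (x : {e // e ∈ S} → A), ∀ e ∈ S, c (E.symm (x, y)) e = c X0 e := by
      intro x e he
      refine hc _ _ (fun e' he' => ?_) e he
      rw [hE2 x y e' he']
      exact (hE2 _ y e' he').symm
    have hexp : ∀ (x : {e // e ∈ S} → A),
        ∑ e ∈ S, c (E.symm (x, y)) e * φ (E.symm (x, y) e)
          = ∑ e : {e // e ∈ S}, c X0 e.1 * φ (x e) := by
      intro x
      rw [← Finset.sum_coe_sort S]
      refine Finset.sum_congr rfl fun e _ => ?_
      rw [hcc x e.1 e.2, hE1 x y e.1 e.2]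
    calc ∑ x : {e // e ∈ S} → A, pw w (E.symm (x, y)) *
            Real.exp (∑ e ∈ S, c (E.symm (x, y)) e * φ (E.symm (x, y) e))
        = pw w y * ∑ x : {e // e ∈ S} → A, pw w x *
            Real.exp (∑ e : {e // e ∈ S}, c X0 e.1 * φ (x e)) := by
          rw [Finset.mul_sum]
          refine Finset.sum_congr rfl fun x _ => ?_
          rw [hpw, hexp]; ring
      _ ≤ pw w y * Real.exp ((∑ e : {e // e ∈ S}, c X0 e.1 ^ 2) / 2) := by
          refine mul_le_mul_of_nonneg_left ?_ (pw_nonneg hw y)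
          exact sum_pw_exp_linear hw hw1 hφ hφ0 (fun e : {e // e ∈ S} => c X0 e.1)
      _ ≤ pw w y * Real.exp (K ^ 2 * (S.card : ℝ) / 2) := by
          refine mul_le_mul_of_nonneg_left ?_ (pw_nonneg hw y)
          refine Real.exp_le_exp.2 ?_
          have : ∑ e : {e // e ∈ S}, c X0 e.1 ^ 2 ≤ ∑ _e : {e // e ∈ S}, K ^ 2 := by
            refine Finset.sum_le_sum fun e _ => ?_
            have := hK X0 e.1
            calc c X0 e.1 ^ 2 = |c X0 e.1| ^ 2 := (sq_abs _).symm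
              _ ≤ K ^ 2 := pow_le_pow_left₀ (abs_nonneg _) this 2
          simp only [Finset.sum_const, Finset.card_univ, Fintype.card_coe, nsmul_eq_mul] at this
          linarith
  calc ∑ y : {e // e ∉ S} → A, ∑ x : {e // e ∈ S} → A,
          pw w (E.symm (x, y)) *
            Real.exp (∑ e ∈ S, c (E.symm (x, y)) e * φ (E.symm (x, y) e))
      ≤ ∑ y : {e // e ∉ S} → A, pw w y * Real.exp (K ^ 2 * (S.card : ℝ) / 2) :=
        Finset.sum_le_sum fun y _ => hinner y
    _ = Real.exp (K ^ 2 * (S.card : ℝ) / 2) := by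
        rw [← Finset.sum_mul, sum_pw hw1, one_mul]

end Prob

end Pool.Agent.MP_119be6_an
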