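import Pool.Agent.Lib.MP_119be6_an.Prob

/-!
Exponential moment bound for the quadratic chaos along a selector map.
-/

namespace Pool.Agent.MP_119be6_an

open Finset

section Quad

variable {ι A : Type*} [Fintype ι] [DecidableEq ι] [Fintype A]

/-- uniform weight on `Bool` -/
noncomputable def hw2 : Bool → ℝ := fun _ => 1 / 2

lemma hw2_nonneg (b : Bool) : 0 ≤ hw2 b := by unfold hw2; norm_num

lemma hw2_sum : ∑ b, hw2 b = 1 := by simp [hw2]

/-- indicator that `e` is selected and `f` is not -/
def sel (χ : ι → Bool) (e f : ι) : ℝ := (if χ e then 1 else 0) * (if χ f then 0 else 1)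

lemma sum_sel (e f : ι) (hef : e ≠ f) : ∑ χ : ι → Bool, pw hw2 χ * sel χ e f = 1 / 4 := by
  have h := sum_pw_prod (ι := ι) hw2
    (fun i b => if i = e then (if b then (1 : ℝ) else 0) else
      if i = f then (if b then 0 else 1) else 1)
  have h1 : ∀ χ : ι → Bool, sel χ e f = ∏ i, (fun i b => if i = e then (if b then (1 : ℝ) else 0)
      else if i = f then (if b then 0 else 1) else 1) i (χ i) := by
    intro χ
    have hfe : f ≠ e := fun h => hef h.symm
    rw [← Finset.mul_prod_erase univ _ (Finset.mem_univ e),
      ← Finset.mul_prod_erase (univ.erase e) _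
        (Finset.mem_erase.2 ⟨hfe, Finset.mem_univ f⟩)]
    rw [Finset.prod_eq_one (s := (univ.erase e).erase f)]
    · simp [sel, hfe]
    · intro i hi
      simp only [Finset.mem_erase, Finset.mem_univ, and_true] at hi
      simp [hi.1, hi.2]
  simp only [h1]
  rw [h]
  have hfe : f ≠ e := fun h => hef h.symm
  rw [← Finset.mul_prod_erase univ _ (Finset.mem_univ e),
      ← Finset.mul_prod_erase (univ.erase e) _
        (Finset.mem_erase.2 ⟨hfe, Finset.mem_univ f⟩)]
  rw [Finset.prod_eq_one (s := (univ.erase e).erase f)]
  · simp [hw2, hfe]; norm_num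
  · intro i hi
    simp only [Finset.mem_erase, Finset.mem_univ, and_true] at hi
    simp [hw2, hi.1, hi.2]

/-- finite Jensen for the exponential -/
lemma exp_sum_le {B : Type*} [Fintype B] {p : B → ℝ} (hp : ∀ b, 0 ≤ p b) (hp1 : ∑ b, p b = 1)
    (z : B → ℝ) : Real.exp (∑ b, p b * z b) ≤ ∑ b, p b * Real.exp (z b) := by
  have := convexOn_exp.map_sum_le (t := univ) (w := p) (p := z) (fun b _ => hp b) hp1
    (fun b _ => Set.mem_univ _)
  simpa [smul_eq_mul] using this

lemma sum_pw_exp_quad {w : A → ℝ} (hw : ∀ a, 0 ≤ w a) (hw1 : ∑ a, w a = 1) {φ : A → ℝ}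
    (hφ : ∀ a, |φ a| ≤ 1) (hφ0 : ∑ a, w a * φ a = 0) (τ : ι → ι) (a : ι → ℝ)
    (ha : ∀ e, |a e| ≤ 1) (s : ℝ) :
    ∑ X : ι → A, pw w X *
        Real.exp (s * ∑ e, if τ e = e then 0 else a e * φ (X e) * φ (X (τ e)))
      ≤ Real.exp (8 * s ^ 2 * (Fintype.card ι : ℝ)) := by
  -- expand as an average over selections
  have hb : ∀ X : ι → A, s * ∑ e, (if τ e = e then 0 else a e * φ (X e) * φ (X (τ e)))
      = ∑ χ : ι → Bool, pw hw2 χ *
          (∑ e ∈ univ.filter (fun e => χ e = true),
            (if τ e = e then 0 else if χ (τ e) then 0 else 4 * s * a e * φ (X (τ e)))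
              * φ (X e)) := by
    intro X
    have h1 : ∀ χ : ι → Bool, (∑ e ∈ univ.filter (fun e => χ e = true),
            (if τ e = e then 0 else if χ (τ e) then 0 else 4 * s * a e * φ (X (τ e)))
              * φ (X e)) = ∑ e, (if τ e = e then 0 else
                4 * s * (a e * φ (X e) * φ (X (τ e)))) * sel χ e (τ e) := by
      intro χ
      rw [Finset.sum_filter]
      refine Finset.sum_congr rfl fun e _ => ?_
      unfold sel
      by_cases h1 : χ e = true <;> by_cases h2 : χ (τ e) = true <;> by_cases h3 : τ e = e <;>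
        simp [h1, h2, h3] <;> ring
    simp only [h1]
    simp only [Finset.mul_sum]
    rw [Finset.sum_comm]
    refine Finset.sum_congr rfl fun e _ => ?_
    by_cases h3 : τ e = e
    · simp [h3]
    · simp only [h3, if_false]
      have := sum_sel e (τ e) (fun h => h3 h.symm)
      calc s * (a e * φ (X e) * φ (X (τ e)))
          = 4 * s * (a e * φ (X e) * φ (X (τ e))) * (1 / 4) := by ring
        _ = 4 * s * (a e * φ (X e) * φ (X (τ e))) *
              ∑ χ : ι → Bool, pw hw2 χ * sel χ e (τ e) := by rw [this]
        _ = _ := by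
            rw [Finset.mul_sum]
            exact Finset.sum_congr rfl fun χ _ => by ring
  calc ∑ X : ι → A, pw w X *
        Real.exp (s * ∑ e, if τ e = e then 0 else a e * φ (X e) * φ (X (τ e)))
      ≤ ∑ X : ι → A, pw w X * ∑ χ : ι → Bool, pw hw2 χ *
          Real.exp (∑ e ∈ univ.filter (fun e => χ e = true),
            (if τ e = e then 0 else if χ (τ e) then 0 else 4 * s * a e * φ (X (τ e)))
              * φ (X e)) := by
        refine Finset.sum_le_sum fun X _ => ?_
        refine mul_le_mul_of_nonneg_left ?_ (pw_nonneg hw X)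
        rw [hb X]
        exact exp_sum_le (fun χ => pw_nonneg hw2_nonneg χ) (sum_pw hw2_sum) _
    _ = ∑ χ : ι → Bool, pw hw2 χ * ∑ X : ι → A, pw w X *
          Real.exp (∑ e ∈ univ.filter (fun e => χ e = true),
            (if τ e = e then 0 else if χ (τ e) then 0 else 4 * s * a e * φ (X (τ e)))
              * φ (X e)) := by
        simp only [Finset.mul_sum]
        rw [Finset.sum_comm]
        refine Finset.sum_congr rfl fun χ _ => Finset.sum_congr rfl fun X _ => by ring
    _ ≤ ∑ χ : ι → Bool, pw hw2 χ * Real.exp (8 * s ^ 2 * (Fintype.card ι : ℝ)) := by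
        refine Finset.sum_le_sum fun χ _ => ?_
        refine mul_le_mul_of_nonneg_left ?_ (pw_nonneg hw2_nonneg χ)
        have h4 := sum_pw_exp_decoupled hw hw1 hφ hφ0 (univ.filter (fun e => χ e = true))
          (4 * |s|)
          (fun X e => if τ e = e then 0 else if χ (τ e) then 0 else 4 * s * a e * φ (X (τ e)))
          (by
            intro X Y hXY e he
            by_cases h3 : τ e = e
            · simp [h3]
            · by_cases h2 : χ (τ e) = true
              · simp [h2]
              · have := hXY (τ e) (by simp [h2])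
                simp [h3, h2, this])
          (by
            intro X e
            by_cases h3 : τ e = e
            · simp [h3]
            · by_cases h2 : χ (τ e) = true
              · simp [h2]
              · rw [if_neg h3, if_neg h2]
                rw [abs_mul, abs_mul, abs_mul]
                have e1 : |(4 : ℝ)| = 4 := by norm_num
                rw [e1]
                have e2 : 4 * |s| * |a e| ≤ 4 * |s| * 1 :=
                  mul_le_mul_of_nonneg_left (ha e) (by positivity)
                calc 4 * |s| * |a e| * |φ (X (τ e))| ≤ 4 * |s| * 1 * 1 :=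
                      mul_le_mul e2 (hφ _) (abs_nonneg _) (by positivity)
                  _ = 4 * |s| := by ring)
        refine h4.trans (Real.exp_le_exp.2 ?_)
        have h5 : ((univ.filter (fun e => χ e = true)).card : ℝ) ≤ Fintype.card ι := by
          exact_mod_cast Finset.card_le_univ _
        have h6 : (4 * |s|) ^ 2 = 16 * s ^ 2 := by rw [mul_pow, sq_abs]; norm_num
        rw [h6]
        nlinarith [sq_nonneg s]
    _ = Real.exp (8 * s ^ 2 * (Fintype.card ι : ℝ)) := by
        rw [← Finset.sum_mul, sum_pw hw2_sum, one_mul]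

end Quad

end Pool.Agent.MP_119be6_an
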