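import Pool.Agent.Lib.MP_119be6_an.PartitionBound

/-!
The bound for sums of absolute values of images of pieces.
-/

namespace Pool.Agent.MP_119be6_an

open MeasureTheory
open scoped ENNReal

section

variable {Ω : Type} [MeasurableSpace Ω] (μ : Measure Ω) (p q : ℝ≥0∞) [Fact (1 ≤ p)]
  [Fact (1 ≤ q)] [p.HolderConjugate q]

/-- the duality pairing of `L^p` and `L^q` -/
noncomputable def pr : Lp ℝ p μ →L[ℝ] Lp ℝ q μ →L[ℝ] ℝ :=
  (ContinuousLinearMap.mul ℝ ℝ).lpPairing μ p q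

variable {μ p q}

lemma pr_apply (f : Lp ℝ p μ) (g : Lp ℝ q μ) : pr μ p q f g = ∫ x, f x * g x ∂μ := by
  unfold pr
  rw [ContinuousLinearMap.lpPairing_eq_integral]
  simp

lemma abs_pr_le (f : Lp ℝ p μ) (g : Lp ℝ q μ) : |pr μ p q f g| ≤ ‖f‖ * ‖g‖ := by
  have h2 : |pr μ p q f g| ≤ ‖((ContinuousLinearMap.mul ℝ ℝ).holder 1 f g : Lp ℝ 1 μ)‖ := by
    rw [L1.norm_eq_integral_norm, pr_apply]
    refine (abs_integral_le_integral_abs).trans (le_of_eq (integral_congr_ae ?_))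
    filter_upwards [(ContinuousLinearMap.mul ℝ ℝ).coeFn_holder (r := 1) f g] with x hx
    rw [hx, Real.norm_eq_abs]
    simp
  refine h2.trans (((ContinuousLinearMap.mul ℝ ℝ).norm_holder_apply_apply_le f g).trans ?_)
  have h3 : ‖ContinuousLinearMap.mul ℝ ℝ‖ ≤ 1 := ContinuousLinearMap.opNorm_mul_le ℝ ℝ
  have h4 := mul_le_mul_of_nonneg_right (mul_le_mul_of_nonneg_right h3 (norm_nonneg f))
    (norm_nonneg g)
  rwa [one_mul] at h4

theorem norm_sum_abs_le (hp1 : p ≠ ∞) (hq1 : q ≠ ∞) {ι : Type} [Fintype ι] (u : ι → Lp ℝ q μ)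
    (C : ℝ) (hC0 : 0 ≤ C)
    (hC : ∀ φ : Lp ℝ p μ, ∀ (ι' : Type) [Fintype ι'] (κ' : Ω → ι')
      (hκ' : ∀ a, MeasurableSet (κ' ⁻¹' {a})),
      ∑ v, ∑ a, |pr μ p q (pc hκ' a φ) (u v)| ≤ C * ‖φ‖) :
    ‖∑ v, |u v|‖ ≤ C := by
  classical
  have hp0 : p ≠ 0 := (lt_of_lt_of_le one_pos (Fact.out : 1 ≤ p)).ne'
  have hq0 : q ≠ 0 := (lt_of_lt_of_le one_pos (Fact.out : 1 ≤ q)).ne'
  have hPQ : p.toReal.HolderConjugate q.toReal := ENNReal.HolderConjugate.toReal_of_ne_top hp1 hq1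
  set P := p.toReal with hP
  set Q := q.toReal with hQ
  have hP1 : 1 < P := hPQ.lt
  have hQ1 : 1 < Q := hPQ.symm.lt
  set G : Lp ℝ q μ := ∑ v, |u v| with hG
  have hG0 : 0 ≤ G := Finset.sum_nonneg fun v _ => abs_nonneg _
  have hGae : ∀ᵐ x ∂μ, 0 ≤ G x := (Lp.coeFn_nonneg G).2 hG0
  have hconj : (Q - 1) * P = Q := by
    have := hPQ.symm.sub_one_mul_conj
    linarith
  -- the dual function
  have hmeas : AEStronglyMeasurable (fun x => |G x| ^ (Q - 1)) μ :=
    ((Lp.stronglyMeasurable G).measurable.abs.pow_const _).aestronglyMeasurable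
  have hpow : ∀ x, ‖|G x| ^ (Q - 1)‖ ^ P = |G x| ^ Q := by
    intro x
    rw [Real.norm_eq_abs, abs_of_nonneg (by positivity), ← Real.rpow_mul (abs_nonneg _), hconj]
  have hmem : MemLp (fun x => |G x| ^ (Q - 1)) p μ := by
    rw [← integrable_norm_rpow_iff hmeas hp0 hp1]
    simp only [← hP, hpow]
    exact lp_integrable_rpow hq0 hq1 G
  set φ : Lp ℝ p μ := hmem.toLp _ with hφ
  have hφae : φ =ᵐ[μ] fun x => |G x| ^ (Q - 1) := hmem.coeFn_toLp
  have hφn : ‖φ‖ ^ P = ‖G‖ ^ Q := by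
    rw [lp_norm_rpow hp0 hp1, lp_norm_rpow hq0 hq1]
    refine integral_congr_ae ?_
    filter_upwards [hφae] with x hx
    rw [hx, ← Real.norm_eq_abs (|G x| ^ (Q - 1))]
    exact hpow x
  have hφn2 : ‖φ‖ = ‖G‖ ^ (Q - 1) := by
    have h1 : ‖φ‖ = (‖φ‖ ^ P) ^ (1 / P) := by
      rw [← Real.rpow_mul (norm_nonneg _), mul_one_div_cancel (by linarith), Real.rpow_one]
    rw [h1, hφn, ← Real.rpow_mul (norm_nonneg _)]
    congr 1
    field_simp
    linarith
  have hmain : ‖G‖ ^ Q = pr μ p q φ G := by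
    rw [lp_norm_rpow hq0 hq1, pr_apply]
    refine integral_congr_ae ?_
    filter_upwards [hφae, hGae] with x hx hx0
    rw [hx]
    rcases hx0.eq_or_lt with h | h
    · rw [← h, mul_zero, abs_zero, Real.zero_rpow (by linarith)]
    · rw [abs_of_pos h]
      nth_rewrite 3 [← Real.rpow_one (G x)]
      rw [← Real.rpow_add h]
      congr 1; ring
  -- the sign patterns
  set κ' : Ω → (ι → Bool) := fun x v => decide (0 ≤ u v x) with hκ'def
  have hκ' : ∀ a, MeasurableSet (κ' ⁻¹' {a}) := by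
    intro a
    have h1 : κ' ⁻¹' {a} = ⋂ v, {x | decide (0 ≤ u v x) = a v} := by
      ext x
      simp only [Set.mem_preimage, Set.mem_singleton_iff, Set.mem_iInter, Set.mem_ofPred_eq,
        hκ'def, funext_iff]
    rw [h1]
    refine MeasurableSet.iInter fun v => ?_
    have h2 : MeasurableSet {x | 0 ≤ u v x} :=
      measurableSet_le measurable_const (Lp.stronglyMeasurable (u v)).measurable
    cases h3 : a v with
    | true => simpa using h2
    | false =>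
      have h4 : {x | decide (0 ≤ u v x) = false} = {x | 0 ≤ u v x}ᶜ := by
        ext x; simp
      rw [h4]; exact h2.compl
  set sgn : Bool → ℝ := fun b => if b then 1 else -1 with hsgn
  have hpart : ∀ v, pr μ p q φ |u v| = ∑ a : ι → Bool, sgn (a v) * pr μ p q (pc hκ' a φ) (u v) := by
    intro v
    have h1 : ∑ a : ι → Bool, sgn (a v) * pr μ p q (pc hκ' a φ) (u v)
        = pr μ p q (∑ a : ι → Bool, sgn (a v) • pc hκ' a φ) (u v) := by
      rw [map_sum]
      simp [ContinuousLinearMap.sum_apply]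
    rw [h1, pr_apply, pr_apply]
    refine integral_congr_ae ?_
    filter_upwards [sum_pc_ae hκ' φ (fun a => sgn (a v)), Lp.coeFn_abs (u v)] with x h2 h3
    rw [h2, h3]
    simp only [hκ'def, hsgn]
    by_cases h4 : 0 ≤ u v x
    · simp [h4, abs_of_nonneg h4]
    · push Not at h4
      simp [not_le.2 h4, abs_of_neg h4]
  have hsum : pr μ p q φ G ≤ C * ‖φ‖ := by
    calc pr μ p q φ G = ∑ v, pr μ p q φ |u v| := by rw [hG, map_sum]
      _ ≤ ∑ v, ∑ a, |pr μ p q (pc hκ' a φ) (u v)| := by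
          refine Finset.sum_le_sum fun v _ => ?_
          rw [hpart v]
          refine Finset.sum_le_sum fun a _ => ?_
          refine (le_abs_self _).trans (le_of_eq ?_)
          rw [abs_mul]
          have : |sgn (a v)| = 1 := by
            simp only [hsgn]; split_ifs <;> simp
          rw [this, one_mul]
      _ ≤ C * ‖φ‖ := hC φ _ κ' hκ'
  rw [← hmain, hφn2] at hsum
  rcases (norm_nonneg G).eq_or_lt with h0 | h0
  · rw [← h0]; exact hC0
  · have h1 : ‖G‖ ^ Q = ‖G‖ * ‖G‖ ^ (Q - 1) := by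
      nth_rewrite 2 [← Real.rpow_one ‖G‖]
      rw [← Real.rpow_add h0]; congr 1; ring
    rw [h1] at hsum
    exact le_of_mul_le_mul_right hsum (by positivity)

/-- boundedness of the sums of absolute values of images of pieces -/
def RB (S : Lp ℝ p μ →L[ℝ] Lp ℝ q μ) (C : ℝ) : Prop :=
  ∀ (ι : Type) [Fintype ι] (κ : Ω → ι) (hκ : ∀ v, MeasurableSet (κ ⁻¹' {v})) (f : Lp ℝ p μ),
    ‖∑ v, |S (pc hκ v f)|‖ ≤ C * ‖f‖

theorem rb_of_good {N : ℕ} (hp1 : p ≠ ∞) (hq1 : q ≠ ∞) {K K' ε : ℝ} (hK : 0 < K) (hK' : 0 < K')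
    {T : Fin N → Fin N → ℝ} (hT : GoodMatrix q.toReal ε T) (hε : 0 ≤ ε)
    (α : Fin N → Lp ℝ p μ →L[ℝ] ℝ) (w : Fin N → Lp ℝ q μ)
    (hα : DomBy q.toReal K α)
    (hw : ∀ c : Fin N → ℝ, ‖∑ m, c m • w m‖ ≤ K' * (∑ m, |c m| ^ q.toReal) ^ (1 / q.toReal))
    (S : Lp ℝ p μ →L[ℝ] Lp ℝ q μ) (hS : ∀ h, S h = ∑ m, ∑ l, (T m l * α l h) • w m) :
    RB S (ε * (K * K')) := by
  intro ι _ κ hκ f
  have hPQ : p.toReal.HolderConjugate q.toReal := ENNReal.HolderConjugate.toReal_of_ne_top hp1 hq1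
  refine norm_sum_abs_le (p := p) hp1 hq1 (fun v => S (pc hκ v f)) _ (by positivity) ?_
  intro φ ι' _ κ' hκ'
  set β : Fin N → Lp ℝ p μ →L[ℝ] ℝ := fun m => (pr μ p q).flip (w m) with hβ
  have hβd : DomBy q.toReal K' β := by
    intro c h
    have h1 : ∑ m, c m * β m h = pr μ p q h (∑ m, c m • w m) := by
      rw [map_sum]
      refine Finset.sum_congr rfl fun m _ => ?_
      rw [map_smul]; rfl
    rw [h1]
    refine (le_abs_self _).trans ((abs_pr_le _ _).trans ?_)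
    rw [mul_comm]
    exact mul_le_mul_of_nonneg_right (hw c) (norm_nonneg _)
  have h := partition_bound hp1 hPQ hK hK' hT hε α β hα hβd f φ hκ hκ'
  rw [Finset.sum_comm]
  have e1 : ∀ a v, pr μ p q (pc hκ' a φ) (S (pc hκ v f))
      = ∑ m, ∑ l, T m l * β m (pc hκ' a φ) * α l (pc hκ v f) := by
    intro a v
    rw [hS]
    simp only [map_sum, map_smul, smul_eq_mul]
    refine Finset.sum_congr rfl fun m _ => Finset.sum_congr rfl fun l _ => ?_
    have : β m (pc hκ' a φ) = pr μ p q (pc hκ' a φ) (w m) := rfl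
    rw [this]; ring
  simp only [e1]
  refine h.trans (le_of_eq ?_)
  ring

end

end Pool.Agent.MP_119be6_an
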