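import Pool.Agent.Lib.MP_119be6_an.Levels

/-!
The estimate of the part of the form carried by coordinates which are not small.
-/

namespace Pool.Agent.MP_119be6_an

open Finset

section

lemma abs_le_of_level {q : ℝ} (hq : 1 ≤ q) {a : ℕ} {t : ℝ}
    (h : t = 0 ∨ -(a : ℤ) ≤ Int.log 2 |t|) : |t| ≤ 2 ^ ((a : ℝ) * (q - 1)) * |t| ^ q := by
  by_cases h0 : t = 0
  · subst h0; rw [abs_zero]; positivity
  · have h1 : -(a : ℤ) ≤ Int.log 2 |t| := by
      rcases h with h | h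
      · exact absurd h h0
      · exact h
    have h2 := abs_xr_le hq (Int.log 2 |t|) t
    rw [xr_of _ h0 rfl] at h2
    refine h2.trans (mul_le_mul_of_nonneg_right ?_ (by positivity))
    refine Real.rpow_le_rpow_of_exponent_le (by norm_num) ?_
    have h3 : (-(a : ℝ)) ≤ (Int.log 2 |t| : ℝ) := by exact_mod_cast h1
    nlinarith

lemma sq_le_of_level {q : ℝ} (hq : q ≤ 2) {b : ℕ} {t : ℝ}
    (h : t = 0 ∨ Int.log 2 |t| ≤ (b : ℤ)) :
    t ^ 2 ≤ 2 ^ (((b : ℝ) + 1) * (2 - q)) * |t| ^ q := by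
  by_cases h0 : t = 0
  · subst h0
    have : (0 : ℝ) ^ 2 = 0 := by norm_num
    rw [this]; positivity
  · have h1 : Int.log 2 |t| ≤ (b : ℤ) := by
      rcases h with h | h
      · exact absurd h h0
      · exact h
    have h2 := sq_xr_le hq (Int.log 2 |t|) t
    rw [xr_of _ h0 rfl] at h2
    refine h2.trans (mul_le_mul_of_nonneg_right ?_ (by positivity))
    refine Real.rpow_le_rpow_of_exponent_le (by norm_num) ?_
    have h3 : (Int.log 2 |t| : ℝ) ≤ (b : ℝ) := by exact_mod_cast h1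
    nlinarith

lemma xr_eq_zero_or (r : ℤ) (t : ℝ) : xr r t = 0 ∨ xr r t = t := by
  unfold xr; split_ifs <;> simp

/-- weighted Cauchy–Schwarz with total masses at most one -/
lemma weighted_abs_le_sqrt {I J : Type*} [Fintype I] [Fintype J] (μ : I → ℝ) (ν : J → ℝ)
    (hμ : ∀ i, 0 ≤ μ i) (hν : ∀ j, 0 ≤ ν j) (hμ1 : ∑ i, μ i ≤ 1) (hν1 : ∑ j, ν j ≤ 1)
    (f : I → J → ℝ) :
    ∑ i, ∑ j, μ i * ν j * |f i j| ≤ Real.sqrt (∑ i, ∑ j, μ i * ν j * f i j ^ 2) := by
  rw [← Finset.sum_product', ← Finset.sum_product']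
  refine Real.le_sqrt_of_sq_le ?_
  have h1 := Finset.sum_mul_sq_le_sq_mul_sq (univ ×ˢ univ : Finset (I × J))
    (fun p => Real.sqrt (μ p.1 * ν p.2)) (fun p => Real.sqrt (μ p.1 * ν p.2) * |f p.1 p.2|)
  have e1 : ∀ p : I × J, 0 ≤ μ p.1 * ν p.2 := fun p => mul_nonneg (hμ _) (hν _)
  have e2 : ∀ p : I × J, Real.sqrt (μ p.1 * ν p.2) * (Real.sqrt (μ p.1 * ν p.2) * |f p.1 p.2|)
      = μ p.1 * ν p.2 * |f p.1 p.2| := by
    intro p; rw [← mul_assoc, Real.mul_self_sqrt (e1 p)]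
  have e3 : ∀ p : I × J, Real.sqrt (μ p.1 * ν p.2) ^ 2 = μ p.1 * ν p.2 :=
    fun p => Real.sq_sqrt (e1 p)
  have e4 : ∀ p : I × J, (Real.sqrt (μ p.1 * ν p.2) * |f p.1 p.2|) ^ 2
      = μ p.1 * ν p.2 * f p.1 p.2 ^ 2 := by
    intro p; rw [mul_pow, e3, sq_abs]
  simp only [e2, e3, e4] at h1
  refine h1.trans ?_
  have h2 : ∑ p ∈ (univ ×ˢ univ : Finset (I × J)), μ p.1 * ν p.2 ≤ 1 := by
    rw [Finset.sum_product, ← Finset.sum_mul_sum]
    calc (∑ i, μ i) * ∑ j, ν j ≤ 1 * 1 :=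
          mul_le_mul hμ1 hν1 (Finset.sum_nonneg fun j _ => hν j) (by norm_num)
      _ = 1 := by norm_num
  have h3 : 0 ≤ ∑ p ∈ (univ ×ˢ univ : Finset (I × J)), μ p.1 * ν p.2 * f p.1 p.2 ^ 2 :=
    Finset.sum_nonneg fun p _ => mul_nonneg (e1 p) (sq_nonneg _)
  nlinarith

variable {N : ℕ} {I J : Type*} [Fintype I] [Fintype J]

/-- estimate for one scale -/
theorem sharp_scale {q : ℝ} (hq1 : 1 < q) (hq2 : q < 2) (hN : 1 ≤ N)
    (μ : I → ℝ) (ν : J → ℝ) (hμ : ∀ i, 0 ≤ μ i) (hν : ∀ j, 0 ≤ ν j)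
    (hμ1 : ∑ i, μ i ≤ 1) (hν1 : ∑ j, ν j ≤ 1)
    (x : I → Fin N → ℝ) (y : J → Fin N → ℝ) (a b : ℕ) (R : ℝ) (hR : 0 ≤ R)
    (hxl : ∀ i m, x i m = 0 ∨ Int.log 2 |x i m| ∈ Finset.Icc (-(a : ℤ)) (b : ℤ))
    (hyl : ∀ j l, y j l = 0 ∨ Int.log 2 |y j l| ∈ Finset.Icc (-(a : ℤ)) (b : ℤ))
    (hxR : ∀ i, ∑ m, |x i m| ^ q ≤ R) (hyR : ∀ j, ∑ l, |y j l| ^ q ≤ R)
    (hx1 : ∀ m, ∑ i, μ i * |x i m| ^ q ≤ 1 / N) (hy1 : ∀ l, ∑ j, ν j * |y j l| ^ q ≤ 1 / N)
    (E : Fin N × Fin N → ℝ) (hE : ∀ e, E e ^ 2 = |E e|) (w t : ℝ) (hw : 0 ≤ w) (ht : 0 ≤ t)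
    (hcut : ∀ S' S : Finset (Fin N), |∑ e ∈ S' ×ˢ S, (|E e| - w)| ≤ t * (N : ℝ) ^ 2)
    (hchaos : ∀ σ σ' : Fin N → Fin N, ∀ ς ς' : Fin N → Bool,
      |∑ e : Fin N × Fin N, if (σ e.1, σ' e.2) = e then 0 else
      sg (ς e.1) * sg (ς' e.2) * E e * E (σ e.1, σ' e.2)| ≤ t * (N : ℝ) ^ 2)
    (P Q : Finset (ℤ × ℤ))
    (hPQ : Disjoint P Q)
    (hU : P ∪ Q = Finset.Icc (-(a : ℤ)) (b : ℤ) ×ˢ Finset.Icc (-(a : ℤ)) (b : ℤ)) :
    ∑ i, ∑ j, μ i * ν j * |bil E (x i) (y j)|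
      ≤ (∑ p ∈ P, w * (2 ^ ((p.1 : ℝ) * (1 - q)) * ∑ m, ∑ i, μ i * |xr p.1 (x i m)| ^ q) *
            (2 ^ ((p.2 : ℝ) * (1 - q)) * ∑ l, ∑ j, ν j * |xr p.2 (y j l)| ^ q)
          + (P.card : ℝ) * (2 ^ ((a : ℝ) * (q - 1))) ^ 2 * t)
        + Real.sqrt (∑ p ∈ Q, w *
            (2 ^ (((p.1 : ℝ) + 1) * (2 - q)) * ∑ m, ∑ i, μ i * |xr p.1 (x i m)| ^ q) *
            (2 ^ (((p.2 : ℝ) + 1) * (2 - q)) * ∑ l, ∑ j, ν j * |xr p.2 (y j l)| ^ q)
          + ((Q.card : ℝ) * (2 ^ (((b : ℝ) + 1) * (2 - q))) ^ 2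
            + (Q.card : ℝ) ^ 2 * ((2 ^ ((a : ℝ) * (q - 1))) ^ 4 * R ^ 2)) * t) := by
  classical
  have hN0 : (0 : ℝ) < N := by exact_mod_cast hN
  set Lv := Finset.Icc (-(a : ℤ)) (b : ℤ) with hLv
  have hxa : ∀ i m, x i m = 0 ∨ -(a : ℤ) ≤ Int.log 2 |x i m| := fun i m =>
    (hxl i m).imp id (fun h => (Finset.mem_Icc.1 h).1)
  have hya : ∀ j l, y j l = 0 ∨ -(a : ℤ) ≤ Int.log 2 |y j l| := fun j l =>
    (hyl j l).imp id (fun h => (Finset.mem_Icc.1 h).1)
  have hxb : ∀ i m, x i m = 0 ∨ Int.log 2 |x i m| ≤ (b : ℤ) := fun i m =>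
    (hxl i m).imp id (fun h => (Finset.mem_Icc.1 h).2)
  have hyb : ∀ j l, y j l = 0 ∨ Int.log 2 |y j l| ≤ (b : ℤ) := fun j l =>
    (hyl j l).imp id (fun h => (Finset.mem_Icc.1 h).2)
  set A := (2 : ℝ) ^ ((a : ℝ) * (q - 1)) with hA
  set B := (2 : ℝ) ^ (((b : ℝ) + 1) * (2 - q)) with hB
  have hA0 : 0 ≤ A := by positivity
  have hB0 : 0 ≤ B := by positivity
  -- generic pointwise facts
  have key1 : ∀ (r : ℤ) (s : ℝ), (s = 0 ∨ -(a : ℤ) ≤ Int.log 2 |s|) →
      |xr r s| ≤ A * |s| ^ q := by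
    intro r s hs
    rcases xr_eq_zero_or r s with h | h
    · rw [h, abs_zero]; positivity
    · rw [h]; exact abs_le_of_level hq1.le hs
  have key2 : ∀ (r : ℤ) (s : ℝ), (s = 0 ∨ Int.log 2 |s| ≤ (b : ℤ)) →
      xr r s ^ 2 ≤ B * |s| ^ q := by
    intro r s hs
    rcases xr_eq_zero_or r s with h | h
    · rw [h]
      have : (0 : ℝ) ^ 2 = 0 := by norm_num
      rw [this]; positivity
    · rw [h]; exact sq_le_of_level hq2.le hs
  -- the decomposition
  have hdec : ∀ i j, bil E (x i) (y j)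
      = ∑ p ∈ P, bil E (fun m => xr p.1 (x i m)) (fun l => xr p.2 (y j l))
        + ∑ p ∈ Q, bil E (fun m => xr p.1 (x i m)) (fun l => xr p.2 (y j l)) := by
    intro i j
    rw [← Finset.sum_union hPQ, hU, Finset.sum_product]
    unfold bil
    have h1 : ∀ r s, ∑ e : Fin N × Fin N, xr r (x i e.1) * xr s (y j e.2) * E e
        = ∑ e : Fin N × Fin N, xr r (x i e.1) * xr s (y j e.2) * E e := fun _ _ => rfl
    calc ∑ e : Fin N × Fin N, x i e.1 * y j e.2 * E e
        = ∑ e : Fin N × Fin N, (∑ r ∈ Lv, xr r (x i e.1)) * (∑ s ∈ Lv, xr s (y j e.2)) * E e := by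
          refine Finset.sum_congr rfl fun e _ => ?_
          rw [sum_xr (hxl i e.1), sum_xr (hyl j e.2)]
      _ = ∑ e : Fin N × Fin N, ∑ r ∈ Lv, ∑ s ∈ Lv, xr r (x i e.1) * xr s (y j e.2) * E e := by
          refine Finset.sum_congr rfl fun e _ => ?_
          rw [Finset.sum_mul_sum, Finset.sum_mul]
          exact Finset.sum_congr rfl fun r _ => by rw [Finset.sum_mul]
      _ = _ := by
          rw [Finset.sum_comm]
          refine Finset.sum_congr rfl fun r _ => ?_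
          rw [Finset.sum_comm]
  have hstep : ∑ i, ∑ j, μ i * ν j * |bil E (x i) (y j)|
      ≤ ∑ i, ∑ j, μ i * ν j * |∑ p ∈ P, bil E (fun m => xr p.1 (x i m))
          (fun l => xr p.2 (y j l))|
        + ∑ i, ∑ j, μ i * ν j * |∑ p ∈ Q, bil E (fun m => xr p.1 (x i m))
          (fun l => xr p.2 (y j l))| := by
    rw [← Finset.sum_add_distrib]
    refine Finset.sum_le_sum fun i _ => ?_
    rw [← Finset.sum_add_distrib]
    refine Finset.sum_le_sum fun j _ => ?_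
    rw [hdec i j, ← mul_add]
    exact mul_le_mul_of_nonneg_left (abs_add_le _ _) (mul_nonneg (hμ i) (hν j))
  refine hstep.trans (add_le_add ?_ ?_)
  · -- high part
    have h1 := high_abs μ ν hμ hν P (fun r i m => xr r (x i m)) (fun s j l => xr s (y j l))
      E w (t * (N : ℝ) ^ 2) (A / N) (A / N) hcut (by positivity) (by positivity)
      (fun r m => by
        calc ∑ i, μ i * |xr r (x i m)| ≤ ∑ i, μ i * (A * |x i m| ^ q) :=
              Finset.sum_le_sum fun i _ => mul_le_mul_of_nonneg_left (key1 r _ (hxa i m)) (hμ i)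
          _ = A * ∑ i, μ i * |x i m| ^ q := by
              rw [Finset.mul_sum]; exact Finset.sum_congr rfl fun i _ => by ring
          _ ≤ A * (1 / N) := mul_le_mul_of_nonneg_left (hx1 m) hA0
          _ = A / N := by ring)
      (fun s l => by
        calc ∑ j, ν j * |xr s (y j l)| ≤ ∑ j, ν j * (A * |y j l| ^ q) :=
              Finset.sum_le_sum fun j _ => mul_le_mul_of_nonneg_left (key1 s _ (hya j l)) (hν j)
          _ = A * ∑ j, ν j * |y j l| ^ q := by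
              rw [Finset.mul_sum]; exact Finset.sum_congr rfl fun i _ => by ring
          _ ≤ A * (1 / N) := mul_le_mul_of_nonneg_left (hy1 l) hA0
          _ = A / N := by ring)
    refine h1.trans ?_
    rw [Finset.sum_add_distrib]
    refine add_le_add ?_ (le_of_eq ?_)
    · refine Finset.sum_le_sum fun p _ => ?_
      have e1 : ∑ m, ∑ i, μ i * |xr p.1 (x i m)|
          ≤ 2 ^ ((p.1 : ℝ) * (1 - q)) * ∑ m, ∑ i, μ i * |xr p.1 (x i m)| ^ q := by
        rw [Finset.mul_sum]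
        refine Finset.sum_le_sum fun m _ => ?_
        rw [Finset.mul_sum]
        refine Finset.sum_le_sum fun i _ => ?_
        calc μ i * |xr p.1 (x i m)| ≤ μ i * (2 ^ ((p.1 : ℝ) * (1 - q)) * |xr p.1 (x i m)| ^ q) :=
              mul_le_mul_of_nonneg_left (abs_xr_le hq1.le _ _) (hμ i)
          _ = _ := by ring
      have e2 : ∑ l, ∑ j, ν j * |xr p.2 (y j l)|
          ≤ 2 ^ ((p.2 : ℝ) * (1 - q)) * ∑ l, ∑ j, ν j * |xr p.2 (y j l)| ^ q := by
        rw [Finset.mul_sum]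
        refine Finset.sum_le_sum fun m _ => ?_
        rw [Finset.mul_sum]
        refine Finset.sum_le_sum fun i _ => ?_
        calc ν i * |xr p.2 (y i m)| ≤ ν i * (2 ^ ((p.2 : ℝ) * (1 - q)) * |xr p.2 (y i m)| ^ q) :=
              mul_le_mul_of_nonneg_left (abs_xr_le hq1.le _ _) (hν i)
          _ = _ := by ring
      have e3 : 0 ≤ ∑ m, ∑ i, μ i * |xr p.1 (x i m)| :=
        Finset.sum_nonneg fun m _ => Finset.sum_nonneg fun i _ => mul_nonneg (hμ i) (abs_nonneg _)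
      have e4 : 0 ≤ ∑ l, ∑ j, ν j * |xr p.2 (y j l)| :=
        Finset.sum_nonneg fun m _ => Finset.sum_nonneg fun i _ => mul_nonneg (hν i) (abs_nonneg _)
      exact mul_le_mul (mul_le_mul_of_nonneg_left e1 hw) e2 e4
        (mul_nonneg hw (e3.trans e1))
    · rw [Finset.sum_const, nsmul_eq_mul]
      field_simp
  · -- low part
    refine (weighted_abs_le_sqrt μ ν hμ hν hμ1 hν1 _).trans (Real.sqrt_le_sqrt ?_)
    have hgx : ∀ (r ρ : ℤ) (m : Fin N),
        ∑ m', |∑ i, μ i * (xr r (x i m) * xr ρ (x i m'))| ≤ A ^ 2 * R / N := by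
      intro r ρ m
      calc ∑ m', |∑ i, μ i * (xr r (x i m) * xr ρ (x i m'))|
          ≤ ∑ m', ∑ i, μ i * (|xr r (x i m)| * |xr ρ (x i m')|) := by
            refine Finset.sum_le_sum fun m' _ => ?_
            refine (Finset.abs_sum_le_sum_abs _ _).trans (le_of_eq ?_)
            refine Finset.sum_congr rfl fun i _ => ?_
            rw [abs_mul, abs_mul, abs_of_nonneg (hμ i)]
        _ = ∑ i, μ i * (|xr r (x i m)| * ∑ m', |xr ρ (x i m')|) := by
            rw [Finset.sum_comm]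
            refine Finset.sum_congr rfl fun i _ => ?_
            rw [← Finset.mul_sum, ← Finset.mul_sum]
        _ ≤ ∑ i, μ i * ((A * |x i m| ^ q) * (A * R)) := by
            refine Finset.sum_le_sum fun i _ => mul_le_mul_of_nonneg_left ?_ (hμ i)
            refine mul_le_mul (key1 r _ (hxa i m)) ?_
              (Finset.sum_nonneg fun _ _ => abs_nonneg _) (by positivity)
            calc ∑ m', |xr ρ (x i m')| ≤ ∑ m', A * |x i m'| ^ q :=
                  Finset.sum_le_sum fun m' _ => key1 ρ _ (hxa i m')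
              _ = A * ∑ m', |x i m'| ^ q := by rw [Finset.mul_sum]
              _ ≤ A * R := mul_le_mul_of_nonneg_left (hxR i) hA0
        _ = A ^ 2 * R * ∑ i, μ i * |x i m| ^ q := by
            rw [Finset.mul_sum]; exact Finset.sum_congr rfl fun i _ => by ring
        _ ≤ A ^ 2 * R * (1 / N) := mul_le_mul_of_nonneg_left (hx1 m) (by positivity)
        _ = A ^ 2 * R / N := by ring
    have hgy : ∀ (r ρ : ℤ) (l : Fin N),
        ∑ l', |∑ j, ν j * (xr r (y j l) * xr ρ (y j l'))| ≤ A ^ 2 * R / N := by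
      intro r ρ m
      calc ∑ m', |∑ i, ν i * (xr r (y i m) * xr ρ (y i m'))|
          ≤ ∑ m', ∑ i, ν i * (|xr r (y i m)| * |xr ρ (y i m')|) := by
            refine Finset.sum_le_sum fun m' _ => ?_
            refine (Finset.abs_sum_le_sum_abs _ _).trans (le_of_eq ?_)
            refine Finset.sum_congr rfl fun i _ => ?_
            rw [abs_mul, abs_mul, abs_of_nonneg (hν i)]
        _ = ∑ i, ν i * (|xr r (y i m)| * ∑ m', |xr ρ (y i m')|) := by
            rw [Finset.sum_comm]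
            refine Finset.sum_congr rfl fun i _ => ?_
            rw [← Finset.mul_sum, ← Finset.mul_sum]
        _ ≤ ∑ i, ν i * ((A * |y i m| ^ q) * (A * R)) := by
            refine Finset.sum_le_sum fun i _ => mul_le_mul_of_nonneg_left ?_ (hν i)
            refine mul_le_mul (key1 r _ (hya i m)) ?_
              (Finset.sum_nonneg fun _ _ => abs_nonneg _) (by positivity)
            calc ∑ m', |xr ρ (y i m')| ≤ ∑ m', A * |y i m'| ^ q :=
                  Finset.sum_le_sum fun m' _ => key1 ρ _ (hya i m')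
              _ = A * ∑ m', |y i m'| ^ q := by rw [Finset.mul_sum]
              _ ≤ A * R := mul_le_mul_of_nonneg_left (hyR i) hA0
        _ = A ^ 2 * R * ∑ i, ν i * |y i m| ^ q := by
            rw [Finset.mul_sum]; exact Finset.sum_congr rfl fun i _ => by ring
        _ ≤ A ^ 2 * R * (1 / N) := mul_le_mul_of_nonneg_left (hy1 m) (by positivity)
        _ = A ^ 2 * R / N := by ring
    have h1 := low_abs hN μ ν hμ hν Q (fun r i m => xr r (x i m)) (fun s j l => xr s (y j l))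
      E hE w (t * (N : ℝ) ^ 2) (B / N) (B / N) (A ^ 2 * R / N) (A ^ 2 * R / N) hcut hchaos
      (by positivity) (by positivity) (by positivity) (by positivity)
      (fun r ρ i m h => xr_mul_xr h _) (fun r ρ i m h => xr_mul_xr h _)
      (fun r m => by
        calc ∑ i, μ i * xr r (x i m) ^ 2 ≤ ∑ i, μ i * (B * |x i m| ^ q) :=
              Finset.sum_le_sum fun i _ => mul_le_mul_of_nonneg_left (key2 r _ (hxb i m)) (hμ i)
          _ = B * ∑ i, μ i * |x i m| ^ q := by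
              rw [Finset.mul_sum]; exact Finset.sum_congr rfl fun i _ => by ring
          _ ≤ B * (1 / N) := mul_le_mul_of_nonneg_left (hx1 m) hB0
          _ = B / N := by ring)
      (fun s l => by
        calc ∑ j, ν j * xr s (y j l) ^ 2 ≤ ∑ j, ν j * (B * |y j l| ^ q) :=
              Finset.sum_le_sum fun j _ => mul_le_mul_of_nonneg_left (key2 s _ (hyb j l)) (hν j)
          _ = B * ∑ j, ν j * |y j l| ^ q := by
              rw [Finset.mul_sum]; exact Finset.sum_congr rfl fun i _ => by ring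
          _ ≤ B * (1 / N) := mul_le_mul_of_nonneg_left (hy1 l) hB0
          _ = B / N := by ring)
      hgx hgy
    refine h1.trans ?_
    rw [Finset.sum_add_distrib, Finset.sum_const, nsmul_eq_mul, add_assoc]
    refine add_le_add ?_ (le_of_eq ?_)
    · refine Finset.sum_le_sum fun p _ => ?_
      have e1 : ∑ m, ∑ i, μ i * xr p.1 (x i m) ^ 2
          ≤ 2 ^ (((p.1 : ℝ) + 1) * (2 - q)) * ∑ m, ∑ i, μ i * |xr p.1 (x i m)| ^ q := by
        rw [Finset.mul_sum]
        refine Finset.sum_le_sum fun m _ => ?_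
        rw [Finset.mul_sum]
        refine Finset.sum_le_sum fun i _ => ?_
        calc μ i * xr p.1 (x i m) ^ 2
            ≤ μ i * (2 ^ (((p.1 : ℝ) + 1) * (2 - q)) * |xr p.1 (x i m)| ^ q) :=
              mul_le_mul_of_nonneg_left (sq_xr_le hq2.le _ _) (hμ i)
          _ = _ := by ring
      have e2 : ∑ l, ∑ j, ν j * xr p.2 (y j l) ^ 2
          ≤ 2 ^ (((p.2 : ℝ) + 1) * (2 - q)) * ∑ l, ∑ j, ν j * |xr p.2 (y j l)| ^ q := by
        rw [Finset.mul_sum]
        refine Finset.sum_le_sum fun m _ => ?_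
        rw [Finset.mul_sum]
        refine Finset.sum_le_sum fun i _ => ?_
        calc ν i * xr p.2 (y i m) ^ 2
            ≤ ν i * (2 ^ (((p.2 : ℝ) + 1) * (2 - q)) * |xr p.2 (y i m)| ^ q) :=
              mul_le_mul_of_nonneg_left (sq_xr_le hq2.le _ _) (hν i)
          _ = _ := by ring
      have e3 : 0 ≤ ∑ m, ∑ i, μ i * xr p.1 (x i m) ^ 2 :=
        Finset.sum_nonneg fun m _ => Finset.sum_nonneg fun i _ => mul_nonneg (hμ i) (sq_nonneg _)
      have e4 : 0 ≤ ∑ l, ∑ j, ν j * xr p.2 (y j l) ^ 2 :=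
        Finset.sum_nonneg fun m _ => Finset.sum_nonneg fun i _ => mul_nonneg (hν i) (sq_nonneg _)
      exact mul_le_mul (mul_le_mul_of_nonneg_left e1 hw) e2 e4
        (mul_nonneg hw (e3.trans e1))
    · field_simp

end

end Pool.Agent.MP_119be6_an
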