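import Pool.Agent.Lib.MP_119be6_an.Sharp

/-!
Summation over the scales.
-/

namespace Pool.Agent.MP_119be6_an

open Finset

/-- constant of the high part -/
noncomputable def C1 (q : ℝ) : ℝ := 2 ^ (q - 1) * (1 / (1 - 2 ^ (-(q - 1))))

/-- constant of the low part -/
noncomputable def C2 (q : ℝ) : ℝ := 1 / (1 - 2 ^ (-(2 - q)))

lemma C1_nonneg {q : ℝ} (hq : 1 < q) : 0 ≤ C1 q := by
  unfold C1
  have hx1 : (2 : ℝ) ^ (-(q - 1)) < 1 := Real.rpow_lt_one_of_one_lt_of_neg (by norm_num) (by linarith)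
  have : 0 < 1 - (2 : ℝ) ^ (-(q - 1)) := by linarith
  positivity

lemma C2_nonneg {q : ℝ} (hq : q < 2) : 0 ≤ C2 q := by
  unfold C2
  have hx1 : (2 : ℝ) ^ (-(2 - q)) < 1 := Real.rpow_lt_one_of_one_lt_of_neg (by norm_num) (by linarith)
  have : 0 < 1 - (2 : ℝ) ^ (-(2 - q)) := by linarith
  positivity

lemma sum_sqrt_le (L : ℕ) (f : ℕ → ℝ) (hf : ∀ k, 0 ≤ f k) :
    ∑ k ∈ range L, Real.sqrt (f k) ≤ Real.sqrt (L * ∑ k ∈ range L, f k) := by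
  refine Real.le_sqrt_of_sq_le ?_
  have h := sq_sum_le_card_mul_sum_sq (s := range L) (f := fun k => Real.sqrt (f k))
  rw [Finset.card_range] at h
  refine h.trans (le_of_eq ?_)
  congr 1
  exact Finset.sum_congr rfl fun k _ => Real.sq_sqrt (hf k)

/-- interchange of the scale and level sums -/
lemma scale_swap (Lv : Finset ℤ) (L : ℕ) (α β : ℤ → ℝ) (hα : ∀ r, 0 ≤ α r) (hβ : ∀ r, 0 ≤ β r)
    (hα1 : ∑ r ∈ Lv, α r ≤ 1) (hβ1 : ∑ r ∈ Lv, β r ≤ 1) (p : ℕ → ℤ → Prop)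
    [∀ k n, Decidable (p k n)] (g : ℕ → ℤ → ℝ) (C : ℝ) (hC : 0 ≤ C)
    (hg : ∀ n, ∑ k ∈ (range L).filter (fun k => p k n), g k n ≤ C) :
    ∑ k ∈ range L, ∑ z ∈ (Lv ×ˢ Lv).filter (fun z => p k (z.1 + z.2)),
      g k (z.1 + z.2) * (α z.1 * β z.2) ≤ C := by
  have h1 : ∑ k ∈ range L, ∑ z ∈ (Lv ×ˢ Lv).filter (fun z => p k (z.1 + z.2)),
      g k (z.1 + z.2) * (α z.1 * β z.2)
      = ∑ z ∈ Lv ×ˢ Lv, (∑ k ∈ (range L).filter (fun k => p k (z.1 + z.2)), g k (z.1 + z.2)) *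
        (α z.1 * β z.2) := by
    simp only [Finset.sum_filter]
    rw [Finset.sum_comm]
    refine Finset.sum_congr rfl fun z _ => ?_
    rw [Finset.sum_mul]
    refine Finset.sum_congr rfl fun k _ => ?_
    split_ifs <;> ring
  rw [h1]
  calc ∑ z ∈ Lv ×ˢ Lv, (∑ k ∈ (range L).filter (fun k => p k (z.1 + z.2)), g k (z.1 + z.2)) *
        (α z.1 * β z.2) ≤ ∑ z ∈ Lv ×ˢ Lv, C * (α z.1 * β z.2) :=
        Finset.sum_le_sum fun z _ => mul_le_mul_of_nonneg_right (hg _) (mul_nonneg (hα _) (hβ _))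
    _ = C * ((∑ r ∈ Lv, α r) * ∑ s ∈ Lv, β s) := by
        rw [← Finset.mul_sum, Finset.sum_mul_sum, ← Finset.sum_product']
    _ ≤ C * (1 * 1) := mul_le_mul_of_nonneg_left
        (mul_le_mul hα1 hβ1 (Finset.sum_nonneg fun _ _ => hβ _) (by norm_num)) hC
    _ = C := by ring

lemma level_mass_le {N : ℕ} {I : Type*} [Fintype I] {q : ℝ} (hq : 0 < q) (hN : 1 ≤ N)
    (μ : I → ℝ) (hμ : ∀ i, 0 ≤ μ i) (x : I → Fin N → ℝ)
    (hx1 : ∀ m, ∑ i, μ i * |x i m| ^ q ≤ 1 / N) (Lv : Finset ℤ) :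
    ∑ r ∈ Lv, ∑ m, ∑ i, μ i * |xr r (x i m)| ^ q ≤ 1 := by
  have hN0 : (0 : ℝ) < N := by exact_mod_cast hN
  calc ∑ r ∈ Lv, ∑ m, ∑ i, μ i * |xr r (x i m)| ^ q
      = ∑ m, ∑ i, μ i * ∑ r ∈ Lv, |xr r (x i m)| ^ q := by
        rw [Finset.sum_comm]
        refine Finset.sum_congr rfl fun m _ => ?_
        rw [Finset.sum_comm]
        refine Finset.sum_congr rfl fun i _ => ?_
        rw [Finset.mul_sum]
    _ ≤ ∑ m, ∑ i, μ i * |x i m| ^ q :=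
        Finset.sum_le_sum fun m _ => Finset.sum_le_sum fun i _ =>
          mul_le_mul_of_nonneg_left (sum_xr_pow_le hq Lv _) (hμ i)
    _ ≤ ∑ _m : Fin N, 1 / (N : ℝ) := Finset.sum_le_sum fun m _ => hx1 m
    _ = 1 := by
        rw [Finset.sum_const, Finset.card_univ, Fintype.card_fin, nsmul_eq_mul]
        field_simp

theorem sharp_part {q : ℝ} (hq1 : 1 < q) (hq2 : q < 2) (a b L : ℕ) (R : ℝ) (hR : 0 ≤ R) :
    ∃ K : ℝ, 0 ≤ K ∧ ∀ (N : ℕ) (_ : 1 ≤ N) (I J : Type) [Fintype I] [Fintype J]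
    (μ : I → ℝ) (ν : J → ℝ)
    (_ : ∀ i, 0 ≤ μ i) (_ : ∀ j, 0 ≤ ν j) (_ : ∑ i, μ i ≤ 1) (_ : ∑ j, ν j ≤ 1)
    (x : I → Fin N → ℝ) (y : J → Fin N → ℝ)
    (_ : ∀ i m, x i m = 0 ∨ Int.log 2 |x i m| ∈ Finset.Icc (-(a : ℤ)) (b : ℤ))
    (_ : ∀ j l, y j l = 0 ∨ Int.log 2 |y j l| ∈ Finset.Icc (-(a : ℤ)) (b : ℤ))
    (_ : ∀ i, ∑ m, |x i m| ^ q ≤ R) (_ : ∀ j, ∑ l, |y j l| ^ q ≤ R)
    (_ : ∀ m, ∑ i, μ i * |x i m| ^ q ≤ 1 / N) (_ : ∀ l, ∑ j, ν j * |y j l| ^ q ≤ 1 / N)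
    (E : ℕ → Fin N × Fin N → ℝ) (_ : ∀ k < L, ∀ e, E k e ^ 2 = |E k e|) (t : ℝ) (_ : 0 ≤ t)
    (_ : ∀ k < L, ∀ S' S : Finset (Fin N),
      |∑ e ∈ S' ×ˢ S, (|E k e| - 2 ^ (-((k : ℝ) + 1) * q))| ≤ t * (N : ℝ) ^ 2)
    (_ : ∀ k < L, ∀ σ σ' : Fin N → Fin N, ∀ ς ς' : Fin N → Bool,
      |∑ e : Fin N × Fin N, if (σ e.1, σ' e.2) = e then 0 else
      sg (ς e.1) * sg (ς' e.2) * E k e * E k (σ e.1, σ' e.2)| ≤ t * (N : ℝ) ^ 2),
    ∑ k ∈ range L, 2 ^ ((k : ℝ) + 1) * ∑ i, ∑ j, μ i * ν j * |bil (E k) (x i) (y j)|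
      ≤ (C1 q + K * t) + Real.sqrt (L * (C2 q + K * t)) := by
  classical
  set Lv := Finset.Icc (-(a : ℤ)) (b : ℤ) with hLv
  set A := (2 : ℝ) ^ ((a : ℝ) * (q - 1)) with hA
  set B := (2 : ℝ) ^ (((b : ℝ) + 1) * (2 - q)) with hB
  set n2 : ℝ := ((Lv ×ˢ Lv).card : ℝ) with hn2
  have hn20 : 0 ≤ n2 := by positivity
  have hA0 : 0 ≤ A := by positivity
  have hB0 : 0 ≤ B := by positivity
  set K1 : ℝ := ∑ k ∈ range L, (2 : ℝ) ^ ((k : ℝ) + 1) * (n2 * A ^ 2) with hK1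
  set K2 : ℝ := ∑ k ∈ range L, ((2 : ℝ) ^ ((k : ℝ) + 1)) ^ 2 *
    (n2 * B ^ 2 + n2 ^ 2 * (A ^ 4 * R ^ 2)) with hK2
  have hK10 : 0 ≤ K1 := Finset.sum_nonneg fun k _ => by positivity
  have hK20 : 0 ≤ K2 := Finset.sum_nonneg fun k _ => by positivity
  refine ⟨K1 + K2, by positivity, ?_⟩
  intro N hN I J _ _ μ ν hμ hν hμ1 hν1 x y hxl hyl hxR hyR hx1 hy1 E hE t ht hcut hchaos
  set α : ℤ → ℝ := fun r => ∑ m, ∑ i, μ i * |xr r (x i m)| ^ q with hα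
  set β : ℤ → ℝ := fun r => ∑ l, ∑ j, ν j * |xr r (y j l)| ^ q with hβ
  have hα0 : ∀ r, 0 ≤ α r := fun r => Finset.sum_nonneg fun m _ => Finset.sum_nonneg fun i _ =>
    mul_nonneg (hμ i) (by positivity)
  have hβ0 : ∀ r, 0 ≤ β r := fun r => Finset.sum_nonneg fun m _ => Finset.sum_nonneg fun i _ =>
    mul_nonneg (hν i) (by positivity)
  have hα1 : ∑ r ∈ Lv, α r ≤ 1 := level_mass_le (by linarith) hN μ hμ x hx1 Lv
  have hβ1 : ∑ r ∈ Lv, β r ≤ 1 := level_mass_le (by linarith) hN ν hν y hy1 Lv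
  set P : ℕ → Finset (ℤ × ℤ) := fun k =>
    (Lv ×ˢ Lv).filter (fun z => 0 < (z.1 + z.2) + ((k : ℤ) + 1) + 2) with hP
  set Q : ℕ → Finset (ℤ × ℤ) := fun k =>
    (Lv ×ˢ Lv).filter (fun z => ¬ (0 < (z.1 + z.2) + ((k : ℤ) + 1) + 2)) with hQ
  have hPc : ∀ k, ((P k).card : ℝ) ≤ n2 := fun k =>
    Nat.cast_le.2 (Finset.card_le_card (Finset.filter_subset _ _))
  have hQc : ∀ k, ((Q k).card : ℝ) ≤ n2 := fun k =>
    Nat.cast_le.2 (Finset.card_le_card (Finset.filter_subset _ _))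
  set HI : ℕ → ℝ := fun k => ∑ p ∈ P k, (2 : ℝ) ^ (-((k : ℝ) + 1) * q) *
    (2 ^ ((p.1 : ℝ) * (1 - q)) * α p.1) * (2 ^ ((p.2 : ℝ) * (1 - q)) * β p.2) with hHI
  set LO : ℕ → ℝ := fun k => ∑ p ∈ Q k, (2 : ℝ) ^ (-((k : ℝ) + 1) * q) *
    (2 ^ (((p.1 : ℝ) + 1) * (2 - q)) * α p.1) * (2 ^ (((p.2 : ℝ) + 1) * (2 - q)) * β p.2) with hLO
  have hLO0 : ∀ k, 0 ≤ LO k := fun k => Finset.sum_nonneg fun p _ => by
    have := hα0 p.1
    have := hβ0 p.2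
    positivity
  have hscale : ∀ k ∈ range L, 2 ^ ((k : ℝ) + 1) * ∑ i, ∑ j, μ i * ν j * |bil (E k) (x i) (y j)|
      ≤ (2 ^ ((k : ℝ) + 1) * HI k + 2 ^ ((k : ℝ) + 1) * (n2 * A ^ 2) * t)
        + Real.sqrt ((2 ^ ((k : ℝ) + 1)) ^ 2 * LO k + (2 ^ ((k : ℝ) + 1)) ^ 2 *
          (n2 * B ^ 2 + n2 ^ 2 * (A ^ 4 * R ^ 2)) * t) := by
    intro k hk
    rw [Finset.mem_range] at hk
    have h := sharp_scale hq1 hq2 hN μ ν hμ hν hμ1 hν1 x y a b R hR hxl hyl hxR hyR hx1 hy1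
      (E k) (hE k hk) (2 ^ (-((k : ℝ) + 1) * q)) t (by positivity) ht (hcut k hk) (hchaos k hk)
      (P k) (Q k) (Finset.disjoint_filter_filter_not _ _ _) (Finset.filter_union_filter_not_eq _ _)
    have h2 : (0 : ℝ) ≤ 2 ^ ((k : ℝ) + 1) := by positivity
    refine (mul_le_mul_of_nonneg_left h h2).trans ?_
    rw [mul_add]
    refine add_le_add ?_ ?_
    · rw [mul_add, mul_assoc (2 ^ ((k : ℝ) + 1)) (n2 * A ^ 2) t]
      refine add_le_add (le_refl _) (mul_le_mul_of_nonneg_left ?_ h2)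
      exact mul_le_mul_of_nonneg_right (mul_le_mul_of_nonneg_right (hPc k) (sq_nonneg _)) ht
    · have h3 : ∀ c z : ℝ, 0 ≤ c → c * Real.sqrt z = Real.sqrt (c ^ 2 * z) := by
        intro c z hc
        rw [Real.sqrt_mul (sq_nonneg _), Real.sqrt_sq hc]
      rw [h3 _ _ h2]
      refine Real.sqrt_le_sqrt ?_
      rw [mul_add, mul_assoc ((2 ^ ((k : ℝ) + 1)) ^ 2) (n2 * B ^ 2 + n2 ^ 2 * (A ^ 4 * R ^ 2)) t]
      refine add_le_add (le_refl _) (mul_le_mul_of_nonneg_left ?_ (sq_nonneg _))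
      refine mul_le_mul_of_nonneg_right (add_le_add ?_ ?_) ht
      · exact mul_le_mul_of_nonneg_right (hQc k) (sq_nonneg _)
      · refine mul_le_mul_of_nonneg_right ?_ (by positivity)
        exact pow_le_pow_left₀ (by positivity) (hQc k) 2
  refine (Finset.sum_le_sum hscale).trans ?_
  rw [Finset.sum_add_distrib, Finset.sum_add_distrib, ← Finset.sum_mul]
  refine add_le_add (add_le_add ?_ ?_) ?_
  · -- high part
    have h1 := scale_swap Lv L α β hα0 hβ0 hα1 hβ1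
      (fun k n => 0 < n + ((k : ℤ) + 1) + 2)
      (fun k n => (2 : ℝ) ^ (-(((k : ℝ) + 1) + n) * (q - 1))) (C1 q) (C1_nonneg hq1)
      (fun n => geo_high (by linarith) n L)
    refine le_trans (le_of_eq ?_) h1
    refine Finset.sum_congr rfl fun k _ => ?_
    simp only [hHI]
    rw [Finset.mul_sum]
    refine Finset.sum_congr rfl fun z _ => ?_
    have e1 : (2 : ℝ) ^ (-(((k : ℝ) + 1) + ((z.1 + z.2 : ℤ) : ℝ)) * (q - 1))
        = 2 ^ ((k : ℝ) + 1) * 2 ^ (-((k : ℝ) + 1) * q) * 2 ^ ((z.1 : ℝ) * (1 - q)) *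
          2 ^ ((z.2 : ℝ) * (1 - q)) := by
      rw [← Real.rpow_add (by norm_num), ← Real.rpow_add (by norm_num),
        ← Real.rpow_add (by norm_num)]
      congr 1
      push_cast
      ring
    rw [e1]; ring
  · exact mul_le_mul_of_nonneg_right (by linarith) ht
  · -- low part
    refine (sum_sqrt_le L _ (fun k => ?_)).trans (Real.sqrt_le_sqrt ?_)
    · have := hLO0 k
      positivity
    · refine mul_le_mul_of_nonneg_left ?_ (Nat.cast_nonneg L)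
      rw [Finset.sum_add_distrib, ← Finset.sum_mul]
      refine add_le_add ?_ (mul_le_mul_of_nonneg_right (by linarith) ht)
      have h1 := scale_swap Lv L α β hα0 hβ0 hα1 hβ1
        (fun k n => ¬ (0 < n + ((k : ℤ) + 1) + 2))
        (fun k n => (2 : ℝ) ^ ((((k : ℝ) + 1) + n + 2) * (2 - q))) (C2 q) (C2_nonneg hq2)
        (fun n => geo_low (by linarith) n L)
      refine le_trans (le_of_eq ?_) h1
      refine Finset.sum_congr rfl fun k _ => ?_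
      simp only [hLO]
      rw [Finset.mul_sum]
      refine Finset.sum_congr rfl fun z _ => ?_
      have e1 : (2 : ℝ) ^ ((((k : ℝ) + 1) + ((z.1 + z.2 : ℤ) : ℝ) + 2) * (2 - q))
          = 2 ^ ((k : ℝ) + 1) * 2 ^ ((k : ℝ) + 1) * 2 ^ (-((k : ℝ) + 1) * q) *
            2 ^ (((z.1 : ℝ) + 1) * (2 - q)) * 2 ^ (((z.2 : ℝ) + 1) * (2 - q)) := by
        rw [← Real.rpow_add (by norm_num), ← Real.rpow_add (by norm_num),
          ← Real.rpow_add (by norm_num), ← Real.rpow_add (by norm_num)]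
        congr 1
        push_cast
        ring
      rw [e1]; ring

end Pool.Agent.MP_119be6_an
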