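import Pool.Agent.Lib.MP_119be6_an.Quad

/-!
Union bound: existence of a good configuration.
-/

namespace Pool.Agent.MP_119be6_an

open Finset

/-- abstract union bound by exponential moments -/
lemma exists_of_sum_lt {Ω B : Type*} [Fintype Ω] [Fintype B] {W : Ω → ℝ} (hW : ∀ ω, 0 ≤ W ω)
    (hW1 : ∑ ω, W ω = 1) (f : B → Ω → ℝ) (u M : B → ℝ)
    (hM : ∀ b, ∑ ω, W ω * Real.exp (f b ω) ≤ M b) (hsum : ∑ b, M b * Real.exp (-(u b)) < 1) :
    ∃ ω, ∀ b, f b ω < u b := by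
  by_contra hcon
  push Not at hcon
  have h1 : ∀ ω, 1 ≤ ∑ b, Real.exp (f b ω) * Real.exp (-(u b)) := by
    intro ω
    obtain ⟨b, hb⟩ := hcon ω
    calc (1 : ℝ) ≤ Real.exp (f b ω) * Real.exp (-(u b)) := by
          rw [← Real.exp_add]
          exact Real.one_le_exp (by linarith)
      _ ≤ ∑ b, Real.exp (f b ω) * Real.exp (-(u b)) :=
          Finset.single_le_sum (f := fun b => Real.exp (f b ω) * Real.exp (-(u b)))
            (fun b _ => by positivity) (Finset.mem_univ b)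
  have h2 : (1 : ℝ) ≤ ∑ b, M b * Real.exp (-(u b)) := by
    calc (1 : ℝ) = ∑ ω, W ω * 1 := by simp [hW1]
      _ ≤ ∑ ω, W ω * ∑ b, Real.exp (f b ω) * Real.exp (-(u b)) :=
          Finset.sum_le_sum fun ω _ => mul_le_mul_of_nonneg_left (h1 ω) (hW ω)
      _ = ∑ b, (∑ ω, W ω * Real.exp (f b ω)) * Real.exp (-(u b)) := by
          simp only [Finset.mul_sum, Finset.sum_mul]
          rw [Finset.sum_comm]
          exact Finset.sum_congr rfl fun b _ => Finset.sum_congr rfl fun ω _ => by ring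
      _ ≤ ∑ b, M b * Real.exp (-(u b)) :=
          Finset.sum_le_sum fun b _ => mul_le_mul_of_nonneg_right (hM b) (Real.exp_pos _).le
  linarith

/-- integer vectors of squared length at most `16 N` -/
noncomputable def intBall (N : ℕ) : Finset (Fin N → ℤ) :=
  (Fintype.piFinset fun _ : Fin N => Finset.Icc (-(16 * (N : ℤ))) (16 * (N : ℤ))).filter
    (fun κ => ∑ m, κ m ^ 2 ≤ 16 * (N : ℤ))

lemma mem_intBall {N : ℕ} (κ : Fin N → ℤ) : κ ∈ intBall N ↔ ∑ m, κ m ^ 2 ≤ 16 * (N : ℤ) := by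
  unfold intBall
  simp only [Finset.mem_filter, Fintype.mem_piFinset, Finset.mem_Icc, and_iff_right_iff_imp]
  intro h m
  have h1 : κ m ^ 2 ≤ 16 * (N : ℤ) :=
    (Finset.single_le_sum (f := fun m => κ m ^ 2) (fun i _ => sq_nonneg _)
      (Finset.mem_univ m)).trans h
  have h2 : |κ m| ≤ κ m ^ 2 := by
    rw [← sq_abs]
    rcases eq_or_lt_of_le (abs_nonneg (κ m)) with h0 | h0
    · rw [← h0]; norm_num
    · nlinarith [show (1 : ℤ) ≤ |κ m| from h0]
  exact abs_le.1 (h2.trans h1)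

lemma sum_exp_neg_sq_le (M : ℕ) :
    ∑ j ∈ Finset.Icc (-(M : ℤ)) (M : ℤ), Real.exp (-((j : ℝ) ^ 2)) ≤ 3 := by
  have hle : ∀ j : ℤ, Real.exp (-((j : ℝ) ^ 2)) ≤ (1 / 2 : ℝ) ^ (j.natAbs) := by
    intro j
    have h1 : ((j.natAbs : ℕ) : ℝ) ≤ (j : ℝ) ^ 2 := by
      have h : |j| ≤ j ^ 2 := by
        rw [← sq_abs]
        rcases eq_or_lt_of_le (abs_nonneg j) with h0 | h0
        · rw [← h0]; norm_num
        · nlinarith [show (1 : ℤ) ≤ |j| from h0]
      rw [Nat.cast_natAbs]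
      exact_mod_cast h
    have h2 : Real.exp (-1) ≤ 1 / 2 := by
      rw [Real.exp_neg]
      have := Real.add_one_le_exp (1 : ℝ)
      rw [one_div]
      exact inv_anti₀ (by norm_num) (by linarith)
    calc Real.exp (-((j : ℝ) ^ 2)) ≤ Real.exp (-((j.natAbs : ℕ) : ℝ)) :=
          Real.exp_le_exp.2 (by linarith)
      _ = Real.exp (-1) ^ j.natAbs := by
          rw [← Real.exp_nat_mul]; ring_nf
      _ ≤ (1 / 2 : ℝ) ^ (j.natAbs) := pow_le_pow_left₀ (Real.exp_pos _).le h2 _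
  have hsum : ∀ M : ℕ, ∑ j ∈ Finset.Icc (-(M : ℤ)) (M : ℤ), (1 / 2 : ℝ) ^ (j.natAbs)
      ≤ 3 - 2 * (1 / 2) ^ M := by
    intro M
    induction M with
    | zero => simp; norm_num
    | succ n ih =>
      have hI : Finset.Icc (-((n + 1 : ℕ) : ℤ)) ((n + 1 : ℕ) : ℤ)
          = insert (-((n : ℤ) + 1)) (insert ((n : ℤ) + 1) (Finset.Icc (-(n : ℤ)) (n : ℤ))) := by
        ext j
        simp only [Finset.mem_Icc, Finset.mem_insert]
        push_cast
        omega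
      rw [hI, Finset.sum_insert, Finset.sum_insert]
      · have e1 : (-((n : ℤ) + 1)).natAbs = n + 1 := by omega
        have e2 : ((n : ℤ) + 1).natAbs = n + 1 := by omega
        rw [e1, e2, pow_succ]
        nlinarith [ih]
      · simp only [Finset.mem_Icc]; omega
      · simp only [Finset.mem_Icc, Finset.mem_insert]; omega
  calc ∑ j ∈ Finset.Icc (-(M : ℤ)) (M : ℤ), Real.exp (-((j : ℝ) ^ 2))
      ≤ ∑ j ∈ Finset.Icc (-(M : ℤ)) (M : ℤ), (1 / 2 : ℝ) ^ (j.natAbs) :=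
        Finset.sum_le_sum fun j _ => hle j
    _ ≤ 3 - 2 * (1 / 2) ^ M := hsum M
    _ ≤ 3 := by
        have : (0 : ℝ) ≤ 2 * (1 / 2) ^ M := by positivity
        linarith

lemma card_intBall (N : ℕ) :
    ((intBall N).card : ℝ) ≤ (Real.exp 16 * 3) ^ N := by
  have h1 : ((intBall N).card : ℝ) ≤ ∑ κ ∈ intBall N,
      Real.exp (16 * (N : ℝ)) * ∏ m, Real.exp (-((κ m : ℝ) ^ 2)) := by
    rw [Finset.card_eq_sum_ones, Nat.cast_sum]
    refine Finset.sum_le_sum fun κ hκ => ?_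
    rw [mem_intBall] at hκ
    rw [← Real.exp_sum, ← Real.exp_add]
    have : (∑ m, (κ m : ℝ) ^ 2) ≤ 16 * (N : ℝ) := by exact_mod_cast hκ
    have h2 : (0 : ℝ) ≤ 16 * (N : ℝ) + ∑ m, -((κ m : ℝ) ^ 2) := by
      rw [Finset.sum_neg_distrib]; linarith
    simpa using Real.one_le_exp h2
  have h2 : ∑ κ ∈ intBall N, Real.exp (16 * (N : ℝ)) * ∏ m, Real.exp (-((κ m : ℝ) ^ 2))
      ≤ ∑ κ ∈ (Fintype.piFinset fun _ : Fin N =>
          Finset.Icc (-(16 * (N : ℤ))) (16 * (N : ℤ))),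
        Real.exp (16 * (N : ℝ)) * ∏ m, Real.exp (-((κ m : ℝ) ^ 2)) := by
    refine Finset.sum_le_sum_of_subset_of_nonneg (Finset.filter_subset _ _) fun κ _ _ => ?_
    positivity
  have h3 : ∑ κ ∈ (Fintype.piFinset fun _ : Fin N =>
          Finset.Icc (-(16 * (N : ℤ))) (16 * (N : ℤ))),
        Real.exp (16 * (N : ℝ)) * ∏ m, Real.exp (-((κ m : ℝ) ^ 2))
      = Real.exp (16 * (N : ℝ)) *
        ∏ _m : Fin N, ∑ j ∈ Finset.Icc (-(16 * (N : ℤ))) (16 * (N : ℤ)),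
          Real.exp (-((j : ℝ) ^ 2)) := by
    rw [← Finset.mul_sum, Finset.prod_univ_sum]
  have h4 : ∑ j ∈ Finset.Icc (-(16 * (N : ℤ))) (16 * (N : ℤ)), Real.exp (-((j : ℝ) ^ 2)) ≤ 3 := by
    have := sum_exp_neg_sq_le (16 * N)
    push_cast at this
    exact this
  have h5 : ∏ _m : Fin N, ∑ j ∈ Finset.Icc (-(16 * (N : ℤ))) (16 * (N : ℤ)),
      Real.exp (-((j : ℝ) ^ 2)) ≤ 3 ^ N := by
    rw [Finset.prod_const, Finset.card_univ, Fintype.card_fin]
    exact pow_le_pow_left₀ (Finset.sum_nonneg fun j _ => (Real.exp_pos _).le) h4 N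
  calc ((intBall N).card : ℝ) ≤ Real.exp (16 * (N : ℝ)) *
        ∏ _m : Fin N, ∑ j ∈ Finset.Icc (-(16 * (N : ℤ))) (16 * (N : ℤ)),
          Real.exp (-((j : ℝ) ^ 2)) := by rw [← h3]; exact h1.trans h2
    _ ≤ Real.exp (16 * (N : ℝ)) * 3 ^ N := mul_le_mul_of_nonneg_left h5 (Real.exp_pos _).le
    _ = (Real.exp 16 * 3) ^ N := by
        rw [mul_pow, ← Real.exp_nat_mul]; ring_nf

end Pool.Agent.MP_119be6_an
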